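import Mathlib

/-! Radial integrals of gradients of locally Lipschitz functions in the plane. -/

namespace Pool.Agent.Helper828.Cap

open Set Filter Topology MeasureTheory Metric Real

/-- the field `(x - w) / |x - w|²` -/
noncomputable def rad (w x : ℂ) : ℂ := ((‖x - w‖ ^ 2)⁻¹ : ℝ) • (x - w)

/-- open annulus -/
def ann (w : ℂ) (a b : ℝ) : Set ℂ := {x | a < ‖x - w‖ ∧ ‖x - w‖ < b}

lemma norm_rad (w x : ℂ) : ‖rad w x‖ = ‖x - w‖⁻¹ := by
  unfold rad
  rw [norm_smul, norm_inv, norm_pow, norm_norm]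
  by_cases h : ‖x - w‖ = 0
  · simp [h]
  · field_simp

lemma inner_grad (φ : ℂ → ℝ) (x v : ℂ) : inner ℝ (gradient φ x) v = fderiv ℝ φ x v := by
  unfold gradient
  exact InnerProductSpace.toDual_symm_apply

lemma norm_grad (φ : ℂ → ℝ) (x : ℂ) : ‖gradient φ x‖ = ‖fderiv ℝ φ x‖ := by
  unfold gradient
  exact LinearIsometryEquiv.norm_map _ _

lemma measurable_grad (φ : ℂ → ℝ) : Measurable (gradient φ) := by
  unfold gradient
  exact (InnerProductSpace.toDual ℝ ℂ).symm.continuous.measurable.comp (measurable_fderiv ℝ φ)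

lemma measurable_rad (w : ℂ) : Measurable (rad w) := by
  unfold rad
  fun_prop

lemma exists_lip {φ : ℂ → ℝ} (hφ : LocallyLipschitz φ) (w : ℂ) (R : ℝ) :
    ∃ K : NNReal, LipschitzOnWith K φ (closedBall w R) :=
  LocallyLipschitzOn.exists_lipschitzOnWith_of_compact (isCompact_closedBall w R)
    (fun x _ => by
      obtain ⟨K, t, ht, hK⟩ := hφ x
      exact ⟨K, t, mem_nhdsWithin_of_mem_nhds ht, hK⟩)

lemma ae_diff {φ : ℂ → ℝ} (hφ : LocallyLipschitz φ) : ∀ᵐ x, DifferentiableAt ℝ φ x := by
  have h : ∀ n : ℕ, ∀ᵐ x : ℂ, x ∈ ball (0:ℂ) n → DifferentiableAt ℝ φ x := by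
    intro n
    obtain ⟨K, hK⟩ := exists_lip hφ 0 n
    have h1 := (hK.mono ball_subset_closedBall).ae_differentiableWithinAt_of_mem (μ := volume)
    filter_upwards [h1] with x hx hxn
    exact (hx hxn).differentiableAt (isOpen_ball.mem_nhds hxn)
  rw [← ae_all_iff] at h
  filter_upwards [h] with x hx
  obtain ⟨n, hn⟩ := exists_nat_gt ‖x‖
  exact hx n (by simpa using hn)

lemma norm_grad_le {φ : ℂ → ℝ} {K : NNReal} {w x : ℂ} {R : ℝ}
    (hK : LipschitzOnWith K φ (closedBall w R)) (hx : ‖x - w‖ < R) : ‖gradient φ x‖ ≤ K := by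
  rw [norm_grad]
  refine norm_fderiv_le_of_lipschitzOn ℝ (s := closedBall w R) ?_ hK
  refine mem_of_superset (isOpen_ball.mem_nhds (?_ : x ∈ ball w R)) ball_subset_closedBall
  rwa [mem_ball, dist_eq_norm]

lemma ann_measurable (w : ℂ) (a b : ℝ) : MeasurableSet (ann w a b) := by
  unfold ann
  have h : Measurable fun x : ℂ => ‖x - w‖ := by fun_prop
  exact (measurableSet_lt measurable_const h).inter (measurableSet_lt h measurable_const)

lemma ae_polar {s : Set ℂ} (hs : volume s = 0) :
    ∀ᵐ p ∂(volume.restrict polarCoord.target), Complex.polarCoord.symm p ∉ s := by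
  obtain ⟨t, hst, htm, ht⟩ := exists_measurable_superset_of_null hs
  have h := Complex.lintegral_comp_polarCoord_symm (t.indicator 1)
  rw [lintegral_indicator_one htm, ht] at h
  have hm : Measurable fun p : ℝ × ℝ => ENNReal.ofReal p.1 • (t.indicator 1 (Complex.polarCoord.symm p) : ENNReal) := by
    have h1 : Measurable fun p : ℝ × ℝ => Complex.polarCoord.symm p := by
      have : (fun p : ℝ × ℝ => Complex.polarCoord.symm p) = fun p : ℝ × ℝ =>
          (p.1 : ℂ) * (Real.cos p.2 + Real.sin p.2 * Complex.I) := by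
        funext p; exact Complex.polarCoord_symm_apply p
      rw [this]; fun_prop
    have h2 : Measurable (t.indicator (1 : ℂ → ENNReal)) := measurable_one.indicator htm
    have h3 := h2.comp h1
    have h4 : Measurable fun p : ℝ × ℝ => ENNReal.ofReal p.1 := by fun_prop
    exact h4.mul h3
  rw [lintegral_eq_zero_iff hm] at h
  have hmem : ∀ᵐ p ∂(volume.restrict polarCoord.target), p ∈ polarCoord.target :=
    ae_restrict_mem polarCoord.open_target.measurableSet
  filter_upwards [h, hmem] with p hp hpt hps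
  simp only [Pi.zero_apply, smul_eq_mul, mul_eq_zero] at hp
  rw [indicator_of_mem (hst hps)] at hp
  have hp1 : 0 < p.1 := by
    have : p ∈ Ioi (0:ℝ) ×ˢ Ioo (-π) π := hpt
    exact this.1
  rcases hp with h | h
  · rw [ENNReal.ofReal_eq_zero] at h
    exact absurd hp1 (not_lt.mpr h)
  · simp at h

/-- direction -/
noncomputable def dir (θ : ℝ) : ℂ := Real.cos θ + Real.sin θ * Complex.I

lemma norm_dir (θ : ℝ) : ‖dir θ‖ = 1 := by
  have : dir θ = Complex.exp (θ * Complex.I) := by
    unfold dir; rw [Complex.exp_mul_I]; simp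
  rw [this]
  exact Complex.norm_exp_ofReal_mul_I θ

lemma circleMap_eq (w : ℂ) (r θ : ℝ) : circleMap w r θ = w + r * dir θ := by
  unfold circleMap dir
  rw [Complex.exp_mul_I]
  simp

lemma polar_eq (p : ℝ × ℝ) : Complex.polarCoord.symm p = p.1 * dir p.2 := by
  rw [Complex.polarCoord_symm_apply]; rfl

/-- the radial derivative along a ray -/
lemma hasDerivAt_ray {φ : ℂ → ℝ} {w : ℂ} {r θ : ℝ} (h : DifferentiableAt ℝ φ (w + r * dir θ)) :
    HasDerivAt (fun s : ℝ => φ (w + s * dir θ)) (fderiv ℝ φ (w + r * dir θ) (dir θ)) r := by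
  have h1 : HasDerivAt (fun s : ℝ => w + s * dir θ) (dir θ) r := by
    have := ((Complex.ofRealCLM.hasDerivAt (x := r)).mul_const (dir θ)).const_add w
    simpa using this
  exact h.hasFDerivAt.comp_hasDerivAt r h1

lemma ray_lipschitz {φ : ℂ → ℝ} {K : NNReal} {w : ℂ} {b θ : ℝ}
    (hK : LipschitzOnWith K φ (closedBall w b)) {a : ℝ} (ha : 0 ≤ a) (hab : a ≤ b) :
    LipschitzOnWith K (fun s : ℝ => φ (w + s * dir θ)) (uIcc a b) := by
  rw [uIcc_of_le hab]
  intro x hx y hy
  have hmem : ∀ s ∈ Icc a b, w + (s:ℂ) * dir θ ∈ closedBall w b := by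
    intro s hs
    rw [mem_closedBall, dist_eq_norm, add_sub_cancel_left, norm_mul, norm_dir, mul_one,
      Complex.norm_real, Real.norm_eq_abs, abs_of_nonneg (ha.trans hs.1)]
    exact hs.2
  refine (hK (hmem x hx) (hmem y hy)).trans ?_
  gcongr
  rw [edist_dist, edist_dist, dist_eq_norm, dist_eq_norm]
  apply le_of_eq
  congr 1
  have : w + (x:ℂ) * dir θ - (w + (y:ℂ) * dir θ) = ((x - y : ℝ) : ℂ) * dir θ := by push_cast; ring
  rw [this, norm_mul, norm_dir, mul_one, Complex.norm_real]

/-- the integrand in polar coordinates -/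
lemma integrand_polar (φ : ℂ → ℝ) (w : ℂ) {a b : ℝ} {p : ℝ × ℝ} (hp : 0 < p.1) :
    p.1 • (ann w a b).indicator (fun x => inner ℝ (gradient φ x) (rad w x)) (w + Complex.polarCoord.symm p)
      = (Ioo a b).indicator (fun r => fderiv ℝ φ (w + r * dir p.2) (dir p.2)) p.1 := by
  have hn : ‖w + Complex.polarCoord.symm p - w‖ = p.1 := by
    rw [add_sub_cancel_left, polar_eq, norm_mul, norm_dir, mul_one, Complex.norm_real,
      Real.norm_eq_abs, abs_of_pos hp]
  by_cases h : p.1 ∈ Ioo a b
  · rw [indicator_of_mem h, indicator_of_mem (by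
      show a < ‖_ - w‖ ∧ ‖_ - w‖ < b
      rw [hn]; exact h), inner_grad]
    unfold rad
    rw [hn, add_sub_cancel_left, polar_eq, map_smul, smul_eq_mul, smul_eq_mul]
    have : ((p.1:ℂ) * dir p.2) = p.1 • dir p.2 := by simp
    rw [this, map_smul, smul_eq_mul]
    field_simp
  · rw [indicator_of_notMem h, indicator_of_notMem]
    · simp
    · intro h2
      apply h
      have h3 : a < ‖w + Complex.polarCoord.symm p - w‖ ∧ ‖w + Complex.polarCoord.symm p - w‖ < b := h2
      rw [hn] at h3; exact h3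

lemma radial_integrable {φ : ℂ → ℝ} (hφ : LocallyLipschitz φ) (w : ℂ) {a b : ℝ} (ha : 0 ≤ a)
    (hab : a ≤ b) :
    IntegrableOn (fun p : ℝ × ℝ => (Ioo a b).indicator
      (fun r => fderiv ℝ φ (w + r * dir p.2) (dir p.2)) p.1) (Ioi (0:ℝ) ×ˢ Ioo (-π) π)
      (volume.prod volume) := by
  obtain ⟨K, hK⟩ := exists_lip hφ w b
  have hm : Measurable (fun p : ℝ × ℝ => (Ioo a b).indicator
      (fun r => fderiv ℝ φ (w + r * dir p.2) (dir p.2)) p.1) := by
    have h1 : Measurable fun p : ℝ × ℝ => fderiv ℝ φ (w + p.1 * dir p.2) := by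
      apply (measurable_fderiv ℝ φ).comp
      unfold dir; fun_prop
    have h2 : Measurable fun p : ℝ × ℝ => dir p.2 := by unfold dir; fun_prop
    have h3 : Measurable fun p : ℝ × ℝ => fderiv ℝ φ (w + p.1 * dir p.2) (dir p.2) := by
      have h4 : (fun p : ℝ × ℝ => fderiv ℝ φ (w + p.1 * dir p.2) (dir p.2)) =
        fun p : ℝ × ℝ => Real.cos p.2 * fderiv ℝ φ (w + p.1 * dir p.2) 1
          + Real.sin p.2 * fderiv ℝ φ (w + p.1 * dir p.2) Complex.I := by
        funext p
        have h5 : dir p.2 = Real.cos p.2 • (1:ℂ) + Real.sin p.2 • Complex.I := by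
          unfold dir; simp
        conv_lhs => rw [h5]
        rw [map_add, map_smul, map_smul]
        have h6 : w + (p.1:ℂ) * (Real.cos p.2 • (1:ℂ) + Real.sin p.2 • Complex.I) = w + p.1 * dir p.2 := by
          rw [← h5]
        rw [h6]
        rfl
      rw [h4]
      have h7 : Measurable fun p : ℝ × ℝ => fderiv ℝ φ (w + p.1 * dir p.2) 1 :=
        (ContinuousLinearMap.apply ℝ ℝ (1:ℂ)).continuous.measurable.comp h1
      have h8 : Measurable fun p : ℝ × ℝ => fderiv ℝ φ (w + p.1 * dir p.2) Complex.I :=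
        (ContinuousLinearMap.apply ℝ ℝ (Complex.I)).continuous.measurable.comp h1
      fun_prop
    have h9 : (fun p : ℝ × ℝ => (Ioo a b).indicator
      (fun r => fderiv ℝ φ (w + r * dir p.2) (dir p.2)) p.1) = (Prod.fst ⁻¹' (Ioo a b)).indicator
        (fun p : ℝ × ℝ => fderiv ℝ φ (w + p.1 * dir p.2) (dir p.2)) := by
      funext p
      by_cases h : p.1 ∈ Ioo a b
      · rw [indicator_of_mem h, indicator_of_mem (by exact h)]
      · rw [indicator_of_notMem h, indicator_of_notMem (by exact h)]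
    rw [h9]
    exact h3.indicator (measurable_fst measurableSet_Ioo)
  -- dominated by K on (a,b) x (-pi,pi)
  have hdom : IntegrableOn (fun p : ℝ × ℝ => (Ioo a b ×ˢ Ioo (-π) π).indicator (fun _ => (K:ℝ)) p)
      (Ioi (0:ℝ) ×ˢ Ioo (-π) π) (volume.prod volume) := by
    apply Integrable.integrableOn
    rw [integrable_indicator_iff (measurableSet_Ioo.prod measurableSet_Ioo)]
    apply integrableOn_const
    · rw [Measure.prod_prod, Real.volume_Ioo, Real.volume_Ioo]
      exact ENNReal.mul_ne_top ENNReal.ofReal_ne_top ENNReal.ofReal_ne_top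
    · simp
  refine Integrable.mono' hdom hm.aestronglyMeasurable ?_
  filter_upwards [ae_restrict_mem (measurableSet_Ioi.prod measurableSet_Ioo)] with p hp
  by_cases h : p.1 ∈ Ioo a b
  · rw [indicator_of_mem h, indicator_of_mem (by exact ⟨h, hp.2⟩)]
    have hn : ‖w + (p.1:ℂ) * dir p.2 - w‖ = p.1 := by
      rw [add_sub_cancel_left, norm_mul, norm_dir, mul_one, Complex.norm_real,
        Real.norm_eq_abs, abs_of_pos hp.1]
    have h1 := norm_grad_le (x := w + (p.1:ℂ) * dir p.2) hK (by rw [hn]; exact h.2)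
    rw [norm_grad] at h1
    calc ‖fderiv ℝ φ (w + p.1 * dir p.2) (dir p.2)‖ ≤ ‖fderiv ℝ φ (w + p.1 * dir p.2)‖ * ‖dir p.2‖ :=
          ContinuousLinearMap.le_opNorm _ _
      _ ≤ K := by rw [norm_dir, mul_one]; exact h1
  · rw [indicator_of_notMem h]
    simp only [norm_zero]
    apply indicator_nonneg
    intro _ _; exact K.2

/-- **Radial integral formula.** -/
theorem radial_integral {φ : ℂ → ℝ} (hφ : LocallyLipschitz φ) (w : ℂ) {a b : ℝ} (ha : 0 ≤ a)
    (hab : a ≤ b) :
    ∫ x in ann w a b, inner ℝ (gradient φ x) (rad w x)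
      = 2 * π * (circleAverage φ w b - circleAverage φ w a) := by
  rw [← integral_indicator (ann_measurable w a b), ← integral_add_left_eq_self _ w,
    ← Complex.integral_comp_polarCoord_symm]
  have htarget : polarCoord.target = Ioi (0:ℝ) ×ˢ Ioo (-π) π := rfl
  have hms : MeasurableSet (Ioi (0:ℝ) ×ˢ Ioo (-π) π) := measurableSet_Ioi.prod measurableSet_Ioo
  rw [htarget]
  have h1 : ∫ p in Ioi (0:ℝ) ×ˢ Ioo (-π) π, p.1 • (ann w a b).indicator
      (fun x => inner ℝ (gradient φ x) (rad w x)) (w + Complex.polarCoord.symm p)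
      = ∫ p in Ioi (0:ℝ) ×ˢ Ioo (-π) π, (Ioo a b).indicator
      (fun r => fderiv ℝ φ (w + r * dir p.2) (dir p.2)) p.1 := by
    apply setIntegral_congr_fun hms
    intro p hp
    exact integrand_polar φ w hp.1
  rw [h1]
  have hint := radial_integrable hφ w ha hab
  rw [Measure.volume_eq_prod, ← Measure.prod_restrict]
  have hint2 : Integrable (fun p : ℝ × ℝ => (Ioo a b).indicator
      (fun r => fderiv ℝ φ (w + r * dir p.2) (dir p.2)) p.1)
      ((volume.restrict (Ioi (0:ℝ))).prod (volume.restrict (Ioo (-π) π))) := by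
    rw [Measure.prod_restrict]; exact hint
  rw [integral_prod_symm _ hint2]
  -- almost every ray
  have hae : ∀ᵐ θ ∂(volume.restrict (Ioo (-π) π)), ∀ᵐ r : ℝ ∂(volume.restrict (Ioi (0:ℝ))),
      DifferentiableAt ℝ φ (w + r * dir θ) := by
    have hnull : volume {y : ℂ | ¬ DifferentiableAt ℝ φ (w + y)} = 0 := by
      have h := ae_diff hφ
      rw [ae_iff] at h
      have h2 := (measurePreserving_add_left (volume : Measure ℂ) w).quasiMeasurePreserving.preimage_null h
      exact h2
    have h2 := ae_polar hnull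
    rw [htarget, Measure.volume_eq_prod, ← Measure.prod_restrict] at h2
    have h3 : ∀ᵐ p ∂((volume.restrict (Ioo (-π) π)).prod (volume.restrict (Ioi (0:ℝ)))),
        DifferentiableAt ℝ φ (w + p.2 * dir p.1) := by
      have h4 := (Measure.measurePreserving_swap (μ := volume.restrict (Ioo (-π) π))
        (ν := volume.restrict (Ioi (0:ℝ)))).quasiMeasurePreserving.ae h2
      filter_upwards [h4] with p hp
      rw [polar_eq] at hp
      simpa using hp
    exact Measure.ae_ae_of_ae_prod h3
  obtain ⟨K, hK⟩ := exists_lip hφ w b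
  have h2 : ∫ θ in Ioo (-π) π, (∫ r in Ioi (0:ℝ), (Ioo a b).indicator
      (fun r => fderiv ℝ φ (w + r * dir θ) (dir θ)) r)
      = ∫ θ in Ioo (-π) π, (φ (circleMap w b θ) - φ (circleMap w a θ)) := by
    apply integral_congr_ae
    filter_upwards [hae] with θ hθ
    have e1 : ∫ r in Ioi (0:ℝ), (Ioo a b).indicator
      (fun r : ℝ => fderiv ℝ φ (w + r * dir θ) (dir θ)) r = ∫ r in Ioi (0:ℝ), (Ioo a b).indicator
      (fun r : ℝ => deriv (fun s : ℝ => φ (w + s * dir θ)) r) r := by
      apply integral_congr_ae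
      filter_upwards [hθ] with r hr
      by_cases h : r ∈ Ioo a b
      · rw [indicator_of_mem h, indicator_of_mem h, (hasDerivAt_ray hr).deriv]
      · rw [indicator_of_notMem h, indicator_of_notMem h]
    rw [e1, setIntegral_indicator measurableSet_Ioo]
    have e2 : Ioi (0:ℝ) ∩ Ioo a b = Ioo a b := by
      apply inter_eq_right.mpr
      intro r hr
      exact lt_of_le_of_lt ha hr.1
    rw [e2, ← integral_Ioc_eq_integral_Ioo, ← intervalIntegral.integral_of_le hab,
      (ray_lipschitz hK ha hab).absolutelyContinuousOnInterval.integral_deriv_eq_sub]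
    rw [circleMap_eq, circleMap_eq]
  rw [h2]
  have hc : ∀ R, IntervalIntegrable (fun θ => φ (circleMap w R θ)) volume (-π) π := by
    intro R
    apply Continuous.intervalIntegrable
    exact hφ.continuous.comp (continuous_circleMap w R)
  have havg : ∀ R, circleAverage φ w R = (2 * π)⁻¹ * ∫ θ in (-π)..π, φ (circleMap w R θ) := by
    intro R
    rw [circleAverage_eq_integral_add (-π), smul_eq_mul]
    congr 1
    rw [intervalIntegral.integral_comp_add_right (fun θ => φ (circleMap w R θ)) (-π)]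
    congr 1 <;> ring
  rw [← integral_Ioc_eq_integral_Ioo, ← intervalIntegral.integral_of_le (by linarith [pi_pos]),
    intervalIntegral.integral_sub (hc b) (hc a), havg, havg]
  field_simp

end Pool.Agent.Helper828.Cap
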