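import Pool.Agent.Helper828.CapA

/-! Truncated logarithmic potentials of finitely many points. -/

namespace Pool.Agent.Helper828.Cap

open Set Filter Topology MeasureTheory Metric Real

lemma LL_mul {f g : ℂ → ℝ} (hf : LocallyLipschitz f) (hg : LocallyLipschitz g) :
    LocallyLipschitz fun x => f x * g x := by
  have h : LocallyLipschitz (fun p : ℝ × ℝ => p.1 * p.2) :=
    ContDiff.locallyLipschitz (𝕂 := ℝ) (by fun_prop)
  exact h.comp (hf.prodMk hg)

lemma LL_add {f g : ℂ → ℝ} (hf : LocallyLipschitz f) (hg : LocallyLipschitz g) :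
    LocallyLipschitz fun x => f x + g x := by
  have h : LocallyLipschitz (fun p : ℝ × ℝ => p.1 + p.2) :=
    ContDiff.locallyLipschitz (𝕂 := ℝ) (by fun_prop)
  exact h.comp (hf.prodMk hg)

lemma LL_sub {f g : ℂ → ℝ} (hf : LocallyLipschitz f) (hg : LocallyLipschitz g) :
    LocallyLipschitz fun x => f x - g x := by
  have h : LocallyLipschitz (fun p : ℝ × ℝ => p.1 - p.2) :=
    ContDiff.locallyLipschitz (𝕂 := ℝ) (by fun_prop)
  exact h.comp (hf.prodMk hg)

lemma LL_const_mul {f : ℂ → ℝ} (c : ℝ) (hf : LocallyLipschitz f) :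
    LocallyLipschitz fun x => c * f x := LL_mul (LocallyLipschitz.const c) hf

lemma LL_sum {ι : Type*} (s : Finset ι) {f : ι → ℂ → ℝ} (hf : ∀ i ∈ s, LocallyLipschitz (f i)) :
    LocallyLipschitz fun x => ∑ i ∈ s, f i x := by
  classical
  induction s using Finset.induction_on with
  | empty => simpa using LocallyLipschitz.const (0:ℝ)
  | insert i s his ih =>
    simp only [Finset.sum_insert his]
    exact LL_add (hf i (Finset.mem_insert_self _ _))
      (ih fun j hj => hf j (Finset.mem_insert_of_mem hj))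

lemma LL_prod {ι : Type*} (s : Finset ι) {f : ι → ℂ → ℝ} (hf : ∀ i ∈ s, LocallyLipschitz (f i)) :
    LocallyLipschitz fun x => ∏ i ∈ s, f i x := by
  classical
  induction s using Finset.induction_on with
  | empty => simpa using LocallyLipschitz.const (1:ℝ)
  | insert i s his ih =>
    simp only [Finset.prod_insert his]
    exact LL_mul (hf i (Finset.mem_insert_self _ _))
      (ih fun j hj => hf j (Finset.mem_insert_of_mem hj))

lemma LL_norm_sub (w : ℂ) : LocallyLipschitz fun x : ℂ => ‖x - w‖ := by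
  have : LipschitzWith 1 fun x : ℂ => ‖x - w‖ := by
    have h := (LipschitzWith.dist_left w : LipschitzWith 1 fun x : ℂ => dist x w)
    simpa [dist_eq_norm] using h
  exact this.locallyLipschitz

lemma lip_log_max {τ : ℝ} (hτ : 0 < τ) : LipschitzWith ⟨τ⁻¹, by positivity⟩ fun s : ℝ => Real.log (max τ s) := by
  apply LipschitzWith.of_dist_le_mul
  intro a b
  rw [Real.dist_eq, Real.dist_eq]
  have key : ∀ x y : ℝ, τ ≤ x → x ≤ y → |Real.log y - Real.log x| ≤ τ⁻¹ * |y - x| := by
    intro x y hx hxy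
    have hx0 : 0 < x := lt_of_lt_of_le hτ hx
    have hy0 : 0 < y := lt_of_lt_of_le hx0 hxy
    rw [abs_of_nonneg (sub_nonneg.mpr (Real.log_le_log hx0 hxy)), abs_of_nonneg (sub_nonneg.mpr hxy),
      ← Real.log_div hy0.ne' hx0.ne']
    have h1 := Real.log_le_sub_one_of_pos (div_pos hy0 hx0)
    refine h1.trans ?_
    have h2 : y / x - 1 = (y - x) / x := by field_simp
    rw [h2, div_eq_mul_inv, mul_comm]
    have : 0 ≤ y - x := sub_nonneg.mpr hxy
    gcongr
  have hm : |max τ a - max τ b| ≤ |a - b| := by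
    rw [max_comm τ a, max_comm τ b]
    exact abs_max_sub_max_le_abs a b τ
  have hτn : 0 ≤ τ⁻¹ := by positivity
  show _ ≤ τ⁻¹ * |a - b|
  rcases le_total (max τ a) (max τ b) with h | h
  · have := key (max τ a) (max τ b) (le_max_left _ _) h
    rw [abs_sub_comm]
    refine this.trans ?_
    rw [abs_sub_comm (max τ b)]
    gcongr
  · have := key (max τ b) (max τ a) (le_max_left _ _) h
    refine this.trans ?_
    gcongr

section pot

variable {ι : Type*} [Fintype ι]

/-- the truncated product -/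
noncomputable def Pf (w : ι → ℂ) (R : ℝ) (x : ℂ) : ℝ := ∏ i, min R ‖x - w i‖

/-- the truncated potential -/
noncomputable def pot (w : ι → ℂ) (R τ : ℝ) (x : ℂ) : ℝ :=
  Real.log R - (Fintype.card ι : ℝ)⁻¹ * Real.log (max τ (Pf w R x))

/-- the field of the potential -/
noncomputable def Fld (w : ι → ℂ) (R : ℝ) (x : ℂ) : ℂ :=
  (Fintype.card ι : ℝ)⁻¹ • ∑ i, (ball (w i) R).indicator (rad (w i)) x

lemma Pf_LL (w : ι → ℂ) (R : ℝ) : LocallyLipschitz (Pf w R) := by
  unfold Pf
  exact LL_prod _ fun i _ => (LL_norm_sub (w i)).const_min R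

lemma pot_LL (w : ι → ℂ) (R : ℝ) {τ : ℝ} (hτ : 0 < τ) : LocallyLipschitz (pot w R τ) := by
  unfold pot
  exact LL_sub (LocallyLipschitz.const _) (LL_const_mul _ ((lip_log_max hτ).locallyLipschitz.comp (Pf_LL w R)))

lemma Pf_nonneg (w : ι → ℂ) {R : ℝ} (hR : 0 < R) (x : ℂ) : 0 ≤ Pf w R x :=
  Finset.prod_nonneg fun i _ => le_min hR.le (norm_nonneg _)

lemma Pf_le (w : ι → ℂ) {R : ℝ} (hR : 0 < R) (x : ℂ) : Pf w R x ≤ R ^ Fintype.card ι := by
  unfold Pf
  calc ∏ i, min R ‖x - w i‖ ≤ ∏ _i : ι, R :=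
        Finset.prod_le_prod (fun i _ => le_min hR.le (norm_nonneg _)) fun i _ => min_le_left _ _
    _ = _ := by simp

lemma pot_nonneg [Nonempty ι] (w : ι → ℂ) {R τ : ℝ} (hR : 0 < R) (hτ : 0 < τ)
    (hτR : τ ≤ R ^ Fintype.card ι) (x : ℂ) : 0 ≤ pot w R τ x := by
  unfold pot
  have hN : (0:ℝ) < Fintype.card ι := by exact_mod_cast Fintype.card_pos
  have h1 : Real.log (max τ (Pf w R x)) ≤ Fintype.card ι * Real.log R := by
    rw [← Real.log_pow]
    exact Real.log_le_log (lt_of_lt_of_le hτ (le_max_left _ _)) (max_le hτR (Pf_le w hR x))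
  have h2 : (Fintype.card ι : ℝ)⁻¹ * Real.log (max τ (Pf w R x)) ≤ Real.log R := by
    rw [inv_mul_le_iff₀ hN]; exact h1
  linarith

lemma pot_le (w : ι → ℂ) {R τ : ℝ} (hτ : 0 < τ) (x : ℂ) :
    pot w R τ x ≤ Real.log R - (Fintype.card ι : ℝ)⁻¹ * Real.log τ := by
  unfold pot
  have h1 : Real.log τ ≤ Real.log (max τ (Pf w R x)) := Real.log_le_log hτ (le_max_left _ _)
  have hN : (0:ℝ) ≤ (Fintype.card ι : ℝ)⁻¹ := by positivity
  have := mul_le_mul_of_nonneg_left h1 hN
  linarith

lemma pot_of_le (w : ι → ℂ) {R τ : ℝ} {x : ℂ} (h : Pf w R x ≤ τ) :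
    pot w R τ x = Real.log R - (Fintype.card ι : ℝ)⁻¹ * Real.log τ := by
  unfold pot; rw [max_eq_left h]

lemma pot_of_ge (w : ι → ℂ) {R τ : ℝ} {x : ℂ} (h : τ ≤ Pf w R x) (hτ : 0 < τ) :
    pot w R τ x = Real.log R - (Fintype.card ι : ℝ)⁻¹ * ∑ i, Real.log (min R ‖x - w i‖) := by
  unfold pot; rw [max_eq_right h]
  congr 2
  unfold Pf
  rw [Real.log_prod]
  intro i hi h0
  have : Pf w R x = 0 := Finset.prod_eq_zero hi h0
  linarith

/-- the potential vanishes far away -/
lemma pot_eq_zero [Nonempty ι] (w : ι → ℂ) {R τ : ℝ} (hτR : τ ≤ R ^ Fintype.card ι) {x : ℂ}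
    (h : ∀ i, R ≤ ‖x - w i‖) : pot w R τ x = 0 := by
  have hP : Pf w R x = R ^ Fintype.card ι := by
    unfold Pf
    rw [Finset.prod_congr rfl fun i _ => min_eq_left (h i)]
    simp
  unfold pot
  rw [hP, max_eq_right hτR, Real.log_pow]
  have hN : (Fintype.card ι : ℝ) ≠ 0 := by exact_mod_cast Fintype.card_ne_zero
  field_simp
  ring

lemma hasFDerivAt_log_norm {w x : ℂ} (h : x ≠ w) :
    HasFDerivAt (fun y : ℂ => Real.log ‖y - w‖) (innerSL ℝ (rad w x)) x := by
  have h0 : ‖x - w‖ ≠ 0 := norm_ne_zero_iff.mpr (sub_ne_zero.mpr h)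
  have h1 : HasFDerivAt (fun y : ℂ => ‖y - w‖ ^ 2) (2 • (innerSL ℝ (x - w)).comp (ContinuousLinearMap.id ℝ ℂ)) x :=
    HasFDerivAt.norm_sq ((hasFDerivAt_id x).sub_const w)
  have h2 := (h1.log (pow_ne_zero 2 h0)).const_mul (1/2 : ℝ)
  have h3 : (fun y : ℂ => (1/2 : ℝ) * Real.log (‖y - w‖ ^ 2)) = fun y : ℂ => Real.log ‖y - w‖ := by
    funext y; rw [Real.log_pow]; push_cast; ring
  rw [h3] at h2
  refine h2.congr_fderiv (ContinuousLinearMap.ext fun v => ?_)
  have e1 : (innerSL ℝ (rad w x)) v = (‖x - w‖ ^ 2)⁻¹ * inner ℝ (x - w) v := by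
    rw [innerSL_apply_apply, rad, real_inner_smul_left]
  rw [e1]
  have e2 : (innerSL ℝ (x - w)) v = inner ℝ (x - w) v := innerSL_apply_apply ..
  simp only [smul_apply, ContinuousLinearMap.comp_apply, ContinuousLinearMap.id_apply, e2,
    nsmul_eq_mul, smul_eq_mul]
  push_cast; ring

lemma gradient_log_norm {w x : ℂ} (h : x ≠ w) : gradient (fun y : ℂ => Real.log ‖y - w‖) x = rad w x := by
  unfold gradient
  rw [(hasFDerivAt_log_norm h).fderiv]
  exact (InnerProductSpace.toDual ℝ ℂ).symm_apply_apply (rad w x)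

lemma gradient_congr {f g : ℂ → ℝ} {x : ℂ} (h : f =ᶠ[𝓝 x] g) : gradient f x = gradient g x := by
  unfold gradient; rw [h.fderiv_eq]

lemma gradient_const' (c : ℝ) (x : ℂ) : gradient (fun _ : ℂ => c) x = 0 := by
  unfold gradient; simp

/-- the gradient of the untruncated-from-below potential -/
lemma hasFDerivAt_sum_log (w : ι → ℂ) {R : ℝ} {x : ℂ} (h0 : ∀ i, x ≠ w i)
    (h1 : ∀ i, ‖x - w i‖ ≠ R) :
    HasFDerivAt (fun y => Real.log R - (Fintype.card ι : ℝ)⁻¹ * ∑ i, Real.log (min R ‖y - w i‖))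
      (innerSL ℝ (-Fld w R x)) x := by
  have hterm : ∀ i, HasFDerivAt (fun y => Real.log (min R ‖y - w i‖))
      (innerSL ℝ ((ball (w i) R).indicator (rad (w i)) x)) x := by
    intro i
    have hc : ContinuousAt (fun y : ℂ => ‖y - w i‖) x := by fun_prop
    rcases lt_or_gt_of_ne (h1 i) with h | h
    · rw [indicator_of_mem (by rwa [mem_ball, dist_eq_norm])]
      refine (hasFDerivAt_log_norm (h0 i)).congr_of_eventuallyEq ?_
      filter_upwards [hc.eventually_lt_const h] with y hy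
      rw [min_eq_right hy.le]
    · rw [indicator_of_notMem (by rw [mem_ball, dist_eq_norm]; exact not_lt.mpr h.le)]
      rw [map_zero]
      refine (hasFDerivAt_const (Real.log R) x).congr_of_eventuallyEq ?_
      filter_upwards [hc.eventually_const_lt h] with y hy
      rw [min_eq_left hy.le]
  have hs : HasFDerivAt (fun y => ∑ i, Real.log (min R ‖y - w i‖))
      (∑ i, innerSL ℝ ((ball (w i) R).indicator (rad (w i)) x)) x :=
    HasFDerivAt.fun_sum fun i _ => hterm i
  have h2 := (hs.const_mul ((Fintype.card ι : ℝ)⁻¹)).const_sub (Real.log R)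
  refine h2.congr_fderiv ?_
  unfold Fld
  rw [← map_sum, ← map_smul, ← map_neg]

lemma sphere_null (w : ℂ) (R : ℝ) : ∀ᵐ x : ℂ, ‖x - w‖ ≠ R := by
  rcases le_or_gt R 0 with h | h
  · rcases h.lt_or_eq with h | h
    · exact Eventually.of_forall fun x hx => by
        have := norm_nonneg (x - w); linarith
    · subst h
      have : ∀ᵐ x : ℂ, x ≠ w := by
        rw [ae_iff]; simp
      filter_upwards [this] with x hx h0
      exact hx (sub_eq_zero.mp (norm_eq_zero.mp h0))
  · have h1 := Measure.addHaar_sphere (volume : Measure ℂ) w R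
    rw [ae_iff]
    have h2 : {x : ℂ | ¬ ‖x - w‖ ≠ R} = sphere w R := by
      ext x; simp
    rw [h2]; exact h1

/-- **Gradient of the truncated potential.** -/
lemma gradient_pot (w : ι → ℂ) (R : ℝ) {τ : ℝ} (hτ : 0 < τ) :
    ∀ᵐ x : ℂ, gradient (pot w R τ) x = {x | τ < Pf w R x}.indicator (fun x => -Fld w R x) x := by
  have h1 : ∀ᵐ x : ℂ, ∀ i, ‖x - w i‖ ≠ R := ae_all_iff.mpr fun i => sphere_null (w i) R
  have h2 : ∀ᵐ x : ℂ, ∀ i, x ≠ w i := by
    rw [ae_all_iff]
    intro i
    filter_upwards [sphere_null (w i) 0] with x hx h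
    apply hx; rw [h]; simp
  have hcont := (Pf_LL w R).continuous
  filter_upwards [h1, h2] with x hx1 hx2
  rcases lt_trichotomy τ (Pf w R x) with h | h | h
  · rw [indicator_of_mem (by exact h)]
    have hev : pot w R τ =ᶠ[𝓝 x] fun y => Real.log R - (Fintype.card ι : ℝ)⁻¹ * ∑ i, Real.log (min R ‖y - w i‖) := by
      filter_upwards [hcont.continuousAt.eventually_const_lt h] with y hy
      exact pot_of_ge w hy.le hτ
    rw [gradient_congr hev]
    unfold gradient
    rw [(hasFDerivAt_sum_log w hx2 hx1).fderiv]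
    exact (InnerProductSpace.toDual ℝ ℂ).symm_apply_apply (-Fld w R x)
  · rw [indicator_of_notMem (by simp [h])]
    have hmax : IsLocalMax (pot w R τ) x := by
      refine Eventually.of_forall fun y => ?_
      show pot w R τ y ≤ pot w R τ x
      rw [pot_of_le w h.ge]
      exact pot_le w hτ y
    unfold gradient
    rw [hmax.fderiv_eq_zero, map_zero]
  · rw [indicator_of_notMem (by simp [h.le])]
    have hev : pot w R τ =ᶠ[𝓝 x] fun _ => Real.log R - (Fintype.card ι : ℝ)⁻¹ * Real.log τ := by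
      filter_upwards [hcont.continuousAt.eventually_lt_const h] with y hy
      exact pot_of_le w hy.le
    rw [gradient_congr hev, gradient_const']

end pot

/-! ### integrability -/

lemma ann_zero_eq (w : ℂ) (b : ℝ) : ann w 0 b = ball w b \ {w} := by
  ext x
  simp only [ann, mem_ofPred_eq, Set.mem_sdiff, mem_ball, dist_eq_norm, mem_singleton_iff, norm_pos_iff, sub_ne_zero]
  tauto

lemma ae_eq_ann (w : ℂ) (b : ℝ) : (ann w 0 b : Set ℂ) =ᵐ[volume] ball w b := by
  rw [ann_zero_eq]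
  exact sdiff_null_ae_eq_self (by simp)

lemma inv_norm_integral (w : ℂ) {b : ℝ} (hb : 0 ≤ b) :
    ∫ x in ball w b, ‖x - w‖⁻¹ = 2 * π * b := by
  have h := radial_integral (LL_norm_sub w) w le_rfl hb
  rw [← setIntegral_congr_set (ae_eq_ann w b)]
  have h1 : ∫ x in ann w 0 b, ‖x - w‖⁻¹ = ∫ x in ann w 0 b, inner ℝ (gradient (fun x : ℂ => ‖x - w‖) x) (rad w x) := by
    apply setIntegral_congr_fun (ann_measurable w 0 b)
    intro x hx
    have hx0 : x - w ≠ 0 := norm_pos_iff.mp hx.1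
    simp only
    rw [inner_grad]
    have h2 : fderiv ℝ (fun y : ℂ => ‖y - w‖) x (x - w) = ‖x - w‖ := by
      have h3 := DifferentiableAt.fderiv_norm_self (x := x - w)
        ((contDiffAt_norm (n := 1) ℝ hx0).differentiableAt (by simp))
      have h4 : fderiv ℝ (fun y : ℂ => ‖y - w‖) x = fderiv ℝ (fun y : ℂ => ‖y‖) (x - w) :=
        fderiv_comp_sub (f := fun z : ℂ => ‖z‖) w
      rw [h4, h3]
    unfold rad
    rw [map_smul, h2, smul_eq_mul]
    field_simp
  rw [h1, h]
  have e1 : circleAverage (fun x : ℂ => ‖x - w‖) w b = b := by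
    apply circleAverage_const_on_circle
    intro x hx
    rw [mem_sphere, dist_eq_norm, abs_of_nonneg hb] at hx
    exact hx
  have e2 : circleAverage (fun x : ℂ => ‖x - w‖) w 0 = 0 := by simp
  rw [e1, e2]; ring

lemma inv_norm_integrable (w : ℂ) (b : ℝ) : IntegrableOn (fun x : ℂ => ‖x - w‖⁻¹) (ball w b) := by
  rcases le_or_gt b 0 with hb | hb
  · rw [ball_eq_empty.mpr hb]; exact integrableOn_empty
  · by_contra h
    have h1 := inv_norm_integral w hb.le
    rw [integral_undef h] at h1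
    have : 0 < 2 * π * b := by positivity
    linarith

end Pool.Agent.Helper828.Cap
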