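import Pool.Agent.Helper828.CapB

/-! The Dirichlet form and its values on truncated potentials. -/

namespace Pool.Agent.Helper828.Cap

open Set Filter Topology MeasureTheory Metric Real

/-- the Dirichlet form -/
noncomputable def Bf (φ ψ : ℂ → ℝ) : ℝ := ∫ x, inner ℝ (gradient φ x) (gradient ψ x)

lemma Bf_comm (φ ψ : ℂ → ℝ) : Bf φ ψ = Bf ψ φ := by
  unfold Bf; congr 1; funext x; exact real_inner_comm _ _

section

variable {ι : Type*} [Fintype ι]

lemma measurable_indRad (w : ℂ) (R : ℝ) : Measurable ((ball w R).indicator (rad w)) :=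
  (measurable_rad w).indicator measurableSet_ball

lemma measurable_Fld (w : ι → ℂ) (R : ℝ) : Measurable (Fld w R) := by
  unfold Fld
  have h : Measurable (fun x => ∑ i, (ball (w i) R).indicator (rad (w i)) x) :=
    Finset.measurable_fun_sum _ fun i _ => measurable_indRad (w i) R
  exact h.const_smul ((Fintype.card ι : ℝ)⁻¹)

lemma term_integrable {φ : ℂ → ℝ} (hφ : LocallyLipschitz φ) (w : ℂ) (R : ℝ) :
    Integrable (fun x => inner ℝ (gradient φ x) ((ball w R).indicator (rad w) x)) := by
  obtain ⟨K, hK⟩ := exists_lip hφ w R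
  have h1 : Integrable ((ball w R).indicator fun x : ℂ => (K:ℝ) * ‖x - w‖⁻¹) :=
    (integrable_indicator_iff measurableSet_ball).mpr ((inv_norm_integrable w R).const_mul _)
  refine Integrable.mono' h1 ?_ ?_
  · exact ((measurable_grad φ).inner (measurable_indRad w R)).aestronglyMeasurable
  · refine Eventually.of_forall fun x => ?_
    by_cases hx : x ∈ ball w R
    · rw [indicator_of_mem hx, indicator_of_mem hx]
      refine (norm_inner_le_norm _ _).trans ?_
      rw [norm_rad]
      have := norm_grad_le hK (x := x) (by rwa [mem_ball, dist_eq_norm] at hx)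
      gcongr
    · rw [indicator_of_notMem hx, indicator_of_notMem hx]
      simp

lemma term_integral {φ : ℂ → ℝ} (hφ : LocallyLipschitz φ) (w : ℂ) {R : ℝ} (hR : 0 ≤ R) :
    ∫ x, inner ℝ (gradient φ x) ((ball w R).indicator (rad w) x)
      = 2 * π * (circleAverage φ w R - φ w) := by
  have h := radial_integral hφ w le_rfl hR
  rw [circleAverage_zero] at h
  rw [← h, ← setIntegral_congr_set (ae_eq_ann w R).symm, ← integral_indicator measurableSet_ball]
  congr 1
  funext x
  by_cases hx : x ∈ ball w R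
  · rw [indicator_of_mem hx, indicator_of_mem hx]
  · rw [indicator_of_notMem hx, indicator_of_notMem hx, inner_zero_right]

lemma Fld_integrable {φ : ℂ → ℝ} (hφ : LocallyLipschitz φ) (w : ι → ℂ) (R : ℝ) :
    Integrable (fun x => inner ℝ (gradient φ x) (Fld w R x)) := by
  unfold Fld
  have : (fun x => inner ℝ (gradient φ x) ((Fintype.card ι : ℝ)⁻¹ • ∑ i, (ball (w i) R).indicator (rad (w i)) x))
      = fun x => (Fintype.card ι : ℝ)⁻¹ * ∑ i, inner ℝ (gradient φ x) ((ball (w i) R).indicator (rad (w i)) x) := by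
    funext x; rw [real_inner_smul_right, inner_sum]
  rw [this]
  exact (integrable_finsetSum _ fun i _ => term_integrable hφ (w i) R).const_mul _

lemma Fld_integral {φ : ℂ → ℝ} (hφ : LocallyLipschitz φ) (w : ι → ℂ) {R : ℝ} (hR : 0 ≤ R) :
    ∫ x, inner ℝ (gradient φ x) (Fld w R x)
      = 2 * π * ((Fintype.card ι : ℝ)⁻¹ * ∑ i, (circleAverage φ (w i) R - φ (w i))) := by
  unfold Fld
  have : (fun x => inner ℝ (gradient φ x) ((Fintype.card ι : ℝ)⁻¹ • ∑ i, (ball (w i) R).indicator (rad (w i)) x))
      = fun x => (Fintype.card ι : ℝ)⁻¹ * ∑ i, inner ℝ (gradient φ x) ((ball (w i) R).indicator (rad (w i)) x) := by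
    funext x; rw [real_inner_smul_right, inner_sum]
  rw [this, integral_const_mul, integral_finsetSum _ fun i _ => term_integrable hφ (w i) R]
  simp_rw [term_integral hφ (w _) hR]
  rw [← Finset.mul_sum]
  ring

lemma Pf_measurable (w : ι → ℂ) (R : ℝ) : Measurable (Pf w R) := (Pf_LL w R).continuous.measurable

/-- **The Dirichlet form against a truncated potential.** -/
theorem Bf_pot {φ : ℂ → ℝ} (hφ : LocallyLipschitz φ) (w : ι → ℂ) {R τ : ℝ} (hR : 0 ≤ R) (hτ : 0 < τ) :
    Bf φ (pot w R τ) = 2 * π * ((Fintype.card ι : ℝ)⁻¹ * ∑ i, (φ (w i) - circleAverage φ (w i) R))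
      + ∫ x in {x | Pf w R x ≤ τ}, inner ℝ (gradient φ x) (Fld w R x) := by
  have hms : MeasurableSet {x | Pf w R x ≤ τ} := measurableSet_le (Pf_measurable w R) measurable_const
  have hms2 : MeasurableSet {x | τ < Pf w R x} := measurableSet_lt measurable_const (Pf_measurable w R)
  have h1 : Bf φ (pot w R τ) = ∫ x, {x | τ < Pf w R x}.indicator (fun x => - inner ℝ (gradient φ x) (Fld w R x)) x := by
    unfold Bf
    apply integral_congr_ae
    filter_upwards [gradient_pot w R hτ] with x hx
    rw [hx]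
    by_cases h : x ∈ {x | τ < Pf w R x}
    · rw [indicator_of_mem h, indicator_of_mem h, inner_neg_right]
    · rw [indicator_of_notMem h, indicator_of_notMem h, inner_zero_right]
  rw [h1, integral_indicator hms2, integral_neg]
  have h2 := integral_add_compl hms (Fld_integrable hφ w R)
  have h3 : {x | Pf w R x ≤ τ}ᶜ = {x | τ < Pf w R x} := by
    ext x; simp
  rw [h3, Fld_integral hφ w hR] at h2
  have h4 : ∑ i, (φ (w i) - circleAverage φ (w i) R) = - ∑ i, (circleAverage φ (w i) R - φ (w i)) := by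
    rw [← Finset.sum_neg_distrib]; congr 1; funext i; ring
  rw [h4]
  linarith

end

/-- one-point version -/
theorem Bf_one {φ : ℂ → ℝ} (hφ : LocallyLipschitz φ) (w : ℂ) {R τ : ℝ} (hτ : 0 < τ) (hτR : τ < R) :
    Bf φ (pot (fun _ : Unit => w) R τ) = 2 * π * (circleAverage φ w τ - circleAverage φ w R) := by
  have h := radial_integral hφ w hτ.le hτR.le
  have h1 : Bf φ (pot (fun _ : Unit => w) R τ) = ∫ x, (ann w τ R).indicator (fun x => - inner ℝ (gradient φ x) (rad w x)) x := by
    unfold Bf
    apply integral_congr_ae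
    filter_upwards [gradient_pot (fun _ : Unit => w) R hτ] with x hx
    rw [hx]
    have hP : Pf (fun _ : Unit => w) R x = min R ‖x - w‖ := by simp [Pf]
    have hF : Fld (fun _ : Unit => w) R x = (ball w R).indicator (rad w) x := by simp [Fld]
    by_cases h : x ∈ ann w τ R
    · rw [indicator_of_mem h, indicator_of_mem, inner_neg_right, hF, indicator_of_mem]
      · rw [mem_ball, dist_eq_norm]; exact h.2
      · show τ < Pf (fun _ : Unit => w) R x
        rw [hP]; exact lt_min hτR h.1
    · rw [indicator_of_notMem h]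
      by_cases h2 : τ < Pf (fun _ : Unit => w) R x
      · rw [indicator_of_mem (by exact h2), hF, indicator_of_notMem]
        · simp
        · rw [hP] at h2
          intro h3
          rw [mem_ball, dist_eq_norm] at h3
          exact h ⟨lt_of_lt_of_le h2 (min_le_right _ _), h3⟩
      · rw [indicator_of_notMem (by exact h2), inner_zero_right]
  rw [h1, integral_indicator (ann_measurable w τ R), integral_neg, h]
  ring


/-! ### Compactly supported locally Lipschitz functions -/

/-- locally Lipschitz and vanishing outside a disc -/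
def CS (ψ : ℂ → ℝ) : Prop := LocallyLipschitz ψ ∧ ∃ R0 : ℝ, ∀ x, R0 ≤ ‖x‖ → ψ x = 0

lemma CS.add {f g : ℂ → ℝ} (hf : CS f) (hg : CS g) : CS (fun x => f x + g x) := by
  obtain ⟨h1, R1, h2⟩ := hf
  obtain ⟨h3, R2, h4⟩ := hg
  refine ⟨LL_add h1 h3, max R1 R2, fun x hx => ?_⟩
  simp only
  rw [h2 x ((le_max_left _ _).trans hx), h4 x ((le_max_right _ _).trans hx), add_zero]

lemma CS.const_mul {f : ℂ → ℝ} (c : ℝ) (hf : CS f) : CS (fun x => c * f x) := by
  obtain ⟨h1, R1, h2⟩ := hf
  exact ⟨LL_const_mul c h1, R1, fun x hx => by simp only; rw [h2 x hx, mul_zero]⟩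

lemma CS.mul {f g : ℂ → ℝ} (hf : LocallyLipschitz f) (hg : CS g) : CS (fun x => f x * g x) := by
  obtain ⟨h1, R1, h2⟩ := hg
  exact ⟨LL_mul hf h1, R1, fun x hx => by simp only; rw [h2 x hx, mul_zero]⟩

lemma CS.sum {ι : Type*} (s : Finset ι) {f : ι → ℂ → ℝ} (hf : ∀ i ∈ s, CS (f i)) :
    CS (fun x => ∑ i ∈ s, f i x) := by
  classical
  induction s using Finset.induction_on with
  | empty => exact ⟨by simpa using LocallyLipschitz.const (0:ℝ), 0, fun x _ => by simp⟩
  | insert i s his ih =>
    simp only [Finset.sum_insert his]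
    exact (hf i (Finset.mem_insert_self _ _)).add
      (ih fun j hj => hf j (Finset.mem_insert_of_mem hj))

lemma pot_CS {ι : Type*} [Fintype ι] [Nonempty ι] (w : ι → ℂ) {R τ : ℝ} (hτ : 0 < τ)
    (hτR : τ ≤ R ^ Fintype.card ι) : CS (pot w R τ) := by
  refine ⟨pot_LL w R hτ, R + ∑ i, ‖w i‖, fun x hx => pot_eq_zero w hτR fun i => ?_⟩
  have h1 : ‖w i‖ ≤ ∑ i, ‖w i‖ := Finset.single_le_sum (fun j _ => norm_nonneg (w j)) (Finset.mem_univ i)
  have h2 : ‖x‖ - ‖w i‖ ≤ ‖x - w i‖ := norm_sub_norm_le x (w i)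
  linarith

lemma CS.bound {ψ : ℂ → ℝ} (hψ : CS ψ) : ∃ R0 K : ℝ, 0 ≤ K ∧ ∀ x, ‖gradient ψ x‖ ≤ (closedBall (0:ℂ) R0).indicator (fun _ => K) x := by
  obtain ⟨h1, R1, h2⟩ := hψ
  obtain ⟨K, hK⟩ := exists_lip h1 0 (R1 + 1)
  refine ⟨R1, K, K.2, fun x => ?_⟩
  by_cases hx : x ∈ closedBall (0:ℂ) R1
  · rw [indicator_of_mem hx]
    apply norm_grad_le hK
    rw [mem_closedBall, dist_zero_right] at hx
    rw [sub_zero]; linarith
  · rw [indicator_of_notMem hx]
    rw [mem_closedBall, dist_zero_right, not_le] at hx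
    have : ψ =ᶠ[𝓝 x] fun _ => 0 := by
      filter_upwards [continuous_norm.continuousAt.eventually_const_lt hx] with y hy
      exact h2 y hy.le
    rw [gradient_congr this, gradient_const', norm_zero]

lemma inner_integrable {φ ψ : ℂ → ℝ} (hφ : LocallyLipschitz φ) (hψ : CS ψ) :
    Integrable (fun x => inner ℝ (gradient φ x) (gradient ψ x)) := by
  obtain ⟨R0, K, hK0, hK⟩ := hψ.bound
  obtain ⟨L, hL⟩ := exists_lip hφ 0 (R0 + 1)
  have h1 : Integrable ((closedBall (0:ℂ) R0).indicator fun _ : ℂ => (L:ℝ) * K) :=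
    (integrable_indicator_iff measurableSet_closedBall).mpr
      (integrableOn_const (measure_closedBall_lt_top.ne) (by exact enorm_ne_top))
  refine Integrable.mono' h1 ((measurable_grad φ).inner (measurable_grad ψ)).aestronglyMeasurable ?_
  refine Eventually.of_forall fun x => ?_
  refine (norm_inner_le_norm _ _).trans ?_
  have h2 := hK x
  by_cases hx : x ∈ closedBall (0:ℂ) R0
  · rw [indicator_of_mem hx] at h2 ⊢
    have h3 : ‖gradient φ x‖ ≤ L := by
      apply norm_grad_le hL
      rw [mem_closedBall, dist_zero_right] at hx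
      rw [sub_zero]; linarith
    gcongr
  · rw [indicator_of_notMem hx] at h2 ⊢
    have : ‖gradient ψ x‖ = 0 := le_antisymm h2 (norm_nonneg _)
    rw [this, mul_zero]

lemma gradient_add' {f g : ℂ → ℝ} (hf : LocallyLipschitz f) (hg : LocallyLipschitz g) :
    ∀ᵐ x : ℂ, gradient (fun x => f x + g x) x = gradient f x + gradient g x := by
  filter_upwards [ae_diff hf, ae_diff hg] with x h1 h2
  unfold gradient
  rw [fderiv_fun_add h1 h2, map_add]

lemma gradient_const_mul' {f : ℂ → ℝ} (c : ℝ) (hf : LocallyLipschitz f) :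
    ∀ᵐ x : ℂ, gradient (fun x => c * f x) x = c • gradient f x := by
  filter_upwards [ae_diff hf] with x h1
  unfold gradient
  rw [fderiv_const_mul h1, map_smul]

lemma gradient_mul' {f g : ℂ → ℝ} (hf : LocallyLipschitz f) (hg : LocallyLipschitz g) :
    ∀ᵐ x : ℂ, gradient (fun x => f x * g x) x = f x • gradient g x + g x • gradient f x := by
  filter_upwards [ae_diff hf, ae_diff hg] with x h1 h2
  unfold gradient
  rw [fderiv_fun_mul h1 h2, map_add, map_smul, map_smul]

lemma Bf_add_right {φ f g : ℂ → ℝ} (hφ : LocallyLipschitz φ) (hf : CS f) (hg : CS g) :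
    Bf φ (fun x => f x + g x) = Bf φ f + Bf φ g := by
  unfold Bf
  rw [← integral_add (inner_integrable hφ hf) (inner_integrable hφ hg)]
  apply integral_congr_ae
  filter_upwards [gradient_add' hf.1 hg.1] with x hx
  rw [hx, inner_add_right]

lemma Bf_const_mul_right {φ f : ℂ → ℝ} (c : ℝ) (hf : LocallyLipschitz f) :
    Bf φ (fun x => c * f x) = c * Bf φ f := by
  unfold Bf
  rw [← integral_const_mul]
  apply integral_congr_ae
  filter_upwards [gradient_const_mul' c hf] with x hx
  rw [hx, real_inner_smul_right]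

lemma Bf_sum_right {ι : Type*} (s : Finset ι) {φ : ℂ → ℝ} {f : ι → ℂ → ℝ} (hφ : LocallyLipschitz φ)
    (hf : ∀ i ∈ s, CS (f i)) : Bf φ (fun x => ∑ i ∈ s, f i x) = ∑ i ∈ s, Bf φ (f i) := by
  classical
  induction s using Finset.induction_on with
  | empty =>
    simp only [Finset.sum_empty]
    unfold Bf
    have : ∀ x : ℂ, gradient (fun _ : ℂ => (0:ℝ)) x = 0 := gradient_const' 0
    simp [this]
  | insert i s his ih =>
    simp only [Finset.sum_insert his]
    rw [Bf_add_right hφ (hf i (Finset.mem_insert_self _ _))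
      (CS.sum s fun j hj => hf j (Finset.mem_insert_of_mem hj)),
      ih fun j hj => hf j (Finset.mem_insert_of_mem hj)]

/-- the basic lower bound -/
theorem energy_lower {u g : ℂ → ℝ} (hu : LocallyLipschitz u) (hg : CS g)
    (hi : Integrable fun x => ‖gradient u x‖ ^ 2) :
    2 * Bf u g - Bf g g ≤ ∫ x, ‖gradient u x‖ ^ 2 := by
  have h1 := inner_integrable hu hg
  have h2 := inner_integrable hg.1 hg
  unfold Bf
  rw [← integral_const_mul, ← integral_sub (h1.const_mul 2) h2]
  apply integral_mono ((h1.const_mul 2).sub h2) hi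
  intro x
  simp only [Pi.sub_apply]
  have h := sq_nonneg ‖gradient u x - gradient g x‖
  rw [norm_sub_sq_real] at h
  rw [real_inner_self_eq_norm_sq]
  linarith

end Pool.Agent.Helper828.Cap
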