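import Pool.Agent.Helper828.CapC

/-! Lower bound for the capacity. -/

namespace Pool.Agent.Helper828.Cap

open Set Filter Topology MeasureTheory Metric Real

/-- the potential of a single point -/
noncomputable abbrev pp (v : ℂ) (R ε : ℝ) : ℂ → ℝ := pot (fun _ : Unit => v) R ε

lemma pp_eq (v : ℂ) (R ε : ℝ) (x : ℂ) : pp v R ε x = Real.log R - Real.log (max ε (min R ‖x - v‖)) := by
  simp [pot, Pf]

lemma LL_ci {f : ℂ → ℝ} (hf : LocallyLipschitz f) (w : ℂ) (r : ℝ) : CircleIntegrable f w r :=
  (hf.continuous.comp (continuous_circleMap w r)).intervalIntegrable _ _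

lemma pp_LL (v : ℂ) (R : ℝ) {ε : ℝ} (hε : 0 < ε) : LocallyLipschitz (pp v R ε) := pot_LL _ _ hε

lemma pp_CS (v : ℂ) {R : ℝ} {ε : ℝ} (hε : 0 < ε) (hR : ε ≤ R) : CS (pp v R ε) :=
  pot_CS _ hε (by simpa using hR)

lemma pp_nonneg (v : ℂ) {R ε : ℝ} (hε : 0 < ε) (hR : ε ≤ R) (x : ℂ) : 0 ≤ pp v R ε x :=
  pot_nonneg _ (lt_of_lt_of_le hε hR) hε (by simpa using hR) x

lemma avg_self (w : ℂ) {R ε : ℝ} (hε : 0 < ε) (hR : ε ≤ R) :
    circleAverage (pp w R ε) w ε = Real.log R - Real.log ε := by
  apply circleAverage_const_on_circle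
  intro x hx
  rw [mem_sphere, dist_eq_norm, abs_of_pos hε] at hx
  rw [pp_eq, hx, min_eq_right hR, max_self]

lemma ne_codiscrete (v : ℂ) (s : Set ℂ) : {x : ℂ | x ≠ v} ∈ codiscreteWithin s := by
  apply codiscreteWithin_iff_locallyFiniteComplementWithin.2
  intro z hz
  use Set.univ
  simp only [univ_mem, ne_eq, Set.univ_inter, true_and]
  apply Set.Subsingleton.finite
  intro z₁ hz₁ z₂ hz₂
  simp_all

lemma avg_other_le (v w : ℂ) {R ε : ℝ} (hε : 0 < ε) (hvw : v ≠ w) (hR : ‖w - v‖ + ε ≤ R) :
    circleAverage (pp v R ε) w ε ≤ Real.log R - Real.log ‖w - v‖ := by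
  classical
  have hvw' : 0 < ‖w - v‖ := norm_pos_iff.mpr (sub_ne_zero.mpr hvw.symm)
  set L : ℂ → ℝ := fun x => if x = v then Real.log ε else Real.log ‖x - v‖ with hL
  have hcong : (fun x : ℂ => Real.log ‖x - v‖) =ᶠ[codiscreteWithin (sphere w |ε|)] L := by
    filter_upwards [ne_codiscrete v (sphere w |ε|)] with x hx
    simp only [hL, if_neg hx]
  have hLi : CircleIntegrable L w ε :=
    CircleIntegrable.congr_codiscreteWithin hcong (circleIntegrable_log_norm_sub_const ε)
  have hLa : circleAverage L w ε = Real.log ε + posLog (ε⁻¹ * ‖w - v‖) := by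
    rw [← circleAverage_congr_codiscreteWithin hcong hε.ne']
    exact circleAverage_log_norm_sub_const_eq_log_radius_add_posLog hε.ne'
  have hge : Real.log ‖w - v‖ ≤ circleAverage L w ε := by
    rw [hLa]
    have h1 : Real.log (ε⁻¹ * ‖w - v‖) ≤ posLog (ε⁻¹ * ‖w - v‖) := le_max_right _ _
    rw [Real.log_mul (inv_ne_zero hε.ne') hvw'.ne', Real.log_inv] at h1
    linarith
  have h2 : circleAverage (pp v R ε) w ε ≤ circleAverage (fun x => Real.log R - L x) w ε := by
    apply circleAverage_mono (LL_ci (pp_LL v R hε) w ε)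
    · exact (circleIntegrable_const _ _ _).sub hLi
    · intro x hx
      rw [mem_sphere, dist_eq_norm, abs_of_pos hε] at hx
      have hxR : ‖x - v‖ ≤ R := by
        calc ‖x - v‖ = ‖(x - w) + (w - v)‖ := by congr 1; ring
          _ ≤ ‖x - w‖ + ‖w - v‖ := norm_add_le _ _
          _ ≤ R := by linarith
      rw [pp_eq, min_eq_right hxR]
      simp only [hL]
      split_ifs with h
      · have : Real.log ε ≤ Real.log (max ε ‖x - v‖) := Real.log_le_log hε (le_max_left _ _)
        linarith
      · have : Real.log ‖x - v‖ ≤ Real.log (max ε ‖x - v‖) :=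
          Real.log_le_log (norm_pos_iff.mpr (sub_ne_zero.mpr h)) (le_max_right _ _)
        linarith
  have h3 : circleAverage (fun x => Real.log R - L x) w ε = Real.log R - circleAverage L w ε := by
    rw [circleAverage_fun_sub (circleIntegrable_const _ _ _) hLi, circleAverage_const]
  linarith

lemma avg_other_eq (v w : ℂ) {R ε : ℝ} (hε : 0 < ε) (hvw : 2 * ε ≤ ‖w - v‖) (hR : ‖w - v‖ + ε ≤ R) :
    circleAverage (pp v R ε) w ε = Real.log R - Real.log ‖w - v‖ := by
  have hvw' : 0 < ‖w - v‖ := by linarith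
  have h1 : circleAverage (pp v R ε) w ε = circleAverage (fun x => Real.log R - Real.log ‖x - v‖) w ε := by
    apply circleAverage_congr_sphere
    intro x hx
    rw [mem_sphere, dist_eq_norm, abs_of_pos hε] at hx
    have hxR : ‖x - v‖ ≤ R := by
      calc ‖x - v‖ = ‖(x - w) + (w - v)‖ := by congr 1; ring
        _ ≤ ‖x - w‖ + ‖w - v‖ := norm_add_le _ _
        _ ≤ R := by linarith
    have hxε : ε ≤ ‖x - v‖ := by
      have : ‖w - v‖ ≤ ‖w - x‖ + ‖x - v‖ := norm_sub_le_norm_sub_add_norm_sub w x v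
      rw [norm_sub_rev w x] at this
      linarith
    simp only
    rw [pp_eq, min_eq_right hxR, max_eq_right hxε]
  rw [h1, circleAverage_fun_sub (circleIntegrable_const _ _ _) (circleIntegrable_log_norm_sub_const ε),
    circleAverage_const]
  have h2 := circleAverage_log_norm_sub_const_eq_log_radius_add_posLog (a := v) (c := w) hε.ne'
  rw [h2, posLog_eq_log (by
    rw [abs_of_nonneg (by positivity)]
    rw [le_inv_mul_iff₀ hε]
    linarith), Real.log_mul (inv_ne_zero hε.ne') hvw'.ne', Real.log_inv]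
  ring

lemma avg_far (v w : ℂ) {R ε d : ℝ} (hε : 0 < ε) (hd : ‖w - v‖ ≤ d) (hR : d + ε < R) :
    0 ≤ circleAverage (pp v R ε) w R ∧
      circleAverage (pp v R ε) w R ≤ Real.log R - Real.log (R - d) := by
  have hd0 : 0 ≤ d := (norm_nonneg _).trans hd
  have hRε : ε ≤ R := by linarith
  refine ⟨circleAverage_nonneg_of_nonneg fun x _ => pp_nonneg v hε hRε x, ?_⟩
  apply circleAverage_mono_on_of_le_circle (LL_ci (pp_LL v R hε) w R)
  intro x hx
  rw [mem_sphere, dist_eq_norm, abs_of_pos (by linarith)] at hx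
  rw [pp_eq]
  have h1 : R - d ≤ ‖x - v‖ := by
    have : ‖x - w‖ ≤ ‖x - v‖ + ‖v - w‖ := norm_sub_le_norm_sub_add_norm_sub x v w
    rw [norm_sub_rev v w] at this
    linarith
  have h2 : Real.log (R - d) ≤ Real.log (max ε (min R ‖x - v‖)) := by
    apply Real.log_le_log (by linarith)
    exact (le_min (by linarith) h1).trans (le_max_right _ _)
  linarith

/-- mutual energy -/
lemma Bf_pp (v w : ℂ) {R ε : ℝ} (hε : 0 < ε) (hR : ε < R) :
    Bf (pp v R ε) (pp w R ε) = 2 * π * (circleAverage (pp v R ε) w ε - circleAverage (pp v R ε) w R) :=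
  Bf_one (pp_LL v R hε) w hε hR


lemma avg_tendsto {u : ℂ → ℝ} (hu : LocallyLipschitz u) {c : ℝ} (hc : Tendsto u (cocompact ℂ) (𝓝 c)) (w : ℂ) :
    Tendsto (fun R : ℝ => circleAverage u w R) atTop (𝓝 c) := by
  rw [Metric.tendsto_nhds]
  intro η hη
  have h1 : ∀ᶠ x in cocompact ℂ, dist (u x) c < η / 2 := (Metric.tendsto_nhds.mp hc) (η / 2) (by positivity)
  rw [← Metric.cobounded_eq_cocompact] at h1
  have h2 := (hasBasis_cobounded_norm (E := ℂ)).eventually_iff.mp h1
  obtain ⟨R0, -, hR0⟩ := h2
  filter_upwards [eventually_gt_atTop (max 0 (R0 + ‖w‖))] with R hR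
  have hRpos : 0 < R := lt_of_le_of_lt (le_max_left _ _) hR
  have hb : ∀ x ∈ sphere w |R|, dist (u x) c < η / 2 := by
    intro x hx
    rw [mem_sphere, dist_eq_norm, abs_of_pos hRpos] at hx
    apply hR0
    show R0 ≤ ‖x‖
    have : ‖x - w‖ ≤ ‖x‖ + ‖w‖ := norm_sub_le _ _
    have := lt_of_le_of_lt (le_max_right _ _) hR
    linarith
  rw [Real.dist_eq]
  have h3 : circleAverage u w R ≤ c + η / 2 := by
    apply circleAverage_mono_on_of_le_circle (LL_ci hu w R)
    intro x hx
    have := hb x hx
    rw [Real.dist_eq, abs_lt] at this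
    linarith [this.2]
  have h4 : c - η / 2 ≤ circleAverage u w R := by
    rw [← circleAverage_const (c - η / 2) w R]
    apply circleAverage_mono (circleIntegrable_const _ _ _) (LL_ci hu w R)
    intro x hx
    have := hb x hx
    rw [Real.dist_eq, abs_lt] at this
    linarith [this.1]
  rw [abs_lt]
  constructor <;> linarith

lemma log_sub_tendsto (d : ℝ) : Tendsto (fun R : ℝ => Real.log R - Real.log (R - d)) atTop (𝓝 0) := by
  have h1 : Tendsto (fun R : ℝ => 1 - d / R) atTop (𝓝 (1 - 0)) :=
    tendsto_const_nhds.sub (tendsto_const_nhds.div_atTop tendsto_id)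
  rw [sub_zero] at h1
  have h2 := (h1.log one_ne_zero).neg
  rw [Real.log_one, neg_zero] at h2
  refine h2.congr' ?_
  filter_upwards [eventually_gt_atTop (max 0 d)] with R hR
  have hR0 : 0 < R := lt_of_le_of_lt (le_max_left _ _) hR
  have hRd : 0 < R - d := sub_pos.mpr (lt_of_le_of_lt (le_max_right _ _) hR)
  have : 1 - d / R = (R - d) / R := by field_simp
  rw [this, Real.log_div hRd.ne' hR0.ne']
  ring

/-- **Lower bound for the energy by finitely many charges.** -/
theorem LB_core {A : Type*} [Fintype A] [DecidableEq A] (x : A → ℂ) (q : A → ℝ) {ε : ℝ} (hε : 0 < ε)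
    (hq : ∑ α, q α = 0)
    (hx : ∀ α β, α ≠ β → x α ≠ x β ∧ (0 ≤ q α * q β ∨ 2 * ε ≤ ‖x α - x β‖))
    {u : ℂ → ℝ} (hu : LocallyLipschitz u) {c : ℝ} (hc : Tendsto u (cocompact ℂ) (𝓝 c))
    (hi : Integrable fun x => ‖gradient u x‖ ^ 2) :
    4 * π * ∑ α, q α * circleAverage u (x α) ε
      + 2 * π * ∑ α, ∑ β, q α * q β * (if α = β then Real.log ε else Real.log ‖x α - x β‖)
      ≤ ∫ x, ‖gradient u x‖ ^ 2 := by
  set d : ℝ := ∑ α, ∑ β, ‖x α - x β‖ with hd
  have hdle : ∀ α β, ‖x α - x β‖ ≤ d := by
    intro α β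
    calc ‖x α - x β‖ ≤ ∑ β, ‖x α - x β‖ :=
          Finset.single_le_sum (f := fun β => ‖x α - x β‖) (fun _ _ => norm_nonneg _) (Finset.mem_univ β)
      _ ≤ d := Finset.single_le_sum (f := fun α => ∑ β, ‖x α - x β‖)
          (fun _ _ => Finset.sum_nonneg fun _ _ => norm_nonneg _) (Finset.mem_univ α)
  have hd0 : 0 ≤ d := Finset.sum_nonneg fun _ _ => Finset.sum_nonneg fun _ _ => norm_nonneg _
  have key : ∀ᶠ R : ℝ in atTop,
      4 * π * ∑ α, q α * (circleAverage u (x α) ε - circleAverage u (x α) R)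
      + 2 * π * ∑ α, ∑ β, q α * q β * (if α = β then Real.log ε else Real.log ‖x α - x β‖)
      - 2 * π * (∑ α, ∑ β, |q α * q β|) * (Real.log R - Real.log (R - d))
      ≤ ∫ x, ‖gradient u x‖ ^ 2 := by
    filter_upwards [eventually_gt_atTop (d + ε)] with R hR
    have hRε : ε < R := by linarith
    have hcs : ∀ α, CS (fun y => q α * pp (x α) R ε y) := fun α => (pp_CS (x α) hε hRε.le).const_mul _
    have hg : CS (fun y => ∑ α, q α * pp (x α) R ε y) := CS.sum _ fun α _ => hcs α
    have h1 := energy_lower hu hg hi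
    have h2 : Bf u (fun y => ∑ α, q α * pp (x α) R ε y)
        = 2 * π * ∑ α, q α * (circleAverage u (x α) ε - circleAverage u (x α) R) := by
      rw [Bf_sum_right _ hu fun α _ => hcs α, Finset.mul_sum]
      refine Finset.sum_congr rfl fun α _ => ?_
      rw [Bf_const_mul_right _ (pp_LL _ _ hε), Bf_one hu _ hε hRε]
      ring
    have h3 : Bf (fun y => ∑ α, q α * pp (x α) R ε y) (fun y => ∑ α, q α * pp (x α) R ε y)
        = ∑ β, ∑ α, q α * q β * Bf (pp (x α) R ε) (pp (x β) R ε) := by
      rw [Bf_sum_right _ hg.1 fun α _ => hcs α]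
      refine Finset.sum_congr rfl fun β _ => ?_
      rw [Bf_const_mul_right _ (pp_LL _ _ hε), Bf_comm, Bf_sum_right _ (pp_LL _ _ hε) fun α _ => hcs α,
        Finset.mul_sum]
      refine Finset.sum_congr rfl fun α _ => ?_
      rw [Bf_const_mul_right _ (pp_LL _ _ hε), Bf_comm]
      ring
    have h4 : ∀ α β, q α * q β * Bf (pp (x α) R ε) (pp (x β) R ε) ≤
        2 * π * (q α * q β * Real.log R - q α * q β * (if α = β then Real.log ε else Real.log ‖x α - x β‖)
          + |q α * q β| * (Real.log R - Real.log (R - d))) := by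
      intro α β
      rw [Bf_pp _ _ hε hRε]
      have hdd : ‖x β - x α‖ ≤ d := hdle β α
      obtain ⟨hf1, hf2⟩ := avg_far (x α) (x β) hε hdd hR
      have hfar : -(q α * q β) * circleAverage (pp (x α) R ε) (x β) R ≤
          |q α * q β| * (Real.log R - Real.log (R - d)) := by
        calc -(q α * q β) * circleAverage (pp (x α) R ε) (x β) R
            ≤ |q α * q β| * circleAverage (pp (x α) R ε) (x β) R :=
              mul_le_mul_of_nonneg_right (neg_le_abs _) hf1
          _ ≤ _ := mul_le_mul_of_nonneg_left hf2 (abs_nonneg _)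
      have hnear : q α * q β * circleAverage (pp (x α) R ε) (x β) ε ≤
          q α * q β * Real.log R - q α * q β * (if α = β then Real.log ε else Real.log ‖x α - x β‖) := by
        by_cases hαβ : α = β
        · subst hαβ
          rw [avg_self _ hε hRε.le, if_pos rfl]
          apply le_of_eq; ring
        · rw [if_neg hαβ]
          obtain ⟨hne, hor⟩ := hx α β hαβ
          rcases hor with h | h
          · have := avg_other_le (x α) (x β) (R := R) hε hne (by linarith)
            have h5 := mul_le_mul_of_nonneg_left this h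
            rw [norm_sub_rev (x β) (x α)] at h5
            linarith
          · have := avg_other_eq (x α) (x β) (R := R) hε (by rwa [norm_sub_rev]) (by linarith)
            rw [this, norm_sub_rev (x β) (x α)]
            apply le_of_eq; ring
      have h2π : 0 < 2 * π := by positivity
      have : q α * q β * (circleAverage (pp (x α) R ε) (x β) ε - circleAverage (pp (x α) R ε) (x β) R)
        ≤ (q α * q β * Real.log R - q α * q β * (if α = β then Real.log ε else Real.log ‖x α - x β‖)
          + |q α * q β| * (Real.log R - Real.log (R - d))) := by linarith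
      calc q α * q β * (2 * π * (circleAverage (pp (x α) R ε) (x β) ε - circleAverage (pp (x α) R ε) (x β) R))
          = 2 * π * (q α * q β * (circleAverage (pp (x α) R ε) (x β) ε - circleAverage (pp (x α) R ε) (x β) R)) := by ring
        _ ≤ _ := mul_le_mul_of_nonneg_left this h2π.le
    have h5 : ∑ β, ∑ α, q α * q β * Bf (pp (x α) R ε) (pp (x β) R ε) ≤
        2 * π * (0 - ∑ α, ∑ β, q α * q β * (if α = β then Real.log ε else Real.log ‖x α - x β‖)
          + (∑ α, ∑ β, |q α * q β|) * (Real.log R - Real.log (R - d))) := by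
      rw [Finset.sum_comm]
      calc ∑ α, ∑ β, q α * q β * Bf (pp (x α) R ε) (pp (x β) R ε)
          ≤ ∑ α, ∑ β, 2 * π * (q α * q β * Real.log R - q α * q β * (if α = β then Real.log ε else Real.log ‖x α - x β‖)
          + |q α * q β| * (Real.log R - Real.log (R - d))) :=
            Finset.sum_le_sum fun α _ => Finset.sum_le_sum fun β _ => h4 α β
        _ = 2 * π * ((∑ α, ∑ β, q α * q β * Real.log R) - ∑ α, ∑ β, q α * q β * (if α = β then Real.log ε else Real.log ‖x α - x β‖)
          + (∑ α, ∑ β, |q α * q β|) * (Real.log R - Real.log (R - d))) := by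
            simp only [← Finset.mul_sum, Finset.sum_add_distrib, Finset.sum_sub_distrib, Finset.sum_mul]
        _ = _ := by
            have : ∑ α, ∑ β, q α * q β * Real.log R = 0 := by
              simp only [← Finset.sum_mul, ← Finset.mul_sum]
              rw [hq]; ring
            rw [this]
    rw [h2, h3] at h1
    have h6 : 2 * (2 * π * ∑ α, q α * (circleAverage u (x α) ε - circleAverage u (x α) R))
      = 4 * π * ∑ α, q α * (circleAverage u (x α) ε - circleAverage u (x α) R) := by ring
    rw [h6] at h1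
    linarith
  have hlim : Tendsto (fun R : ℝ => 4 * π * ∑ α, q α * (circleAverage u (x α) ε - circleAverage u (x α) R)
      + 2 * π * ∑ α, ∑ β, q α * q β * (if α = β then Real.log ε else Real.log ‖x α - x β‖)
      - 2 * π * (∑ α, ∑ β, |q α * q β|) * (Real.log R - Real.log (R - d))) atTop
      (𝓝 (4 * π * ∑ α, q α * (circleAverage u (x α) ε - c)
      + 2 * π * ∑ α, ∑ β, q α * q β * (if α = β then Real.log ε else Real.log ‖x α - x β‖)
      - 2 * π * (∑ α, ∑ β, |q α * q β|) * 0)) := by
    apply Tendsto.sub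
    · apply Tendsto.add_const
      apply Tendsto.const_mul
      apply tendsto_finsetSum
      intro α _
      exact (tendsto_const_nhds.sub (avg_tendsto hu hc (x α))).const_mul _
    · exact (log_sub_tendsto d).const_mul _
  have h7 := le_of_tendsto hlim key
  have h8 : ∑ α, q α * (circleAverage u (x α) ε - c) = ∑ α, q α * circleAverage u (x α) ε := by
    simp only [mul_sub, Finset.sum_sub_distrib, ← Finset.sum_mul]
    rw [hq]; ring
  rw [h8, mul_zero, sub_zero] at h7
  exact h7

end Pool.Agent.Helper828.Cap
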