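import Pool.Agent.Helper828.CapD

/-! Lower bound for the capacity: passing to the transfinite diameter. -/

namespace Pool.Agent.Helper828.Cap

open Set Filter Topology MeasureTheory Metric Real

/-- Vandermonde-type product -/
noncomputable def VV {M : ℕ} (w : Fin M → ℂ) : ℝ := ∏ i, ∏ j ∈ Finset.Ioi i, ‖w i - w j‖

lemma sum_offdiag {M : ℕ} (f : Fin M → Fin M → ℝ) (hs : ∀ i j, f i j = f j i) :
    ∑ i, ∑ j, (if i = j then 0 else f i j) = 2 * ∑ i, ∑ j ∈ Finset.Ioi i, f i j := by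
  have h1 : ∀ i, ∑ j, (if i = j then 0 else f i j) = ∑ j ∈ Finset.Ioi i, f i j + ∑ j ∈ Finset.Iio i, f i j := by
    intro i
    have hu : (Finset.univ : Finset (Fin M)) = insert i (Finset.Ioi i ∪ Finset.Iio i) := by
      ext j
      simp only [Finset.mem_univ, Finset.mem_insert, Finset.mem_union, Finset.mem_Ioi, Finset.mem_Iio, true_iff]
      rcases lt_trichotomy i j with h | h | h
      · exact Or.inr (Or.inl h)
      · exact Or.inl h.symm
      · exact Or.inr (Or.inr h)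
    rw [hu, Finset.sum_insert (by simp), if_pos rfl, zero_add, Finset.sum_union]
    · congr 1
      · refine Finset.sum_congr rfl fun j hj => ?_
        rw [if_neg (Finset.mem_Ioi.mp hj).ne]
      · refine Finset.sum_congr rfl fun j hj => ?_
        rw [if_neg (Finset.mem_Iio.mp hj).ne']
    · rw [Finset.disjoint_left]
      intro j hj hj2
      exact lt_asymm (Finset.mem_Ioi.mp hj) (Finset.mem_Iio.mp hj2)
  simp only [h1, Finset.sum_add_distrib]
  have h2 : ∑ i, ∑ j ∈ Finset.Iio i, f i j = ∑ i, ∑ j ∈ Finset.Ioi i, f i j := by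
    rw [Finset.sum_comm' (t' := Finset.univ) (s' := fun j => Finset.Ioi j)]
    · refine Finset.sum_congr rfl fun i _ => Finset.sum_congr rfl fun j _ => hs j i
    · intro i j; simp
  rw [h2]; ring

lemma log_VV {M : ℕ} {w : Fin M → ℂ} (hw : VV w ≠ 0) :
    ∑ i, ∑ j, (if i = j then 0 else Real.log ‖w i - w j‖) = 2 * Real.log (VV w) := by
  rw [sum_offdiag (fun i j => Real.log ‖w i - w j‖) fun i j => by rw [norm_sub_rev]]
  congr 1
  unfold VV at hw ⊢
  have h0 : ∀ i, ∏ j ∈ Finset.Ioi i, ‖w i - w j‖ ≠ 0 := fun i =>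
    Finset.prod_ne_zero_iff.mp hw i (Finset.mem_univ i)
  rw [Real.log_prod fun i _ => h0 i]
  refine Finset.sum_congr rfl fun i _ => ?_
  rw [Real.log_prod fun j hj => Finset.prod_ne_zero_iff.mp (h0 i) j hj]

lemma VV_inj {M : ℕ} {w : Fin M → ℂ} (hw : VV w ≠ 0) {i j : Fin M} (hij : i ≠ j) : w i ≠ w j := by
  unfold VV at hw
  have key : ∀ i j : Fin M, i < j → w i ≠ w j := by
    intro i j h heq
    have h0 := Finset.prod_ne_zero_iff.mp hw i (Finset.mem_univ i)
    have h1 := Finset.prod_ne_zero_iff.mp h0 j (Finset.mem_Ioi.mpr h)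
    rw [heq] at h1; simp at h1
  rcases lt_or_gt_of_ne hij with h | h
  · exact key i j h
  · exact (key j i h).symm

theorem LB_fix {n : ℕ} {M : ℕ} (hM : 0 < M) (w : Fin n → Fin M → ℂ) (Q δ : Fin n → ℝ)
    (hQ : ∑ k, Q k = 0) (c' : Fin n → ℝ) (hV : ∀ k, VV (w k) ≠ 0)
    (hV2 : ∀ k, (M:ℝ) * (M - 1) * Real.log (c' k) ≤ 2 * Real.log (VV (w k)))
    (C : Fin n → Fin n → ℝ) {κ ε K : ℝ} (hε : 0 < ε)
    (hC : ∀ k l, k ≠ l → ∀ i j, |Real.log ‖w k i - w l j‖ - C k l| ≤ κ)
    (hsep : ∀ k l, k ≠ l → ∀ i j, 2 * ε ≤ ‖w k i - w l j‖)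
    {u : ℂ → ℝ} (hu : LocallyLipschitz u) {c : ℝ} (hc : Tendsto u (cocompact ℂ) (𝓝 c))
    (hi : Integrable fun x => ‖gradient u x‖ ^ 2)
    (havg : ∀ k i, |circleAverage u (w k i) ε - δ k| ≤ K * ε) :
    4 * π * ∑ k, Q k * δ k - 4 * π * (∑ k, |Q k|) * (K * ε)
      + 2 * π * (∑ k, Q k ^ 2 * ((M:ℝ)⁻¹ * Real.log ε + (1 - (M:ℝ)⁻¹) * Real.log (c' k))
        + ∑ k, ∑ l ∈ Finset.univ.erase k, Q k * Q l * C k l
        - κ * (∑ k, ∑ l ∈ Finset.univ.erase k, |Q k * Q l|)) ≤ ∫ x, ‖gradient u x‖ ^ 2 := by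
  have hM0 : (0:ℝ) < M := by exact_mod_cast hM
  have hsumM : ∀ a : ℝ, ∑ _i : Fin M, a / M = a := by
    intro a
    rw [Finset.sum_const, Finset.card_univ, Fintype.card_fin, nsmul_eq_mul]
    field_simp
  have h1 := LB_core (A := Fin n × Fin M) (fun α => w α.1 α.2) (fun α => Q α.1 / M) hε
    (by
      rw [Fintype.sum_prod_type]
      simp only [hsumM]
      exact hQ)
    (by
      rintro ⟨k, i⟩ ⟨l, j⟩ hne
      by_cases hkl : k = l
      · subst hkl
        have hij : i ≠ j := fun h => hne (by rw [h])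
        exact ⟨VV_inj (hV k) hij, Or.inl (mul_self_nonneg _)⟩
      · have h2 := hsep k l hkl i j
        refine ⟨fun h => ?_, Or.inr h2⟩
        simp only at h
        rw [h] at h2
        simp at h2
        linarith) hu hc hi
  refine le_trans ?_ h1
  have h2 : 4 * π * ∑ k, Q k * δ k - 4 * π * (∑ k, |Q k|) * (K * ε) ≤
      4 * π * ∑ α : Fin n × Fin M, Q α.1 / M * circleAverage u (w α.1 α.2) ε := by
    have h3 : ∑ k, Q k * δ k - (∑ k, |Q k|) * (K * ε) ≤
        ∑ α : Fin n × Fin M, Q α.1 / M * circleAverage u (w α.1 α.2) ε := by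
      rw [Fintype.sum_prod_type, Finset.sum_mul, ← Finset.sum_sub_distrib]
      refine Finset.sum_le_sum fun k _ => ?_
      calc Q k * δ k - |Q k| * (K * ε) = ∑ _i : Fin M, (Q k * δ k - |Q k| * (K * ε)) / M := (hsumM _).symm
        _ ≤ ∑ i : Fin M, Q k / M * circleAverage u (w k i) ε := by
          refine Finset.sum_le_sum fun i _ => ?_
          rw [div_mul_eq_mul_div]
          apply div_le_div_of_nonneg_right _ hM0.le
          have h4 : -(Q k * (circleAverage u (w k i) ε - δ k)) ≤ |Q k| * (K * ε) := by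
            calc -(Q k * (circleAverage u (w k i) ε - δ k)) ≤ |Q k * (circleAverage u (w k i) ε - δ k)| := neg_le_abs _
              _ = |Q k| * |circleAverage u (w k i) ε - δ k| := abs_mul _ _
              _ ≤ _ := mul_le_mul_of_nonneg_left (havg k i) (abs_nonneg _)
          linarith
    have := mul_le_mul_of_nonneg_left h3 (show 0 ≤ 4 * π by positivity)
    linarith
  have h5 : (∑ k, Q k ^ 2 * ((M:ℝ)⁻¹ * Real.log ε + (1 - (M:ℝ)⁻¹) * Real.log (c' k))
        + ∑ k, ∑ l ∈ Finset.univ.erase k, Q k * Q l * C k l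
        - κ * (∑ k, ∑ l ∈ Finset.univ.erase k, |Q k * Q l|)) ≤
      ∑ α : Fin n × Fin M, ∑ β : Fin n × Fin M, Q α.1 / M * (Q β.1 / M) *
        (if α = β then Real.log ε else Real.log ‖w α.1 α.2 - w β.1 β.2‖) := by
    rw [Finset.mul_sum, ← Finset.sum_add_distrib, ← Finset.sum_sub_distrib, Fintype.sum_prod_type]
    refine Finset.sum_le_sum fun k _ => ?_
    simp only [Fintype.sum_prod_type]
    rw [Finset.sum_comm, ← Finset.add_sum_erase _ _ (Finset.mem_univ k), add_sub_assoc, Finset.mul_sum,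
      ← Finset.sum_sub_distrib]
    apply add_le_add
    · -- diagonal block
      have e1 : ∀ i j : Fin M, Q k / M * (Q k / M) * (if (k, i) = (k, j) then Real.log ε else Real.log ‖w k i - w k j‖)
          = Q k ^ 2 / M ^ 2 * ((if i = j then Real.log ε else 0) + (if i = j then 0 else Real.log ‖w k i - w k j‖)) := by
        intro i j
        by_cases hij : i = j
        · subst hij
          rw [if_pos rfl, if_pos rfl, if_pos rfl]; ring
        · rw [if_neg (by simpa using hij), if_neg hij, if_neg hij]; ring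
      simp only [e1]
      rw [← Finset.sum_congr rfl fun i _ => Finset.mul_sum _ _ _, ← Finset.mul_sum]
      simp only [Finset.sum_add_distrib]
      rw [log_VV (hV k)]
      have e2 : ∑ i : Fin M, ∑ j : Fin M, (if i = j then Real.log ε else 0) = M * Real.log ε := by
        simp
      rw [e2]
      have e3 := hV2 k
      have e4 : 0 ≤ Q k ^ 2 / (M:ℝ) ^ 2 := by positivity
      have e5 := mul_le_mul_of_nonneg_left (add_le_add_right e3 (M * Real.log ε)) e4
      refine le_trans (le_of_eq ?_) e5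
      field_simp
    · refine Finset.sum_le_sum fun l hl => ?_
      have hlk : k ≠ l := (Finset.ne_of_mem_erase hl).symm
      calc Q k * Q l * C k l - κ * |Q k * Q l| = ∑ _i : Fin M, ∑ _j : Fin M, (Q k * Q l * C k l - κ * |Q k * Q l|) / M / M := by
            simp only [hsumM]
        _ ≤ _ := by
          refine Finset.sum_le_sum fun i _ => Finset.sum_le_sum fun j _ => ?_
          rw [if_neg (by simp [hlk])]
          have e1 : Q k / M * (Q l / M) * Real.log ‖w k i - w l j‖ = (Q k * Q l * Real.log ‖w k i - w l j‖) / M / M := by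
            ring
          rw [e1]
          apply div_le_div_of_nonneg_right _ hM0.le
          apply div_le_div_of_nonneg_right _ hM0.le
          have h4 : -(Q k * Q l * (Real.log ‖w k i - w l j‖ - C k l)) ≤ κ * |Q k * Q l| := by
            calc -(Q k * Q l * (Real.log ‖w k i - w l j‖ - C k l)) ≤ |Q k * Q l * (Real.log ‖w k i - w l j‖ - C k l)| := neg_le_abs _
              _ = |Q k * Q l| * |Real.log ‖w k i - w l j‖ - C k l| := abs_mul _ _
              _ ≤ |Q k * Q l| * κ := mul_le_mul_of_nonneg_left (hC k l hlk i j) (abs_nonneg _)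
              _ = _ := mul_comm _ _
          linarith
  have h6 := mul_le_mul_of_nonneg_left h5 (show 0 ≤ 2 * π by positivity)
  linarith


/-! ### transfinite diameter -/

noncomputable def tdm (E : Set ℂ) (m : ℕ) : ℝ :=
  ⨆ w : Fin (m+2) → E, (∏ i : Fin (m+2), ∏ j ∈ Finset.Ioi i, ‖(w i : ℂ) - (w j : ℂ)‖)
            ^ ((2:ℝ) / (((m:ℝ) + 2) * ((m:ℝ) + 1)))

noncomputable def td (E : Set ℂ) : ℝ := ⨅ m : ℕ, tdm E m

lemma VVE_nonneg {E : Set ℂ} {M : ℕ} (w : Fin M → E) :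
    0 ≤ ∏ i : Fin M, ∏ j ∈ Finset.Ioi i, ‖(w i : ℂ) - (w j : ℂ)‖ :=
  Finset.prod_nonneg fun _ _ => Finset.prod_nonneg fun _ _ => norm_nonneg _

lemma tdm_nonneg (E : Set ℂ) (m : ℕ) : 0 ≤ tdm E m :=
  Real.iSup_nonneg fun w => Real.rpow_nonneg (VVE_nonneg w) _

lemma td_le_tdm (E : Set ℂ) (m : ℕ) : td E ≤ tdm E m :=
  ciInf_le ⟨0, by rintro _ ⟨m, rfl⟩; exact tdm_nonneg E m⟩ m

lemma exists_tuple {E : Set ℂ} {c' : ℝ} (hc0 : 0 < c') (hc : c' < td E) (m : ℕ) :
    ∃ w : Fin (m+2) → ℂ, (∀ i, w i ∈ E) ∧ VV w ≠ 0 ∧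
      ((m+2 : ℕ) : ℝ) * (((m+2 : ℕ) : ℝ) - 1) * Real.log c' ≤ 2 * Real.log (VV w) := by
  have h1 : c' < tdm E m := lt_of_lt_of_le hc (td_le_tdm E m)
  have hne : Nonempty (Fin (m+2) → E) := by
    by_contra h
    rw [not_nonempty_iff] at h
    unfold tdm at h1
    rw [Real.iSup_of_isEmpty] at h1
    linarith
  obtain ⟨w, hw⟩ := exists_lt_of_lt_ciSup h1
  refine ⟨fun i => (w i : ℂ), fun i => (w i).2, ?_, ?_⟩
  · intro h0
    unfold VV at h0
    rw [h0] at hw
    rw [Real.zero_rpow (by positivity)] at hw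
    linarith
  · have hV0 : 0 ≤ VV (fun i => (w i : ℂ)) := VVE_nonneg w
    have hV : 0 < VV (fun i => (w i : ℂ)) := by
      rcases hV0.eq_or_lt with h | h
      · exfalso
        have : (0:ℝ) = ∏ i : Fin (m+2), ∏ j ∈ Finset.Ioi i, ‖(w i : ℂ) - (w j : ℂ)‖ := h
        rw [← this, Real.zero_rpow (by positivity)] at hw
        linarith
      · exact h
    have h2 : Real.log c' ≤ (2:ℝ) / (((m:ℝ) + 2) * ((m:ℝ) + 1)) * Real.log (VV (fun i => (w i : ℂ))) := by
      rw [← Real.log_rpow hV]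
      exact Real.log_le_log hc0 hw.le
    have h3 : (0:ℝ) < ((m:ℝ) + 2) * ((m:ℝ) + 1) := by positivity
    have h4 := mul_le_mul_of_nonneg_left h2 h3.le
    have h5 : ((m:ℝ) + 2) * ((m:ℝ) + 1) * ((2:ℝ) / (((m:ℝ) + 2) * ((m:ℝ) + 1)) * Real.log (VV (fun i => (w i : ℂ))))
      = 2 * Real.log (VV (fun i => (w i : ℂ))) := by
      field_simp
    rw [h5] at h4
    refine le_trans (le_of_eq ?_) h4
    push_cast; ring

lemma avg_close {u : ℂ → ℝ} (hu : LocallyLipschitz u) {K : NNReal} {B : ℝ}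
    (hK : LipschitzOnWith K u (closedBall 0 (B + 1))) {x : ℂ} (hx : ‖x‖ ≤ B) {ε : ℝ} (hε : 0 < ε)
    (hε1 : ε ≤ 1) : |circleAverage u x ε - u x| ≤ K * ε := by
  have hb : ∀ y ∈ sphere x |ε|, |u y - u x| ≤ K * ε := by
    intro y hy
    rw [mem_sphere, dist_eq_norm, abs_of_pos hε] at hy
    have hxm : x ∈ closedBall (0:ℂ) (B + 1) := by
      rw [mem_closedBall, dist_zero_right]; linarith
    have hym : y ∈ closedBall (0:ℂ) (B + 1) := by
      rw [mem_closedBall, dist_zero_right]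
      have : ‖y‖ ≤ ‖y - x‖ + ‖x‖ := by
        have := norm_add_le (y - x) x
        simpa using this
      linarith
    have := hK.dist_le_mul y hym x hxm
    rw [Real.dist_eq, dist_eq_norm, hy] at this
    exact this
  have h3 : circleAverage u x ε ≤ u x + K * ε := by
    apply circleAverage_mono_on_of_le_circle (LL_ci hu x ε)
    intro y hy
    have := (abs_le.mp (hb y hy)).2
    linarith
  have h4 : u x - K * ε ≤ circleAverage u x ε := by
    rw [← circleAverage_const (u x - K * ε) x ε]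
    apply circleAverage_mono (circleIntegrable_const _ _ _) (LL_ci hu x ε)
    intro y hy
    have := (abs_le.mp (hb y hy)).1
    linarith
  rw [abs_le]
  constructor <;> linarith

/-- **The lower bound.** -/
theorem LB {n : ℕ} (E : Fin n → Set ℂ) (Q δ : Fin n → ℝ) (hQ : ∑ k, Q k = 0)
    (hE0 : ∀ k, 0 < td (E k)) {B : ℝ} (hEb : ∀ k, ∀ x ∈ E k, ‖x‖ ≤ B)
    (C : Fin n → Fin n → ℝ) {κ s : ℝ} (hs : 0 < s)
    (hC : ∀ k l, k ≠ l → ∀ x ∈ E k, ∀ y ∈ E l, |Real.log ‖x - y‖ - C k l| ≤ κ)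
    (hsep : ∀ k l, k ≠ l → ∀ x ∈ E k, ∀ y ∈ E l, s ≤ ‖x - y‖)
    {u : ℂ → ℝ} (hu : LocallyLipschitz u) {c : ℝ} (hc : Tendsto u (cocompact ℂ) (𝓝 c))
    (hi : Integrable fun x => ‖gradient u x‖ ^ 2)
    (huE : ∀ k, ∀ x ∈ E k, u x = δ k) :
    4 * π * ∑ k, Q k * δ k
      + 2 * π * (∑ k, Q k ^ 2 * Real.log (td (E k))
        + ∑ k, ∑ l ∈ Finset.univ.erase k, Q k * Q l * C k l
        - κ * (∑ k, ∑ l ∈ Finset.univ.erase k, |Q k * Q l|)) ≤ ∫ x, ‖gradient u x‖ ^ 2 := by
  obtain ⟨K, hK⟩ := exists_lip hu 0 (B + 1)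
  set F : ℝ → ℝ := fun t => 4 * π * ∑ k, Q k * δ k - 4 * π * (∑ k, |Q k|) * (K * t)
      + 2 * π * (∑ k, Q k ^ 2 * (-(t * Real.log t) * (-1) + (1 - t) * (Real.log (td (E k)) - t))
        + ∑ k, ∑ l ∈ Finset.univ.erase k, Q k * Q l * C k l
        - κ * (∑ k, ∑ l ∈ Finset.univ.erase k, |Q k * Q l|)) with hF
  have hFc : Continuous F := by
    have h1 : Continuous fun t : ℝ => t * Real.log t := Real.continuous_mul_log
    rw [hF]
    fun_prop
  have hF0 : F 0 = 4 * π * ∑ k, Q k * δ k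
      + 2 * π * (∑ k, Q k ^ 2 * Real.log (td (E k))
        + ∑ k, ∑ l ∈ Finset.univ.erase k, Q k * Q l * C k l
        - κ * (∑ k, ∑ l ∈ Finset.univ.erase k, |Q k * Q l|)) := by
    simp [hF]
  have ht : Tendsto (fun m : ℕ => (((m + 2 : ℕ) : ℝ))⁻¹) atTop (𝓝 0) := by
    have h1 : Tendsto (fun m : ℕ => ((m + 2 : ℕ) : ℝ)) atTop atTop :=
      tendsto_natCast_atTop_atTop.comp (tendsto_add_atTop_nat 2)
    exact tendsto_inv_atTop_zero.comp h1
  have hlim := (hFc.tendsto 0).comp ht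
  rw [hF0] at hlim
  refine le_of_tendsto hlim ?_
  have hev : ∀ᶠ m : ℕ in atTop, (((m + 2 : ℕ) : ℝ))⁻¹ < s / 2 :=
    ht.eventually_lt_const (by positivity)
  filter_upwards [hev] with m hm
  set t : ℝ := (((m + 2 : ℕ) : ℝ))⁻¹ with htdef
  have hM0 : (0:ℝ) < ((m + 2 : ℕ) : ℝ) := by positivity
  have ht0 : 0 < t := inv_pos.mpr hM0
  have ht1 : t ≤ 1 := by
    apply inv_le_one_of_one_le₀
    push_cast
    have : (0:ℝ) ≤ m := by positivity
    linarith
  have hch : ∀ k, ∃ w : Fin (m+2) → ℂ, (∀ i, w i ∈ E k) ∧ VV w ≠ 0 ∧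
      ((m+2 : ℕ) : ℝ) * (((m+2 : ℕ) : ℝ) - 1) * Real.log (td (E k) * Real.exp (-t)) ≤ 2 * Real.log (VV w) := by
    intro k
    apply exists_tuple (mul_pos (hE0 k) (Real.exp_pos _))
    have : Real.exp (-t) < 1 := by rw [Real.exp_lt_one_iff]; linarith
    calc td (E k) * Real.exp (-t) < td (E k) * 1 := mul_lt_mul_of_pos_left this (hE0 k)
      _ = _ := mul_one _
  choose w hwE hwV hwL using hch
  have h1 := LB_fix (n := n) (M := m + 2) (by omega) w Q δ hQ (fun k => td (E k) * Real.exp (-t)) hwV hwL C ht0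
    (κ := κ) (K := K)
    (fun k l hkl i j => hC k l hkl _ (hwE k i) _ (hwE l j))
    (fun k l hkl i j => by
      have := hsep k l hkl _ (hwE k i) _ (hwE l j)
      linarith)
    hu hc hi
    (fun k i => by
      have h2 := avg_close hu hK (hEb k _ (hwE k i)) ht0 ht1
      rwa [huE k _ (hwE k i)] at h2)
  refine le_trans (le_of_eq ?_) h1
  simp only [hF, Function.comp]
  congr 3
  congr 1
  refine Finset.sum_congr rfl fun k _ => ?_
  rw [Real.log_mul (hE0 k).ne' (Real.exp_pos _).ne', Real.log_exp, ← htdef]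
  ring

end Pool.Agent.Helper828.Cap
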