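import Pool.Agent.Helper828.CapD2

/-! Upper bound: estimates for one truncated potential. -/

namespace Pool.Agent.Helper828.Cap

open Set Filter Topology MeasureTheory Metric Real

section single

variable {ι : Type*} [Fintype ι] [Nonempty ι] (w : ι → ℂ) (z : ℂ) {ρ R τ : ℝ}

omit [Nonempty ι] in
lemma Pf_ge_of_far (hw : ∀ i, ‖w i - z‖ < ρ) (hρR : ρ ≤ R) (hρ : 0 < ρ) {x : ℂ}
    (hx : 2 * ρ ≤ ‖x - z‖) : ρ ^ Fintype.card ι ≤ Pf w R x := by
  unfold Pf
  calc ρ ^ Fintype.card ι = ∏ _i : ι, ρ := by simp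
    _ ≤ _ := by
      refine Finset.prod_le_prod (fun _ _ => hρ.le) fun i _ => le_min hρR ?_
      have h1 : ‖x - z‖ ≤ ‖x - w i‖ + ‖w i - z‖ := norm_sub_le_norm_sub_add_norm_sub x (w i) z
      have h2 := hw i
      linarith

omit [Nonempty ι] in
lemma near_of_Pf_le (hw : ∀ i, ‖w i - z‖ < ρ) (hρR : ρ ≤ R) (hρ : 0 < ρ)
    (hτρ : τ < ρ ^ Fintype.card ι) {x : ℂ} (hx : Pf w R x ≤ τ) : ‖x - z‖ < 2 * ρ := by
  by_contra h
  have := Pf_ge_of_far w z hw hρR hρ (not_lt.mp h)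
  linarith

lemma pot_le_of_far (hw : ∀ i, ‖w i - z‖ < ρ) (hρR : ρ ≤ R) (hρ : 0 < ρ)
    {x : ℂ} (hx : 2 * ρ ≤ ‖x - z‖) :
    pot w R τ x ≤ Real.log R - Real.log ρ := by
  unfold pot
  have hN : (0:ℝ) < Fintype.card ι := by exact_mod_cast Fintype.card_pos
  have h1 := Pf_ge_of_far w z hw hρR hρ hx
  have h2 : Real.log (ρ ^ Fintype.card ι) ≤ Real.log (max τ (Pf w R x)) :=
    Real.log_le_log (by positivity) (h1.trans (le_max_right _ _))
  rw [Real.log_pow] at h2
  have h3 : Real.log ρ ≤ (Fintype.card ι : ℝ)⁻¹ * Real.log (max τ (Pf w R x)) := by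
    rw [le_inv_mul_iff₀ hN]; exact h2
  linarith

omit [Nonempty ι] in
lemma norm_Fld_le (x : ℂ) : ‖Fld w R x‖ ≤ (Fintype.card ι : ℝ)⁻¹ * ∑ i, ‖x - w i‖⁻¹ := by
  unfold Fld
  rw [norm_smul, norm_inv, Real.norm_natCast]
  have hN : (0:ℝ) ≤ (Fintype.card ι : ℝ)⁻¹ := by positivity
  refine mul_le_mul_of_nonneg_left ?_ hN
  refine (norm_sum_le _ _).trans (Finset.sum_le_sum fun i _ => ?_)
  by_cases h : x ∈ ball (w i) R
  · rw [indicator_of_mem h, norm_rad]
  · rw [indicator_of_notMem h, norm_zero]; positivity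

lemma err_bound (hw : ∀ i, ‖w i - z‖ < ρ) (hρR : ρ ≤ R) (hρ : 0 < ρ)
    (hτρ : τ < ρ ^ Fintype.card ι) {φ : ℂ → ℝ} {L : ℝ} (hL : 0 ≤ L)
    (hφ : ∀ᵐ x : ℂ, Pf w R x ≤ τ → ‖gradient φ x‖ ≤ L) :
    |∫ x in {x | Pf w R x ≤ τ}, inner ℝ (gradient φ x) (Fld w R x)| ≤ 6 * π * ρ * L := by
  have hN : (0:ℝ) < Fintype.card ι := by exact_mod_cast Fintype.card_pos
  have hms : MeasurableSet {x | Pf w R x ≤ τ} := measurableSet_le (Pf_measurable w R) measurable_const
  have hsub : ∀ i, {x | Pf w R x ≤ τ} ⊆ ball (w i) (3 * ρ) := by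
    intro i x hx
    have h1 := near_of_Pf_le w z hw hρR hρ hτρ hx
    rw [mem_ball, dist_eq_norm]
    have h2 : ‖x - w i‖ ≤ ‖x - z‖ + ‖z - w i‖ := norm_sub_le_norm_sub_add_norm_sub x z (w i)
    have h3 := hw i
    rw [norm_sub_rev] at h3
    linarith
  have hint : ∀ i, IntegrableOn (fun x : ℂ => ‖x - w i‖⁻¹) {x | Pf w R x ≤ τ} := fun i =>
    (inv_norm_integrable (w i) (3 * ρ)).mono_set (hsub i)
  have hint2 : IntegrableOn (fun x : ℂ => L * ((Fintype.card ι : ℝ)⁻¹ * ∑ i, ‖x - w i‖⁻¹)) {x | Pf w R x ≤ τ} :=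
    ((integrable_finsetSum _ fun i _ => hint i).const_mul _).const_mul _
  have h1 : ‖∫ x in {x | Pf w R x ≤ τ}, inner ℝ (gradient φ x) (Fld w R x)‖ ≤
      ∫ x in {x | Pf w R x ≤ τ}, L * ((Fintype.card ι : ℝ)⁻¹ * ∑ i, ‖x - w i‖⁻¹) := by
    apply norm_integral_le_of_norm_le hint2
    rw [ae_restrict_iff' hms]
    filter_upwards [hφ] with x hx hxm
    refine (norm_inner_le_norm _ _).trans ?_
    exact mul_le_mul (hx hxm) (norm_Fld_le w x) (norm_nonneg _) hL
  rw [Real.norm_eq_abs] at h1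
  refine h1.trans ?_
  rw [integral_const_mul, integral_const_mul, integral_finsetSum _ fun i _ => hint i]
  have h2 : ∀ i, ∫ x in {x | Pf w R x ≤ τ}, ‖x - w i‖⁻¹ ≤ 2 * π * (3 * ρ) := by
    intro i
    rw [← inv_norm_integral (w i) (show 0 ≤ 3 * ρ by positivity)]
    apply setIntegral_mono_set (inv_norm_integrable (w i) (3 * ρ))
    · exact Eventually.of_forall fun x => by positivity
    · exact Eventually.of_forall (hsub i)
  calc L * ((Fintype.card ι : ℝ)⁻¹ * ∑ i, ∫ x in {x | Pf w R x ≤ τ}, ‖x - w i‖⁻¹)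
      ≤ L * ((Fintype.card ι : ℝ)⁻¹ * ∑ _i : ι, 2 * π * (3 * ρ)) := by
        apply mul_le_mul_of_nonneg_left _ hL
        apply mul_le_mul_of_nonneg_left _ (by positivity)
        exact Finset.sum_le_sum fun i _ => h2 i
    _ = 6 * π * ρ * L := by
        rw [Finset.sum_const, Finset.card_univ, nsmul_eq_mul]
        field_simp
        ring

/-- the self energy of a truncated potential -/
lemma Bf_pot_self (hR : 0 < R) (hτ : 0 < τ) (hτR : τ ≤ R ^ Fintype.card ι) :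
    Bf (pot w R τ) (pot w R τ) ≤ 2 * π * (Real.log R - (Fintype.card ι : ℝ)⁻¹ * Real.log τ) := by
  have hN : (0:ℝ) < Fintype.card ι := by exact_mod_cast Fintype.card_pos
  have hms : MeasurableSet {x | Pf w R x ≤ τ} := measurableSet_le (Pf_measurable w R) measurable_const
  rw [Bf_pot (pot_LL w R hτ) w hR.le hτ]
  have h1 : ∫ x in {x | Pf w R x ≤ τ}, inner ℝ (gradient (pot w R τ) x) (Fld w R x) = 0 := by
    rw [← integral_zero ℂ ℝ (μ := volume.restrict {x | Pf w R x ≤ τ})]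
    apply integral_congr_ae
    rw [Filter.EventuallyEq, ae_restrict_iff' hms]
    filter_upwards [gradient_pot w R hτ] with x hx hxm
    rw [hx, indicator_of_notMem, inner_zero_left]
    exact not_lt.mpr hxm
  rw [h1, add_zero]
  apply mul_le_mul_of_nonneg_left _ (by positivity)
  have h2 : ∀ i, pot w R τ (w i) - circleAverage (pot w R τ) (w i) R ≤
      Real.log R - (Fintype.card ι : ℝ)⁻¹ * Real.log τ := by
    intro i
    have h3 : 0 ≤ circleAverage (pot w R τ) (w i) R :=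
      circleAverage_nonneg_of_nonneg fun x _ => pot_nonneg w hR hτ hτR x
    have h4 := pot_le w (R := R) hτ (w i)
    linarith
  calc (Fintype.card ι : ℝ)⁻¹ * ∑ i, (pot w R τ (w i) - circleAverage (pot w R τ) (w i) R)
      ≤ (Fintype.card ι : ℝ)⁻¹ * ∑ _i : ι, (Real.log R - (Fintype.card ι : ℝ)⁻¹ * Real.log τ) := by
        apply mul_le_mul_of_nonneg_left _ (by positivity)
        exact Finset.sum_le_sum fun i _ => h2 i
    _ = _ := by
        rw [Finset.sum_const, Finset.card_univ, nsmul_eq_mul]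
        field_simp

/-- the cut-off function -/
noncomputable def cutf (R ρ τ : ℝ) (x : ℂ) : ℝ :=
  max 0 ((Real.log ρ - (Fintype.card ι : ℝ)⁻¹ * Real.log τ)⁻¹ * (pot w R τ x - (Real.log R - Real.log ρ)))

omit [Nonempty ι] in
lemma cutf_LL (hτ : 0 < τ) : LocallyLipschitz (cutf w R ρ τ) := by
  unfold cutf
  exact (LL_const_mul _ (LL_sub (pot_LL w R hτ) (LocallyLipschitz.const _))).const_max 0

omit [Nonempty ι] in
lemma cutf_nonneg (x : ℂ) : 0 ≤ cutf w R ρ τ x := le_max_left _ _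

omit [Nonempty ι] in
lemma cutf_eq_zero (hpos : 0 < Real.log ρ - (Fintype.card ι : ℝ)⁻¹ * Real.log τ) {x : ℂ}
    (hx : pot w R τ x ≤ Real.log R - Real.log ρ) : cutf w R ρ τ x = 0 := by
  unfold cutf
  apply max_eq_left
  apply mul_nonpos_of_nonneg_of_nonpos (by positivity)
  linarith

omit [Nonempty ι] in
lemma cutf_le_one (hpos : 0 < Real.log ρ - (Fintype.card ι : ℝ)⁻¹ * Real.log τ) (hτ : 0 < τ) (x : ℂ) :
    cutf w R ρ τ x ≤ 1 := by
  unfold cutf
  apply max_le zero_le_one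
  rw [inv_mul_le_iff₀ hpos]
  have := pot_le w (R := R) hτ x
  linarith

omit [Nonempty ι] in
lemma cutf_eq_one (hpos : 0 < Real.log ρ - (Fintype.card ι : ℝ)⁻¹ * Real.log τ) {x : ℂ}
    (hx : Pf w R x ≤ τ) : cutf w R ρ τ x = 1 := by
  unfold cutf
  rw [pot_of_le w hx]
  have : (Real.log ρ - (Fintype.card ι : ℝ)⁻¹ * Real.log τ)⁻¹ *
      (Real.log R - (Fintype.card ι : ℝ)⁻¹ * Real.log τ - (Real.log R - Real.log ρ)) = 1 := by
    rw [inv_mul_eq_one₀ hpos.ne']; ring
  rw [this]; norm_num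

omit [Nonempty ι] in
lemma gradient_cutf (hpos : 0 < Real.log ρ - (Fintype.card ι : ℝ)⁻¹ * Real.log τ) (hτ : 0 < τ) :
    ∀ᵐ x : ℂ, gradient (cutf w R ρ τ) x =
      if Real.log R - Real.log ρ < pot w R τ x then
        (Real.log ρ - (Fintype.card ι : ℝ)⁻¹ * Real.log τ)⁻¹ • gradient (pot w R τ) x else 0 := by
  filter_upwards [ae_diff (pot_LL w R hτ)] with x hx
  split_ifs with h
  · have hev : cutf w R ρ τ =ᶠ[𝓝 x] fun y => (Real.log ρ - (Fintype.card ι : ℝ)⁻¹ * Real.log τ)⁻¹ *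
        (pot w R τ y - (Real.log R - Real.log ρ)) := by
      filter_upwards [(pot_LL w R hτ).continuous.continuousAt.eventually_const_lt h] with y hy
      unfold cutf
      apply max_eq_right
      apply mul_nonneg (by positivity)
      linarith
    rw [gradient_congr hev]
    unfold gradient
    rw [fderiv_const_mul (hx.sub_const _), fderiv_sub_const, map_smul]
  · have hmin : IsLocalMin (cutf w R ρ τ) x := by
      refine Eventually.of_forall fun y => ?_
      show cutf w R ρ τ x ≤ cutf w R ρ τ y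
      rw [cutf_eq_zero w hpos (not_lt.mp h)]
      exact cutf_nonneg w y
    unfold gradient
    rw [hmin.fderiv_eq_zero, map_zero]


lemma cutf_CS (hw : ∀ i, ‖w i - z‖ < ρ) (hρR : ρ ≤ R) (hρ : 0 < ρ) (hτ : 0 < τ)
    (hpos : 0 < Real.log ρ - (Fintype.card ι : ℝ)⁻¹ * Real.log τ) : CS (cutf w R ρ τ) := by
  refine ⟨cutf_LL w hτ, ‖z‖ + 2 * ρ, fun x hx => cutf_eq_zero w hpos (pot_le_of_far w z hw hρR hρ ?_)⟩
  have := norm_sub_norm_le x z
  linarith

/-- the energy of the cut-off -/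
lemma Bf_cutf (hρR : ρ ≤ R) (hρ : 0 < ρ) (hτ : 0 < τ)
    (hpos : 0 < Real.log ρ - (Fintype.card ι : ℝ)⁻¹ * Real.log τ) :
    Bf (cutf w R ρ τ) (cutf w R ρ τ) ≤
      2 * π * (Real.log ρ - (Fintype.card ι : ℝ)⁻¹ * Real.log τ)⁻¹ := by
  have hN : (0:ℝ) < Fintype.card ι := by exact_mod_cast Fintype.card_pos
  have hR : 0 < R := lt_of_lt_of_le hρ hρR
  have hms : MeasurableSet {x | Pf w R x ≤ τ} := measurableSet_le (Pf_measurable w R) measurable_const
  have h1 : Bf (cutf w R ρ τ) (cutf w R ρ τ) =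
      (Real.log ρ - (Fintype.card ι : ℝ)⁻¹ * Real.log τ)⁻¹ * Bf (cutf w R ρ τ) (pot w R τ) := by
    unfold Bf
    rw [← integral_const_mul]
    apply integral_congr_ae
    filter_upwards [gradient_cutf w (R := R) hpos hτ] with x hx
    rw [hx]
    split_ifs with h
    · rw [real_inner_smul_right]
    · simp
  rw [h1, Bf_pot (cutf_LL w hτ) w hR.le hτ]
  have h2 : ∫ x in {x | Pf w R x ≤ τ}, inner ℝ (gradient (cutf w R ρ τ) x) (Fld w R x) = 0 := by
    rw [← integral_zero ℂ ℝ (μ := volume.restrict {x | Pf w R x ≤ τ})]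
    apply integral_congr_ae
    rw [Filter.EventuallyEq, ae_restrict_iff' hms]
    filter_upwards [gradient_pot w R hτ, gradient_cutf w (R := R) hpos hτ] with x hx hx2 hxm
    have h0 : gradient (pot w R τ) x = 0 := by
      rw [hx, indicator_of_notMem]
      exact not_lt.mpr hxm
    rw [hx2, h0]
    simp
  rw [h2, add_zero]
  have h3 : ∀ i, cutf w R ρ τ (w i) - circleAverage (cutf w R ρ τ) (w i) R ≤ 1 := by
    intro i
    have h4 : 0 ≤ circleAverage (cutf w R ρ τ) (w i) R :=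
      circleAverage_nonneg_of_nonneg fun x _ => cutf_nonneg w x
    have h5 := cutf_le_one w (R := R) hpos hτ (w i)
    linarith
  have h6 : (Fintype.card ι : ℝ)⁻¹ * ∑ i, (cutf w R ρ τ (w i) - circleAverage (cutf w R ρ τ) (w i) R) ≤ 1 := by
    calc (Fintype.card ι : ℝ)⁻¹ * ∑ i, (cutf w R ρ τ (w i) - circleAverage (cutf w R ρ τ) (w i) R)
        ≤ (Fintype.card ι : ℝ)⁻¹ * ∑ _i : ι, (1:ℝ) := by
          apply mul_le_mul_of_nonneg_left _ (by positivity)
          exact Finset.sum_le_sum fun i _ => h3 i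
      _ = 1 := by
          rw [Finset.sum_const, Finset.card_univ, nsmul_eq_mul]
          field_simp
  have h7 : 0 < (Real.log ρ - (Fintype.card ι : ℝ)⁻¹ * Real.log τ)⁻¹ := inv_pos.mpr hpos
  have h8 := mul_le_mul_of_nonneg_left h6 (show 0 ≤ 2 * π by positivity)
  have h9 := mul_le_mul_of_nonneg_left h8 h7.le
  linarith

end single

lemma log_close {a b s : ℝ} (hs : 0 < s) (ha : s ≤ a) (hb : s ≤ b) :
    |Real.log a - Real.log b| ≤ |a - b| / s := by
  have key : ∀ x y : ℝ, s ≤ x → x ≤ y → |Real.log y - Real.log x| ≤ |y - x| / s := by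
    intro x y hx hxy
    have hx0 : 0 < x := lt_of_lt_of_le hs hx
    have hy0 : 0 < y := lt_of_lt_of_le hx0 hxy
    rw [abs_of_nonneg (sub_nonneg.mpr (Real.log_le_log hx0 hxy)), abs_of_nonneg (sub_nonneg.mpr hxy),
      ← Real.log_div hy0.ne' hx0.ne']
    have h1 := Real.log_le_sub_one_of_pos (div_pos hy0 hx0)
    refine h1.trans ?_
    have h2 : y / x - 1 = (y - x) / x := by field_simp
    rw [h2]
    have : 0 ≤ y - x := sub_nonneg.mpr hxy
    gcongr
  rcases le_total a b with h | h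
  · rw [abs_sub_comm, abs_sub_comm a b]
    exact key a b ha h
  · exact key b a hb h

end Pool.Agent.Helper828.Cap
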