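import Pool.Agent.Helper828.CapE

/-! Upper bound: several plates. -/

namespace Pool.Agent.Helper828.Cap

open Set Filter Topology MeasureTheory Metric Real

/-- standing geometric hypotheses -/
structure Good {n : ℕ} {ι : Fin n → Type} [∀ k, Fintype (ι k)] (w : ∀ k, ι k → ℂ) (z : Fin n → ℂ)
    (ρ R s d : ℝ) (τ : Fin n → ℝ) : Prop where
  hρ : 0 < ρ
  hs : 0 < s
  hw : ∀ k i, ‖w k i - z k‖ < ρ
  hτ : ∀ k, 0 < τ k
  hτρ : ∀ k, τ k < ρ ^ Fintype.card (ι k)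
  hsep : ∀ k l, k ≠ l → 4 * ρ + s ≤ ‖z k - z l‖
  hd : ∀ k l, ‖z k - z l‖ + 4 * ρ ≤ d
  hd0 : 4 * ρ ≤ d
  hR : d < R

namespace Good

variable {n : ℕ} {ι : Fin n → Type} [∀ k, Fintype (ι k)] [∀ k, Nonempty (ι k)] {w : ∀ k, ι k → ℂ}
  {z : Fin n → ℂ} {ρ R s d : ℝ} {τ : Fin n → ℝ}

/-- the level `ℓ` -/
noncomputable def ell (ι : Fin n → Type) [∀ k, Fintype (ι k)] (τ : Fin n → ℝ) (k : Fin n) : ℝ :=
  (Fintype.card (ι k) : ℝ)⁻¹ * Real.log (τ k)

omit [∀ k, Nonempty (ι k)] in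
lemma hR0 (h : Good w z ρ R s d τ) : 0 < R := by have := h.hR; have := h.hρ; have := h.hd0; linarith

omit [∀ k, Nonempty (ι k)] in
lemma hρR (h : Good w z ρ R s d τ) : ρ ≤ R := by have := h.hR; have := h.hρ; have := h.hd0; linarith

lemma hpos (h : Good w z ρ R s d τ) (k : Fin n) : 0 < Real.log ρ - ell ι τ k := by
  have hN : (0:ℝ) < Fintype.card (ι k) := by exact_mod_cast Fintype.card_pos
  have h1 := Real.log_lt_log (h.hτ k) (h.hτρ k)
  rw [Real.log_pow] at h1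
  have h2 : ell ι τ k < Real.log ρ := by
    unfold ell
    rw [inv_mul_lt_iff₀ hN]; exact h1
  linarith

omit [∀ k, Nonempty (ι k)] in
lemma hτR (h : Good w z ρ R s d τ) (k : Fin n) : τ k ≤ R ^ Fintype.card (ι k) :=
  (h.hτρ k).le.trans (pow_le_pow_left₀ h.hρ.le h.hρR _)

omit [∀ k, Nonempty (ι k)] in
/-- distances -/
lemma dist_lower (h : Good w z ρ R s d τ) {k l : Fin n} (hkl : k ≠ l) {x : ℂ} (hx : ‖x - z k‖ < 2 * ρ)
    (j : ι l) : s ≤ ‖x - w l j‖ := by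
  have h1 := h.hsep k l hkl
  have h2 := h.hw l j
  have h3 : ‖z k - z l‖ ≤ ‖z k - x‖ + ‖x - w l j‖ + ‖w l j - z l‖ := by
    calc ‖z k - z l‖ ≤ ‖z k - x‖ + ‖x - z l‖ := norm_sub_le_norm_sub_add_norm_sub _ _ _
      _ ≤ ‖z k - x‖ + (‖x - w l j‖ + ‖w l j - z l‖) := by
        gcongr; exact norm_sub_le_norm_sub_add_norm_sub _ _ _
      _ = _ := by ring
  rw [norm_sub_rev (z k) x] at h3
  have := h.hρ
  linarith

omit [∀ k, Nonempty (ι k)] in
lemma dist_upper (h : Good w z ρ R s d τ) {k l : Fin n} {x : ℂ} (hx : ‖x - z k‖ < 2 * ρ)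
    (j : ι l) : ‖x - w l j‖ ≤ d := by
  have h1 := h.hd k l
  have h2 := h.hw l j
  have h3 : ‖x - w l j‖ ≤ ‖x - z k‖ + ‖z k - z l‖ + ‖w l j - z l‖ := by
    calc ‖x - w l j‖ ≤ ‖x - z l‖ + ‖z l - w l j‖ := norm_sub_le_norm_sub_add_norm_sub _ _ _
      _ ≤ (‖x - z k‖ + ‖z k - z l‖) + ‖z l - w l j‖ := by
        gcongr; exact norm_sub_le_norm_sub_add_norm_sub _ _ _
      _ = _ := by rw [norm_sub_rev (z l) (w l j)]
  have := h.hρ
  linarith

omit [∀ k, Nonempty (ι k)] in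
lemma dist_diff (h : Good w z ρ R s d τ) {k l : Fin n} {x : ℂ} (hx : ‖x - z k‖ < 2 * ρ)
    (j : ι l) : |‖x - w l j‖ - ‖z k - z l‖| ≤ 3 * ρ := by
  have h2 := h.hw l j
  have h3 : ‖(x - w l j) - (z k - z l)‖ ≤ ‖x - z k‖ + ‖w l j - z l‖ := by
    calc ‖(x - w l j) - (z k - z l)‖ = ‖(x - z k) - (w l j - z l)‖ := by congr 1; ring
      _ ≤ _ := norm_sub_le _ _
  have h4 := abs_norm_sub_norm_le (x - w l j) (z k - z l)
  linarith

omit [∀ k, Nonempty (ι k)] in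
lemma log_diff (h : Good w z ρ R s d τ) {k l : Fin n} (hkl : k ≠ l) {x : ℂ} (hx : ‖x - z k‖ < 2 * ρ)
    (j : ι l) : |Real.log ‖x - w l j‖ - Real.log ‖z k - z l‖| ≤ 3 * ρ / s := by
  have h1 := h.hsep k l hkl
  have h2 := h.hρ
  have h3 := log_close h.hs (h.dist_lower hkl hx j) (show s ≤ ‖z k - z l‖ by linarith)
  refine h3.trans ?_
  have := h.hs
  have h4 := h.dist_diff hx j (k := k)
  gcongr

omit [∀ k, Nonempty (ι k)] in
/-- points near one centre are far from the others -/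
lemma far_other (h : Good w z ρ R s d τ) {k l : Fin n} (hkl : k ≠ l) {x : ℂ} (hx : ‖x - z k‖ < 2 * ρ) :
    2 * ρ ≤ ‖x - z l‖ := by
  have h1 := h.hsep k l hkl
  have h3 : ‖z k - z l‖ ≤ ‖z k - x‖ + ‖x - z l‖ := norm_sub_le_norm_sub_add_norm_sub _ _ _
  rw [norm_sub_rev (z k) x] at h3
  have := h.hs
  linarith

/-- value of the potential near the other centres -/
lemma pot_near (h : Good w z ρ R s d τ) {k l : Fin n} (hkl : k ≠ l) {x : ℂ} (hx : ‖x - z k‖ < 2 * ρ) :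
    |pot (w l) R (τ l) x - (Real.log R - Real.log ‖z k - z l‖)| ≤ 3 * ρ / s := by
  have hN : (0:ℝ) < Fintype.card (ι l) := by exact_mod_cast Fintype.card_pos
  have h1 : τ l ≤ Pf (w l) R x :=
    (h.hτρ l).le.trans (Pf_ge_of_far (w l) (z l) (h.hw l) h.hρR h.hρ (h.far_other hkl hx))
  rw [pot_of_ge (w l) h1 (h.hτ l)]
  have h2 : ∀ i, Real.log (min R ‖x - w l i‖) = Real.log ‖x - w l i‖ := by
    intro i
    rw [min_eq_right]
    have := h.dist_upper hx i (k := k)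
    have := h.hR
    linarith
  simp only [h2]
  have h3 : Real.log R - (Fintype.card (ι l) : ℝ)⁻¹ * ∑ i, Real.log ‖x - w l i‖ - (Real.log R - Real.log ‖z k - z l‖)
      = -((Fintype.card (ι l) : ℝ)⁻¹ * ∑ i, (Real.log ‖x - w l i‖ - Real.log ‖z k - z l‖)) := by
    rw [Finset.sum_sub_distrib, Finset.sum_const, Finset.card_univ, nsmul_eq_mul]
    field_simp
    ring
  rw [h3, abs_neg, abs_mul, abs_of_pos (inv_pos.mpr hN), inv_mul_le_iff₀ hN]
  calc |∑ i, (Real.log ‖x - w l i‖ - Real.log ‖z k - z l‖)|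
      ≤ ∑ i, |Real.log ‖x - w l i‖ - Real.log ‖z k - z l‖| := Finset.abs_sum_le_sum_abs _ _
    _ ≤ ∑ _i : ι l, 3 * ρ / s := Finset.sum_le_sum fun i _ => h.log_diff hkl hx i
    _ = _ := by rw [Finset.sum_const, Finset.card_univ, nsmul_eq_mul]

lemma grad_pot_near (h : Good w z ρ R s d τ) {k l : Fin n} (hkl : k ≠ l) :
    ∀ᵐ x : ℂ, ‖x - z k‖ < 2 * ρ → ‖gradient (pot (w l) R (τ l)) x‖ ≤ s⁻¹ := by
  have hN : (0:ℝ) < Fintype.card (ι l) := by exact_mod_cast Fintype.card_pos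
  filter_upwards [gradient_pot (w l) R (h.hτ l)] with x hx hxk
  rw [hx]
  have h1 : ‖Fld (w l) R x‖ ≤ s⁻¹ := by
    refine (norm_Fld_le (w l) x).trans ?_
    rw [inv_mul_le_iff₀ hN]
    calc ∑ i, ‖x - w l i‖⁻¹ ≤ ∑ _i : ι l, s⁻¹ :=
          Finset.sum_le_sum fun i _ => inv_anti₀ h.hs (h.dist_lower hkl hxk i)
      _ = _ := by rw [Finset.sum_const, Finset.card_univ, nsmul_eq_mul]
  by_cases hm : x ∈ {x | τ l < Pf (w l) R x}
  · rw [indicator_of_mem hm, norm_neg]; exact h1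
  · rw [indicator_of_notMem hm, norm_zero]; exact inv_nonneg.mpr h.hs.le

omit [∀ k, Nonempty (ι k)] in
lemma near_w (h : Good w z ρ R s d τ) (k : Fin n) (i : ι k) : ‖w k i - z k‖ < 2 * ρ := by
  have := h.hw k i; have := h.hρ; linarith

/-- far averages -/
lemma avg_pot_far (h : Good w z ρ R s d τ) (k l : Fin n) (i : ι k) :
    0 ≤ circleAverage (pot (w l) R (τ l)) (w k i) R ∧
      circleAverage (pot (w l) R (τ l)) (w k i) R ≤ Real.log R - Real.log (R - d) := by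
  have hN : (0:ℝ) < Fintype.card (ι l) := by exact_mod_cast Fintype.card_pos
  refine ⟨circleAverage_nonneg_of_nonneg fun x _ => pot_nonneg (w l) h.hR0 (h.hτ l) (h.hτR l) x, ?_⟩
  apply circleAverage_mono_on_of_le_circle (LL_ci (pot_LL _ _ (h.hτ l)) _ _)
  intro x hx
  rw [mem_sphere, dist_eq_norm, abs_of_pos h.hR0] at hx
  have hRd : 0 < R - d := sub_pos.mpr h.hR
  have hdn : 0 ≤ d := by have := h.hd0; have := h.hρ; linarith
  have h1 : ∀ j, R - d ≤ ‖x - w l j‖ := by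
    intro j
    have h2 : ‖w k i - w l j‖ ≤ d := h.dist_upper (k := k) (h.near_w k i) j
    have h3 : ‖x - w k i‖ ≤ ‖x - w l j‖ + ‖w l j - w k i‖ := norm_sub_le_norm_sub_add_norm_sub _ _ _
    rw [norm_sub_rev (w l j)] at h3
    linarith
  have h2 : (R - d) ^ Fintype.card (ι l) ≤ Pf (w l) R x := by
    unfold Pf
    calc (R - d) ^ Fintype.card (ι l) = ∏ _i : ι l, (R - d) := by simp
      _ ≤ _ := Finset.prod_le_prod (fun _ _ => hRd.le) fun j _ => le_min (by linarith) (h1 j)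
  unfold pot
  have h3 : Real.log ((R - d) ^ Fintype.card (ι l)) ≤ Real.log (max (τ l) (Pf (w l) R x)) :=
    Real.log_le_log (by positivity) (h2.trans (le_max_right _ _))
  rw [Real.log_pow] at h3
  have h4 : Real.log (R - d) ≤ (Fintype.card (ι l) : ℝ)⁻¹ * Real.log (max (τ l) (Pf (w l) R x)) := by
    rw [le_inv_mul_iff₀ hN]; exact h3
  linarith

lemma avg_abs {ι : Type} [Fintype ι] [Nonempty ι] (a : ι → ℝ) {b c : ℝ} (h : ∀ i, |a i - b| ≤ c) :
    |(Fintype.card ι : ℝ)⁻¹ * ∑ i, a i - b| ≤ c := by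
  have hN : (0:ℝ) < Fintype.card ι := by exact_mod_cast Fintype.card_pos
  have h1 : (Fintype.card ι : ℝ)⁻¹ * ∑ i, a i - b = (Fintype.card ι : ℝ)⁻¹ * ∑ i, (a i - b) := by
    rw [Finset.sum_sub_distrib, Finset.sum_const, Finset.card_univ, nsmul_eq_mul]
    field_simp
  rw [h1, abs_mul, abs_of_pos (inv_pos.mpr hN), inv_mul_le_iff₀ hN]
  calc |∑ i, (a i - b)| ≤ ∑ i, |a i - b| := Finset.abs_sum_le_sum_abs _ _
    _ ≤ ∑ _i : ι, c := Finset.sum_le_sum fun i _ => h i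
    _ = _ := by rw [Finset.sum_const, Finset.card_univ, nsmul_eq_mul]

/-- the mutual energy of two potentials -/
lemma Bf_pot_pot (h : Good w z ρ R s d τ) {k l : Fin n} (hkl : k ≠ l) :
    |Bf (pot (w l) R (τ l)) (pot (w k) R (τ k)) - 2 * π * (Real.log R - Real.log ‖z k - z l‖)|
      ≤ 2 * π * (3 * ρ / s + (Real.log R - Real.log (R - d))) + 6 * π * ρ * s⁻¹ := by
  rw [Bf_pot (pot_LL _ _ (h.hτ l)) (w k) h.hR0.le (h.hτ k)]
  have h1 := err_bound (w k) (z k) (h.hw k) h.hρR h.hρ (h.hτρ k) (φ := pot (w l) R (τ l))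
    (inv_nonneg.mpr h.hs.le) (by
      filter_upwards [h.grad_pot_near hkl] with x hx hxm
      exact hx (near_of_Pf_le (w k) (z k) (h.hw k) h.hρR h.hρ (h.hτρ k) hxm))
  have h2 : |(Fintype.card (ι k) : ℝ)⁻¹ * ∑ i, (pot (w l) R (τ l) (w k i) - circleAverage (pot (w l) R (τ l)) (w k i) R)
      - (Real.log R - Real.log ‖z k - z l‖)| ≤ 3 * ρ / s + (Real.log R - Real.log (R - d)) := by
    apply avg_abs
    intro i
    have h3 := h.pot_near hkl (h.near_w k i)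
    have h4 := h.avg_pot_far k l i
    rw [abs_le] at h3 ⊢
    constructor <;> linarith [h3.1, h3.2, h4.1, h4.2]
  have h5 : |2 * π * ((Fintype.card (ι k) : ℝ)⁻¹ * ∑ i, (pot (w l) R (τ l) (w k i) - circleAverage (pot (w l) R (τ l)) (w k i) R))
      - 2 * π * (Real.log R - Real.log ‖z k - z l‖)| ≤ 2 * π * (3 * ρ / s + (Real.log R - Real.log (R - d))) := by
    rw [← mul_sub, abs_mul, abs_of_pos (show 0 < 2 * π by positivity)]
    exact mul_le_mul_of_nonneg_left h2 (by positivity)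
  rw [abs_le] at h1 h5 ⊢
  constructor <;> linarith [h1.1, h1.2, h5.1, h5.2]

end Good

end Pool.Agent.Helper828.Cap
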