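import Pool.Agent.Helper828.CapE2

/-! Upper bound: the corrections. -/

namespace Pool.Agent.Helper828.Cap

open Set Filter Topology MeasureTheory Metric Real

namespace Good

variable {n : ℕ} {ι : Fin n → Type} [∀ k, Fintype (ι k)] [∀ k, Nonempty (ι k)] {w : ∀ k, ι k → ℂ}
  {z : Fin n → ℂ} {ρ R s d : ℝ} {τ : Fin n → ℝ}

/-- the defect -/
noncomputable def ff (w : ∀ k, ι k → ℂ) (R : ℝ) (τ : Fin n → ℝ) (Q e : Fin n → ℝ) (k : Fin n) (x : ℂ) : ℝ :=
  e k - Q k * (Real.log R - ell ι τ k) - ∑ l ∈ Finset.univ.erase k, Q l * pot (w l) R (τ l) x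

/-- the constant value of the defect -/
noncomputable def aa (ι : Fin n → Type) [∀ k, Fintype (ι k)] (z : Fin n → ℂ) (τ : Fin n → ℝ) (Q e : Fin n → ℝ) (k : Fin n) : ℝ :=
  e k + Q k * ell ι τ k + ∑ l ∈ Finset.univ.erase k, Q l * Real.log ‖z k - z l‖

/-- the correction -/
noncomputable def vv (w : ∀ k, ι k → ℂ) (ρ R : ℝ) (τ : Fin n → ℝ) (Q e : Fin n → ℝ) (k : Fin n) (x : ℂ) : ℝ :=
  ff w R τ Q e k x * cutf (w k) R ρ (τ k) x

omit [∀ k, Nonempty (ι k)] in
lemma ff_LL (h : Good w z ρ R s d τ) (Q e : Fin n → ℝ) (k : Fin n) : LocallyLipschitz (ff w R τ Q e k) := by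
  unfold ff
  exact LL_sub (LocallyLipschitz.const _) (LL_sum _ fun l _ => LL_const_mul _ (pot_LL _ _ (h.hτ l)))

lemma vv_CS (h : Good w z ρ R s d τ) (Q e : Fin n → ℝ) (k : Fin n) : CS (vv w ρ R τ Q e k) :=
  CS.mul (h.ff_LL Q e k) (cutf_CS (w k) (z k) (h.hw k) h.hρR h.hρ (h.hτ k) (h.hpos k))

lemma ff_near (h : Good w z ρ R s d τ) (Q e : Fin n → ℝ) (hQ : ∑ k, Q k = 0) (k : Fin n) {x : ℂ}
    (hx : ‖x - z k‖ < 2 * ρ) :
    |ff w R τ Q e k x - aa ι z τ Q e k| ≤ (∑ l, |Q l|) * (3 * ρ / s) := by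
  have h1 : ff w R τ Q e k x - aa ι z τ Q e k
      = -∑ l ∈ Finset.univ.erase k, Q l * (pot (w l) R (τ l) x - (Real.log R - Real.log ‖z k - z l‖)) := by
    have h2 : Q k = - ∑ l ∈ Finset.univ.erase k, Q l := by
      rw [← Finset.add_sum_erase _ _ (Finset.mem_univ k)] at hQ
      linarith
    have h3 : ∑ l ∈ Finset.univ.erase k, Q l * (pot (w l) R (τ l) x - (Real.log R - Real.log ‖z k - z l‖))
      = ∑ l ∈ Finset.univ.erase k, Q l * pot (w l) R (τ l) x - (∑ l ∈ Finset.univ.erase k, Q l) * Real.log R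
        + ∑ l ∈ Finset.univ.erase k, Q l * Real.log ‖z k - z l‖ := by
      rw [Finset.sum_mul, ← Finset.sum_sub_distrib, ← Finset.sum_add_distrib]
      refine Finset.sum_congr rfl fun l _ => by ring
    rw [h3]
    unfold ff aa
    have h4 : ∑ l ∈ Finset.univ.erase k, Q l = - Q k := by linarith
    rw [h4]
    ring
  rw [h1, abs_neg]
  have hρs : 0 ≤ 3 * ρ / s := by have := h.hρ; have := h.hs; positivity
  calc |∑ l ∈ Finset.univ.erase k, Q l * (pot (w l) R (τ l) x - (Real.log R - Real.log ‖z k - z l‖))|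
      ≤ ∑ l ∈ Finset.univ.erase k, |Q l * (pot (w l) R (τ l) x - (Real.log R - Real.log ‖z k - z l‖))| :=
        Finset.abs_sum_le_sum_abs _ _
    _ ≤ ∑ l ∈ Finset.univ.erase k, |Q l| * (3 * ρ / s) := by
        refine Finset.sum_le_sum fun l hl => ?_
        rw [abs_mul]
        exact mul_le_mul_of_nonneg_left (h.pot_near (Finset.ne_of_mem_erase hl).symm hx) (abs_nonneg _)
    _ = (∑ l ∈ Finset.univ.erase k, |Q l|) * (3 * ρ / s) := (Finset.sum_mul _ _ _).symm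
    _ ≤ _ := by
        apply mul_le_mul_of_nonneg_right _ hρs
        exact Finset.sum_le_sum_of_subset_of_nonneg (Finset.erase_subset _ _) fun l _ _ => abs_nonneg _

lemma grad_ff (h : Good w z ρ R s d τ) (Q e : Fin n → ℝ) (k : Fin n) :
    ∀ᵐ x : ℂ, ‖x - z k‖ < 2 * ρ → ‖gradient (ff w R τ Q e k) x‖ ≤ (∑ l, |Q l|) * s⁻¹ := by
  have h1 : ∀ᵐ x : ℂ, ∀ l, DifferentiableAt ℝ (pot (w l) R (τ l)) x :=
    ae_all_iff.mpr fun l => ae_diff (pot_LL _ _ (h.hτ l))
  have h2 : ∀ᵐ x : ℂ, ∀ l, k ≠ l → ‖x - z k‖ < 2 * ρ → ‖gradient (pot (w l) R (τ l)) x‖ ≤ s⁻¹ := by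
    rw [ae_all_iff]
    intro l
    by_cases hkl : k = l
    · exact Eventually.of_forall fun x hx => absurd hkl hx
    · filter_upwards [h.grad_pot_near hkl] with x hx _
      exact hx
  filter_upwards [h1, h2] with x hx1 hx2 hxk
  have h3 : gradient (ff w R τ Q e k) x = -∑ l ∈ Finset.univ.erase k, Q l • gradient (pot (w l) R (τ l)) x := by
    unfold ff gradient
    have h4 : HasFDerivAt (fun x => e k - Q k * (Real.log R - ell ι τ k) -
        ∑ l ∈ Finset.univ.erase k, Q l * pot (w l) R (τ l) x)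
        (-∑ l ∈ Finset.univ.erase k, Q l • fderiv ℝ (pot (w l) R (τ l)) x) x := by
      apply HasFDerivAt.const_sub
      apply HasFDerivAt.fun_sum
      intro l _
      exact (hx1 l).hasFDerivAt.const_mul _
    rw [h4.fderiv, map_neg, map_sum]
    congr 1
    refine Finset.sum_congr rfl fun l _ => ?_
    rw [map_smul]
  rw [h3, norm_neg]
  have hs : 0 ≤ s⁻¹ := inv_nonneg.mpr h.hs.le
  calc ‖∑ l ∈ Finset.univ.erase k, Q l • gradient (pot (w l) R (τ l)) x‖
      ≤ ∑ l ∈ Finset.univ.erase k, ‖Q l • gradient (pot (w l) R (τ l)) x‖ := norm_sum_le _ _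
    _ ≤ ∑ l ∈ Finset.univ.erase k, |Q l| * s⁻¹ := by
        refine Finset.sum_le_sum fun l hl => ?_
        rw [norm_smul, Real.norm_eq_abs]
        exact mul_le_mul_of_nonneg_left (hx2 l (Finset.ne_of_mem_erase hl).symm hxk) (abs_nonneg _)
    _ = (∑ l ∈ Finset.univ.erase k, |Q l|) * s⁻¹ := (Finset.sum_mul _ _ _).symm
    _ ≤ _ := by
        apply mul_le_mul_of_nonneg_right _ hs
        exact Finset.sum_le_sum_of_subset_of_nonneg (Finset.erase_subset _ _) fun l _ _ => abs_nonneg _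

lemma vv_far (h : Good w z ρ R s d τ) (Q e : Fin n → ℝ) (k : Fin n) {x : ℂ} (hx : 2 * ρ ≤ ‖x - z k‖) :
    vv w ρ R τ Q e k x = 0 := by
  unfold vv
  rw [cutf_eq_zero (w k) (h.hpos k) (pot_le_of_far (w k) (z k) (h.hw k) h.hρR h.hρ hx), mul_zero]

/-- gradient of the correction on the plate region -/
lemma grad_vv_plate (h : Good w z ρ R s d τ) (Q e : Fin n → ℝ) (k : Fin n) :
    ∀ᵐ x : ℂ, Pf (w k) R x ≤ τ k → ‖gradient (vv w ρ R τ Q e k) x‖ ≤ (∑ l, |Q l|) * s⁻¹ := by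
  filter_upwards [gradient_mul' (h.ff_LL Q e k) (cutf_LL (w k) (R := R) (ρ := ρ) (h.hτ k)), h.grad_ff Q e k,
    gradient_cutf (w k) (R := R) (h.hpos k) (h.hτ k), gradient_pot (w k) R (h.hτ k)] with x h1 h2 h3 h4 hx
  have h5 : gradient (cutf (w k) R ρ (τ k)) x = 0 := by
    rw [h3, h4, indicator_of_notMem (by exact not_lt.mpr hx)]
    simp
  have h6 : gradient (vv w ρ R τ Q e k) x = gradient (ff w R τ Q e k) x := by
    have : gradient (vv w ρ R τ Q e k) x = gradient (fun x => ff w R τ Q e k x * cutf (w k) R ρ (τ k) x) x := rfl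
    rw [this, h1, h5, cutf_eq_one (w k) (h.hpos k) hx]
    simp
  rw [h6]
  exact h2 (near_of_Pf_le (w k) (z k) (h.hw k) h.hρR h.hρ (h.hτρ k) hx)

lemma avg_vv_zero (h : Good w z ρ R s d τ) (Q e : Fin n → ℝ) (k l : Fin n) (i : ι l) :
    circleAverage (vv w ρ R τ Q e k) (w l i) R = 0 := by
  apply circleAverage_const_on_circle
  intro x hx
  rw [mem_sphere, dist_eq_norm, abs_of_pos h.hR0] at hx
  apply h.vv_far
  have h1 : ‖x - w l i‖ ≤ ‖x - z k‖ + ‖z k - w l i‖ := norm_sub_le_norm_sub_add_norm_sub _ _ _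
  have h2 : ‖z k - w l i‖ ≤ ‖z k - z l‖ + ‖z l - w l i‖ := norm_sub_le_norm_sub_add_norm_sub _ _ _
  have h3 := h.hw l i
  rw [norm_sub_rev] at h3
  have h4 := h.hd k l
  have h5 := h.hR
  have h6 := h.hρ
  linarith

/-- the pairing of the correction with the potential of another plate -/
lemma Bf_vv_other (h : Good w z ρ R s d τ) (Q e : Fin n → ℝ) {k l : Fin n} (hkl : k ≠ l) :
    Bf (vv w ρ R τ Q e k) (pot (w l) R (τ l)) = 0 := by
  rw [Bf_pot (h.vv_CS Q e k).1 (w l) h.hR0.le (h.hτ l)]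
  have hfar : ∀ x : ℂ, ‖x - z l‖ < 2 * ρ → 2 * ρ ≤ ‖x - z k‖ := fun x hx => h.far_other hkl.symm hx
  have h1 : ∀ i, vv w ρ R τ Q e k (w l i) - circleAverage (vv w ρ R τ Q e k) (w l i) R = 0 := by
    intro i
    rw [h.avg_vv_zero, h.vv_far Q e k (hfar _ (h.near_w l i)), sub_zero]
  simp only [h1, Finset.sum_const_zero, mul_zero, zero_add]
  have h2 := err_bound (w l) (z l) (h.hw l) h.hρR h.hρ (h.hτρ l) (φ := vv w ρ R τ Q e k) (L := 0) le_rfl (by
    refine Eventually.of_forall fun x hx => ?_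
    have hx2 := near_of_Pf_le (w l) (z l) (h.hw l) h.hρR h.hρ (h.hτρ l) hx
    have hx3 : vv w ρ R τ Q e k =ᶠ[𝓝 x] fun _ => 0 := by
      have hc : ContinuousAt (fun y : ℂ => ‖y - z l‖) x := by fun_prop
      filter_upwards [hc.eventually_lt_const hx2] with y hy
      exact h.vv_far Q e k (hfar y hy)
    rw [gradient_congr hx3, gradient_const', norm_zero])
  rw [mul_zero] at h2
  exact abs_eq_zero.mp (le_antisymm h2 (abs_nonneg _))

/-- the pairing of the correction with its own potential -/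
lemma Bf_vv_self (h : Good w z ρ R s d τ) (Q e : Fin n → ℝ) (hQ : ∑ k, Q k = 0) (k : Fin n) :
    |Bf (vv w ρ R τ Q e k) (pot (w k) R (τ k)) - 2 * π * aa ι z τ Q e k| ≤
      2 * π * ((∑ l, |Q l|) * (3 * ρ / s)) + 6 * π * ρ * ((∑ l, |Q l|) * s⁻¹) := by
  rw [Bf_pot (h.vv_CS Q e k).1 (w k) h.hR0.le (h.hτ k)]
  have hL : 0 ≤ (∑ l, |Q l|) * s⁻¹ :=
    mul_nonneg (Finset.sum_nonneg fun _ _ => abs_nonneg _) (inv_nonneg.mpr h.hs.le)
  have h1 := err_bound (w k) (z k) (h.hw k) h.hρR h.hρ (h.hτρ k) (φ := vv w ρ R τ Q e k) hL (h.grad_vv_plate Q e k)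
  have h2 : |(Fintype.card (ι k) : ℝ)⁻¹ * ∑ i, (vv w ρ R τ Q e k (w k i) - circleAverage (vv w ρ R τ Q e k) (w k i) R)
      - aa ι z τ Q e k| ≤ (∑ l, |Q l|) * (3 * ρ / s) := by
    apply avg_abs
    intro i
    rw [h.avg_vv_zero, sub_zero]
    have h3 : Pf (w k) R (w k i) ≤ τ k := by
      have : Pf (w k) R (w k i) = 0 := by
        unfold Pf
        apply Finset.prod_eq_zero (Finset.mem_univ i)
        rw [sub_self, norm_zero, min_eq_right h.hR0.le]
      rw [this]; exact (h.hτ k).le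
    unfold vv
    rw [cutf_eq_one (w k) (h.hpos k) h3, mul_one]
    exact h.ff_near Q e hQ k (h.near_w k i)
  have h5 : |2 * π * ((Fintype.card (ι k) : ℝ)⁻¹ * ∑ i, (vv w ρ R τ Q e k (w k i) - circleAverage (vv w ρ R τ Q e k) (w k i) R))
      - 2 * π * aa ι z τ Q e k| ≤ 2 * π * ((∑ l, |Q l|) * (3 * ρ / s)) := by
    rw [← mul_sub, abs_mul, abs_of_pos (show 0 < 2 * π by positivity)]
    exact mul_le_mul_of_nonneg_left h2 (by positivity)
  rw [abs_le] at h1 h5 ⊢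
  constructor <;> linarith [h1.1, h1.2, h5.1, h5.2]

/-- the energy of the correction -/
lemma Bf_vv_vv (h : Good w z ρ R s d τ) (Q e : Fin n → ℝ) (hQ : ∑ k, Q k = 0) (k : Fin n) :
    Bf (vv w ρ R τ Q e k) (vv w ρ R τ Q e k) ≤
      2 * (|aa ι z τ Q e k| + (∑ l, |Q l|) * (3 * ρ / s)) ^ 2 * (2 * π * (Real.log ρ - ell ι τ k)⁻¹)
      + 2 * ((∑ l, |Q l|) * s⁻¹) ^ 2 * (π * (2 * ρ) ^ 2) := by
  set F : ℝ := |aa ι z τ Q e k| + (∑ l, |Q l|) * (3 * ρ / s) with hF
  set L : ℝ := (∑ l, |Q l|) * s⁻¹ with hL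
  have hρ := h.hρ
  have hcut := cutf_CS (w k) (z k) (h.hw k) h.hρR h.hρ (h.hτ k) (h.hpos k)
  have hvol : (volume : Measure ℂ).real (ball (z k) (2 * ρ)) = π * (2 * ρ) ^ 2 := by
    rw [Measure.real, Complex.volume_ball, ← ENNReal.ofReal_pow (by positivity), ENNReal.toReal_mul,
      ENNReal.toReal_ofReal (by positivity)]
    rw [mul_comm]
    rfl
  have hi1 : Integrable (fun x => inner ℝ (gradient (cutf (w k) R ρ (τ k)) x) (gradient (cutf (w k) R ρ (τ k)) x)) :=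
    inner_integrable hcut.1 hcut
  have hi2 : Integrable ((ball (z k) (2 * ρ)).indicator fun _ : ℂ => (2 * L ^ 2 : ℝ)) :=
    (integrable_indicator_iff measurableSet_ball).mpr
      (integrableOn_const (measure_ball_lt_top.ne) (by exact enorm_ne_top))
  have h1 : Bf (vv w ρ R τ Q e k) (vv w ρ R τ Q e k) ≤
      ∫ x, (2 * F ^ 2 * inner ℝ (gradient (cutf (w k) R ρ (τ k)) x) (gradient (cutf (w k) R ρ (τ k)) x)
        + (ball (z k) (2 * ρ)).indicator (fun _ : ℂ => (2 * L ^ 2 : ℝ)) x) := by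
    unfold Bf
    apply integral_mono_ae (inner_integrable (h.vv_CS Q e k).1 (h.vv_CS Q e k)) ((hi1.const_mul _).add hi2)
    filter_upwards [gradient_mul' (h.ff_LL Q e k) (cutf_LL (w k) (R := R) (ρ := ρ) (h.hτ k)), h.grad_ff Q e k,
      gradient_cutf (w k) (R := R) (h.hpos k) (h.hτ k)] with x g1 g2 g3
    have hv : gradient (vv w ρ R τ Q e k) x = gradient (fun x => ff w R τ Q e k x * cutf (w k) R ρ (τ k) x) x := rfl
    rw [hv, g1, real_inner_self_eq_norm_sq, Pi.add_apply, real_inner_self_eq_norm_sq]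
    by_cases hx : ‖x - z k‖ < 2 * ρ
    · rw [indicator_of_mem (by rwa [mem_ball, dist_eq_norm])]
      have hf := h.ff_near Q e hQ k hx
      have hF2 : |ff w R τ Q e k x| ≤ F := by
        have := abs_sub_abs_le_abs_sub (ff w R τ Q e k x) (aa ι z τ Q e k)
        rw [hF]; linarith
      have n1 : ‖ff w R τ Q e k x • gradient (cutf (w k) R ρ (τ k)) x‖ ≤ F * ‖gradient (cutf (w k) R ρ (τ k)) x‖ := by
        rw [norm_smul, Real.norm_eq_abs]
        exact mul_le_mul_of_nonneg_right hF2 (norm_nonneg _)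
      have n2 : ‖cutf (w k) R ρ (τ k) x • gradient (ff w R τ Q e k) x‖ ≤ L := by
        rw [norm_smul, Real.norm_eq_abs, abs_of_nonneg (cutf_nonneg (w k) x)]
        calc cutf (w k) R ρ (τ k) x * ‖gradient (ff w R τ Q e k) x‖ ≤ 1 * L :=
              mul_le_mul (cutf_le_one (w k) (h.hpos k) (h.hτ k) x) (g2 hx) (norm_nonneg _) zero_le_one
          _ = L := one_mul _
      have n3 := norm_add_le (ff w R τ Q e k x • gradient (cutf (w k) R ρ (τ k)) x) (cutf (w k) R ρ (τ k) x • gradient (ff w R τ Q e k) x)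
      have n4 : ‖ff w R τ Q e k x • gradient (cutf (w k) R ρ (τ k)) x + cutf (w k) R ρ (τ k) x • gradient (ff w R τ Q e k) x‖
        ≤ F * ‖gradient (cutf (w k) R ρ (τ k)) x‖ + L := n3.trans (add_le_add n1 n2)
      calc ‖ff w R τ Q e k x • gradient (cutf (w k) R ρ (τ k)) x + cutf (w k) R ρ (τ k) x • gradient (ff w R τ Q e k) x‖ ^ 2
          ≤ (F * ‖gradient (cutf (w k) R ρ (τ k)) x‖ + L) ^ 2 := pow_le_pow_left₀ (norm_nonneg _) n4 2
        _ ≤ _ := by nlinarith [sq_nonneg (F * ‖gradient (cutf (w k) R ρ (τ k)) x‖ - L)]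
    · have hx' := not_lt.mp hx
      have c1 := pot_le_of_far (w k) (z k) (τ := τ k) (h.hw k) h.hρR h.hρ hx'
      have c2 : gradient (cutf (w k) R ρ (τ k)) x = 0 := by
        rw [g3, if_neg (not_lt.mpr c1)]
      have c3 : cutf (w k) R ρ (τ k) x = 0 := cutf_eq_zero (w k) (h.hpos k) c1
      rw [c2, c3, indicator_of_notMem (by rw [mem_ball, dist_eq_norm]; exact hx)]
      simp
  refine h1.trans ?_
  rw [integral_add (hi1.const_mul _) hi2, integral_const_mul, integral_indicator_const _ measurableSet_ball,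
    hvol, smul_eq_mul]
  have h2 := Bf_cutf (w k) (R := R) h.hρR h.hρ (h.hτ k) (h.hpos k)
  have h3 := mul_le_mul_of_nonneg_left h2 (show 0 ≤ 2 * F ^ 2 by positivity)
  unfold Bf at h3
  have h4 : 2 * F ^ 2 * (2 * π * (Real.log ρ - (Fintype.card (ι k) : ℝ)⁻¹ * Real.log (τ k))⁻¹)
    = 2 * F ^ 2 * (2 * π * (Real.log ρ - ell ι τ k)⁻¹) := rfl
  rw [h4] at h3
  linarith

end Good

end Pool.Agent.Helper828.Cap
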