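import Pool.Agent.Helper828.CapE3

/-! Upper bound: assembly. -/

namespace Pool.Agent.Helper828.Cap

open Set Filter Topology MeasureTheory Metric Real

lemma Bf_add_left {φ f g : ℂ → ℝ} (hφ : LocallyLipschitz φ) (hf : CS f) (hg : CS g) :
    Bf (fun x => f x + g x) φ = Bf f φ + Bf g φ := by
  rw [Bf_comm, Bf_add_right hφ hf hg, Bf_comm φ f, Bf_comm φ g]

lemma Bf_const_mul_left {φ f : ℂ → ℝ} (c : ℝ) (hf : LocallyLipschitz f) :
    Bf (fun x => c * f x) φ = c * Bf f φ := by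
  rw [Bf_comm, Bf_const_mul_right c hf, Bf_comm φ f]

lemma Bf_sum_left {ι : Type*} (s : Finset ι) {φ : ℂ → ℝ} {f : ι → ℂ → ℝ} (hφ : LocallyLipschitz φ)
    (hf : ∀ i ∈ s, CS (f i)) : Bf (fun x => ∑ i ∈ s, f i x) φ = ∑ i ∈ s, Bf (f i) φ := by
  rw [Bf_comm, Bf_sum_right s hφ hf]
  exact Finset.sum_congr rfl fun i _ => Bf_comm _ _

lemma Bf_le_half {f g : ℂ → ℝ} (hf : CS f) (hg : CS g) : Bf f g ≤ (Bf f f + Bf g g) / 2 := by
  unfold Bf
  have h1 := inner_integrable hf.1 hf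
  have h2 := inner_integrable hg.1 hg
  have h3 := inner_integrable hf.1 hg
  rw [← integral_add h1 h2, ← integral_div]
  apply integral_mono h3 ((h1.add h2).div_const 2)
  intro x
  simp only [Pi.add_apply]
  have h := sq_nonneg ‖gradient f x - gradient g x‖
  rw [norm_sub_sq_real] at h
  rw [real_inner_self_eq_norm_sq, real_inner_self_eq_norm_sq]
  linarith

namespace Good

variable {n : ℕ} {ι : Fin n → Type} [∀ k, Fintype (ι k)] [∀ k, Nonempty (ι k)] {w : ∀ k, ι k → ℂ}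
  {z : Fin n → ℂ} {ρ R s d : ℝ} {τ : Fin n → ℝ}

/-- one summand -/
noncomputable def HH (w : ∀ k, ι k → ℂ) (ρ R : ℝ) (τ : Fin n → ℝ) (Q e : Fin n → ℝ) (k : Fin n) (x : ℂ) : ℝ :=
  Q k * pot (w k) R (τ k) x + vv w ρ R τ Q e k x

/-- the total -/
noncomputable def hh (w : ∀ k, ι k → ℂ) (ρ R : ℝ) (τ : Fin n → ℝ) (Q e : Fin n → ℝ) (x : ℂ) : ℝ :=
  ∑ k, HH w ρ R τ Q e k x

lemma pCS (h : Good w z ρ R s d τ) (k : Fin n) : CS (pot (w k) R (τ k)) := pot_CS _ (h.hτ k) (h.hτR k)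

lemma HH_CS (h : Good w z ρ R s d τ) (Q e : Fin n → ℝ) (k : Fin n) : CS (HH w ρ R τ Q e k) :=
  ((h.pCS k).const_mul (Q k)).add (h.vv_CS Q e k)

lemma hh_CS (h : Good w z ρ R s d τ) (Q e : Fin n → ℝ) : CS (hh w ρ R τ Q e) :=
  CS.sum _ fun k _ => h.HH_CS Q e k

lemma hh_plate (h : Good w z ρ R s d τ) (Q e : Fin n → ℝ) (k : Fin n) {x : ℂ} (hx : Pf (w k) R x ≤ τ k) :
    hh w ρ R τ Q e x = e k := by
  have hx2 := near_of_Pf_le (w k) (z k) (h.hw k) h.hρR h.hρ (h.hτρ k) hx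
  unfold hh
  rw [← Finset.add_sum_erase _ _ (Finset.mem_univ k)]
  have h1 : ∑ l ∈ Finset.univ.erase k, HH w ρ R τ Q e l x = ∑ l ∈ Finset.univ.erase k, Q l * pot (w l) R (τ l) x := by
    refine Finset.sum_congr rfl fun l hl => ?_
    unfold HH
    rw [h.vv_far Q e l (h.far_other (Finset.ne_of_mem_erase hl).symm hx2), add_zero]
  rw [h1]
  unfold HH vv ff
  rw [cutf_eq_one (w k) (h.hpos k) hx, pot_of_le (w k) hx]
  unfold ell
  ring

lemma Bf_HH_HH (h : Good w z ρ R s d τ) (Q e : Fin n → ℝ) (k l : Fin n) :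
    Bf (HH w ρ R τ Q e k) (HH w ρ R τ Q e l) =
      Q k * Q l * Bf (pot (w k) R (τ k)) (pot (w l) R (τ l))
      + Q k * Bf (vv w ρ R τ Q e l) (pot (w k) R (τ k)) + Q l * Bf (vv w ρ R τ Q e k) (pot (w l) R (τ l))
      + Bf (vv w ρ R τ Q e k) (vv w ρ R τ Q e l) := by
  have e1 : Bf (HH w ρ R τ Q e k) (HH w ρ R τ Q e l) =
    Bf (fun x => Q k * pot (w k) R (τ k) x + vv w ρ R τ Q e k x) (fun x => Q l * pot (w l) R (τ l) x + vv w ρ R τ Q e l x) := rfl
  have hk : LocallyLipschitz (fun x => Q k * pot (w k) R (τ k) x + vv w ρ R τ Q e k x) := (h.HH_CS Q e k).1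
  rw [e1, Bf_add_right hk ((h.pCS l).const_mul (Q l)) (h.vv_CS Q e l),
    Bf_const_mul_right _ (h.pCS l).1,
    Bf_add_left (h.pCS l).1 ((h.pCS k).const_mul (Q k)) (h.vv_CS Q e k),
    Bf_add_left (h.vv_CS Q e l).1 ((h.pCS k).const_mul (Q k)) (h.vv_CS Q e k),
    Bf_const_mul_left _ (h.pCS k).1, Bf_const_mul_left _ (h.pCS k).1,
    Bf_comm (pot (w k) R (τ k)) (vv w ρ R τ Q e l)]
  ring

/-- the error constants -/
noncomputable def e1 (ρ R s d : ℝ) : ℝ := 2 * π * (3 * ρ / s + (Real.log R - Real.log (R - d))) + 6 * π * ρ * s⁻¹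
noncomputable def e2 (ρ s : ℝ) : ℝ := 2 * π * (3 * ρ / s) + 6 * π * ρ * s⁻¹
noncomputable def EV (ι : Fin n → Type) [∀ k, Fintype (ι k)] (z : Fin n → ℂ) (ρ s : ℝ) (τ Q e : Fin n → ℝ) (k : Fin n) : ℝ :=
      2 * (|aa ι z τ Q e k| + (∑ l, |Q l|) * (3 * ρ / s)) ^ 2 * (2 * π * (Real.log ρ - ell ι τ k)⁻¹)
      + 2 * ((∑ l, |Q l|) * s⁻¹) ^ 2 * (π * (2 * ρ) ^ 2)

theorem UB_fix (h : Good w z ρ R s d τ) (Q e : Fin n → ℝ) (hQ : ∑ k, Q k = 0) :
    Bf (hh w ρ R τ Q e) (hh w ρ R τ Q e) ≤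
      4 * π * ∑ k, Q k * e k + 2 * π * (∑ k, Q k ^ 2 * ell ι τ k
        + ∑ k, ∑ l ∈ Finset.univ.erase k, Q k * Q l * Real.log ‖z k - z l‖)
      + (∑ k, |Q k|) ^ 2 * (e1 ρ R s d + 2 * e2 ρ s) + n * ∑ k, EV ι z ρ s τ Q e k := by
  set S : ℝ := ∑ k, |Q k| with hS
  have hS0 : 0 ≤ S := Finset.sum_nonneg fun _ _ => abs_nonneg _
  have hρ := h.hρ
  have hs := h.hs
  have hR0 := h.hR0
  have he10 : 0 ≤ e1 ρ R s d := by
    unfold e1
    have h1 : Real.log (R - d) ≤ Real.log R :=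
      Real.log_le_log (sub_pos.mpr h.hR) (by have := h.hd0; linarith)
    have h2 : 0 ≤ 3 * ρ / s := by positivity
    have h3 : 0 ≤ 6 * π * ρ * s⁻¹ := by positivity
    have h4 : 0 ≤ 2 * π * (3 * ρ / s + (Real.log R - Real.log (R - d))) :=
      mul_nonneg (by positivity) (by linarith)
    linarith
  have hexp : Bf (hh w ρ R τ Q e) (hh w ρ R τ Q e) = ∑ k, ∑ l, Bf (HH w ρ R τ Q e k) (HH w ρ R τ Q e l) := by
    have e1 : Bf (hh w ρ R τ Q e) (hh w ρ R τ Q e) =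
      Bf (hh w ρ R τ Q e) (fun x => ∑ k, HH w ρ R τ Q e k x) := rfl
    rw [e1, Bf_sum_right _ (h.hh_CS Q e).1 fun k _ => h.HH_CS Q e k, Finset.sum_comm]
    refine Finset.sum_congr rfl fun l _ => ?_
    exact Bf_sum_left _ (h.HH_CS Q e l).1 fun k _ => h.HH_CS Q e k
  -- bound each (k, l)
  have hpair : ∀ k, ∑ l, Bf (HH w ρ R τ Q e k) (HH w ρ R τ Q e l) ≤
      (Q k ^ 2 * (2 * π * (Real.log R - ell ι τ k)) + 2 * (Q k * (2 * π * aa ι z τ Q e k) + |Q k| * (S * e2 ρ s)))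
      + ∑ l ∈ Finset.univ.erase k, (Q k * Q l * (2 * π * (Real.log R - Real.log ‖z k - z l‖)) + |Q k * Q l| * e1 ρ R s d)
      + ∑ l, (EV ι z ρ s τ Q e k + EV ι z ρ s τ Q e l) / 2 := by
    intro k
    have hsplit : ∑ l, Bf (HH w ρ R τ Q e k) (HH w ρ R τ Q e l) =
        ∑ l, (Bf (HH w ρ R τ Q e k) (HH w ρ R τ Q e l) - Bf (vv w ρ R τ Q e k) (vv w ρ R τ Q e l))
        + ∑ l, Bf (vv w ρ R τ Q e k) (vv w ρ R τ Q e l) := by
      rw [← Finset.sum_add_distrib]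
      exact Finset.sum_congr rfl fun l _ => by ring
    rw [hsplit]
    apply add_le_add
    · rw [← Finset.add_sum_erase _ _ (Finset.mem_univ k)]
      apply add_le_add
      · rw [h.Bf_HH_HH]
        have b1 := Bf_pot_self (w k) h.hR0 (h.hτ k) (h.hτR k)
        have b2 := h.Bf_vv_self Q e hQ k
        have b3 : Q k * Q k * Bf (pot (w k) R (τ k)) (pot (w k) R (τ k)) ≤ Q k ^ 2 * (2 * π * (Real.log R - ell ι τ k)) := by
          rw [← sq]; exact mul_le_mul_of_nonneg_left b1 (sq_nonneg _)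
        have b4 : Q k * Bf (vv w ρ R τ Q e k) (pot (w k) R (τ k)) ≤ Q k * (2 * π * aa ι z τ Q e k) + |Q k| * (S * e2 ρ s) := by
          have b5 : Q k * (Bf (vv w ρ R τ Q e k) (pot (w k) R (τ k)) - 2 * π * aa ι z τ Q e k) ≤ |Q k| * (S * e2 ρ s) := by
            calc Q k * (Bf (vv w ρ R τ Q e k) (pot (w k) R (τ k)) - 2 * π * aa ι z τ Q e k)
                ≤ |Q k * (Bf (vv w ρ R τ Q e k) (pot (w k) R (τ k)) - 2 * π * aa ι z τ Q e k)| := le_abs_self _
              _ = |Q k| * |Bf (vv w ρ R τ Q e k) (pot (w k) R (τ k)) - 2 * π * aa ι z τ Q e k| := abs_mul _ _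
              _ ≤ |Q k| * (S * e2 ρ s) := by
                  apply mul_le_mul_of_nonneg_left _ (abs_nonneg _)
                  refine b2.trans (le_of_eq ?_)
                  rw [← hS]; unfold e2; ring
          linarith
        linarith
      · refine Finset.sum_le_sum fun l hl => ?_
        have hlk : k ≠ l := (Finset.ne_of_mem_erase hl).symm
        rw [h.Bf_HH_HH, h.Bf_vv_other Q e hlk, h.Bf_vv_other Q e hlk.symm]
        have b1 := h.Bf_pot_pot hlk.symm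
        rw [norm_sub_rev (z l) (z k)] at b1
        have b5 : Q k * Q l * (Bf (pot (w k) R (τ k)) (pot (w l) R (τ l)) - 2 * π * (Real.log R - Real.log ‖z k - z l‖))
            ≤ |Q k * Q l| * e1 ρ R s d := by
          calc Q k * Q l * (Bf (pot (w k) R (τ k)) (pot (w l) R (τ l)) - 2 * π * (Real.log R - Real.log ‖z k - z l‖))
              ≤ |Q k * Q l * (Bf (pot (w k) R (τ k)) (pot (w l) R (τ l)) - 2 * π * (Real.log R - Real.log ‖z k - z l‖))| := le_abs_self _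
            _ = |Q k * Q l| * |Bf (pot (w k) R (τ k)) (pot (w l) R (τ l)) - 2 * π * (Real.log R - Real.log ‖z k - z l‖)| := abs_mul _ _
            _ ≤ _ := mul_le_mul_of_nonneg_left b1 (abs_nonneg _)
        linarith
    · refine Finset.sum_le_sum fun l _ => ?_
      have b1 := Bf_le_half (h.vv_CS Q e k) (h.vv_CS Q e l)
      have b2 := h.Bf_vv_vv Q e hQ k
      have b3 := h.Bf_vv_vv Q e hQ l
      unfold EV
      linarith
  rw [hexp]
  refine (Finset.sum_le_sum fun k _ => hpair k).trans ?_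
  -- algebra
  have hQsq : ∑ k, Q k ^ 2 + ∑ k, ∑ l ∈ Finset.univ.erase k, Q k * Q l = 0 := by
    rw [← Finset.sum_add_distrib]
    have : ∀ k, Q k ^ 2 + ∑ l ∈ Finset.univ.erase k, Q k * Q l = Q k * ∑ l, Q l := by
      intro k
      rw [← Finset.add_sum_erase _ _ (Finset.mem_univ k), mul_add, Finset.mul_sum]
      ring
    simp only [this, hQ, mul_zero, Finset.sum_const_zero]
  have hA : ∑ k, Q k * aa ι z τ Q e k = ∑ k, Q k * e k + ∑ k, Q k ^ 2 * ell ι τ k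
      + ∑ k, ∑ l ∈ Finset.univ.erase k, Q k * Q l * Real.log ‖z k - z l‖ := by
    rw [← Finset.sum_add_distrib, ← Finset.sum_add_distrib]
    refine Finset.sum_congr rfl fun k _ => ?_
    unfold aa
    rw [mul_add, mul_add, Finset.mul_sum]
    congr 1
    · ring
    · exact Finset.sum_congr rfl fun l _ => by ring
  have hEV : ∑ k, ∑ l, (EV ι z ρ s τ Q e k + EV ι z ρ s τ Q e l) / 2 = n * ∑ k, EV ι z ρ s τ Q e k := by
    simp only [← Finset.sum_div, Finset.sum_add_distrib, Finset.sum_const, Finset.card_univ,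
      Fintype.card_fin, nsmul_eq_mul, ← Finset.mul_sum]
    ring
  have hSS : ∑ k, ∑ l ∈ Finset.univ.erase k, |Q k * Q l| * e1 ρ R s d ≤ S ^ 2 * e1 ρ R s d := by
    simp only [← Finset.sum_mul]
    apply mul_le_mul_of_nonneg_right _ he10
    rw [sq, hS, Finset.sum_mul_sum]
    refine Finset.sum_le_sum fun k _ => ?_
    simp only [abs_mul]
    exact Finset.sum_le_sum_of_subset_of_nonneg (Finset.erase_subset _ _) fun l _ _ =>
      mul_nonneg (abs_nonneg _) (abs_nonneg _)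
  have hX1 : ∑ k, (Q k ^ 2 * (2 * π * (Real.log R - ell ι τ k)) + 2 * (Q k * (2 * π * aa ι z τ Q e k) + |Q k| * (S * e2 ρ s)))
      = 2 * π * Real.log R * ∑ k, Q k ^ 2 - 2 * π * ∑ k, Q k ^ 2 * ell ι τ k + 4 * π * ∑ k, Q k * aa ι z τ Q e k
        + 2 * (S * (S * e2 ρ s)) := by
    have : S * (S * e2 ρ s) = ∑ k, |Q k| * (S * e2 ρ s) := by
      rw [← Finset.sum_mul]
    rw [this]
    simp only [Finset.mul_sum]
    rw [← Finset.sum_sub_distrib, ← Finset.sum_add_distrib, ← Finset.sum_add_distrib]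
    exact Finset.sum_congr rfl fun k _ => by ring
  have hX2 : ∑ k, ∑ l ∈ Finset.univ.erase k, (Q k * Q l * (2 * π * (Real.log R - Real.log ‖z k - z l‖)) + |Q k * Q l| * e1 ρ R s d)
      = 2 * π * Real.log R * ∑ k, ∑ l ∈ Finset.univ.erase k, Q k * Q l
        - 2 * π * ∑ k, ∑ l ∈ Finset.univ.erase k, Q k * Q l * Real.log ‖z k - z l‖
        + ∑ k, ∑ l ∈ Finset.univ.erase k, |Q k * Q l| * e1 ρ R s d := by
    simp only [Finset.mul_sum]
    rw [← Finset.sum_sub_distrib, ← Finset.sum_add_distrib]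
    refine Finset.sum_congr rfl fun k _ => ?_
    rw [← Finset.sum_sub_distrib, ← Finset.sum_add_distrib]
    exact Finset.sum_congr rfl fun l _ => by ring
  rw [Finset.sum_add_distrib, Finset.sum_add_distrib, hX1, hX2, hEV, hA]
  have hlogQ : 2 * π * Real.log R * ∑ k, Q k ^ 2 + 2 * π * Real.log R * ∑ k, ∑ l ∈ Finset.univ.erase k, Q k * Q l = 0 := by
    rw [← mul_add, hQsq, mul_zero]
  nlinarith [hlogQ, hSS]

end Good

end Pool.Agent.Helper828.Cap
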