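import Pool.Agent.Helper828.CapD2

/-! Fekete points. -/

namespace Pool.Agent.Helper828.Cap

open Set Filter Topology MeasureTheory Metric Real

/-- full product over ordered pairs -/
noncomputable def GG {M : ℕ} (w : Fin M → ℂ) : ℝ := ∏ a, ∏ b ∈ Finset.univ.erase a, ‖w a - w b‖

lemma GG_eq {M : ℕ} (w : Fin M → ℂ) : GG w = VV w ^ 2 := by
  have h1 : ∀ i : Fin M, ∏ j ∈ Finset.univ.erase i, ‖w i - w j‖
      = (∏ j ∈ Finset.Ioi i, ‖w i - w j‖) * ∏ j ∈ Finset.Iio i, ‖w i - w j‖ := by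
    intro i
    have hu : (Finset.univ : Finset (Fin M)).erase i = Finset.Ioi i ∪ Finset.Iio i := by
      ext j
      simp only [Finset.mem_erase, Finset.mem_univ, and_true, Finset.mem_union, Finset.mem_Ioi, Finset.mem_Iio]
      constructor
      · intro h
        rcases lt_or_gt_of_ne h with h | h
        · exact Or.inr h
        · exact Or.inl h
      · rintro (h | h)
        · exact h.ne'
        · exact h.ne
    rw [hu, Finset.prod_union]
    rw [Finset.disjoint_left]
    intro j hj hj2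
    exact lt_asymm (Finset.mem_Ioi.mp hj) (Finset.mem_Iio.mp hj2)
  unfold GG VV
  simp only [h1, Finset.prod_mul_distrib]
  have h2 : ∏ i : Fin M, ∏ j ∈ Finset.Iio i, ‖w i - w j‖ = ∏ i : Fin M, ∏ j ∈ Finset.Ioi i, ‖w i - w j‖ := by
    rw [Finset.prod_comm' (t' := Finset.univ) (s' := fun j => Finset.Ioi j)]
    · refine Finset.prod_congr rfl fun i _ => Finset.prod_congr rfl fun j _ => norm_sub_rev _ _
    · intro i j; simp
  rw [h2, sq]

lemma GG_split {M : ℕ} (w : Fin M → ℂ) (i : Fin M) :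
    GG w = (∏ b ∈ Finset.univ.erase i, ‖w i - w b‖) ^ 2 *
      ∏ a ∈ Finset.univ.erase i, ∏ b ∈ (Finset.univ.erase a).erase i, ‖w a - w b‖ := by
  unfold GG
  rw [← Finset.mul_prod_erase _ _ (Finset.mem_univ i)]
  have h1 : ∏ a ∈ Finset.univ.erase i, ∏ b ∈ Finset.univ.erase a, ‖w a - w b‖ =
      ∏ a ∈ Finset.univ.erase i, (‖w a - w i‖ * ∏ b ∈ (Finset.univ.erase a).erase i, ‖w a - w b‖) := by
    refine Finset.prod_congr rfl fun a ha => ?_
    rw [← Finset.mul_prod_erase (Finset.univ.erase a) _ (Finset.mem_erase.mpr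
      ⟨(Finset.ne_of_mem_erase ha).symm, Finset.mem_univ i⟩)]
  rw [h1, Finset.prod_mul_distrib]
  have h2 : ∏ a ∈ Finset.univ.erase i, ‖w a - w i‖ = ∏ a ∈ Finset.univ.erase i, ‖w i - w a‖ :=
    Finset.prod_congr rfl fun a _ => norm_sub_rev _ _
  rw [h2]; ring

lemma VV_nonneg {M : ℕ} (w : Fin M → ℂ) : 0 ≤ VV w :=
  Finset.prod_nonneg fun _ _ => Finset.prod_nonneg fun _ _ => norm_nonneg _

/-- the replacement inequality -/
lemma replace_le {M : ℕ} (w : Fin M → ℂ) (hw : VV w ≠ 0) (i : Fin M) (x : ℂ)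
    (h : VV (Function.update w i x) ≤ VV w) :
    ∏ b ∈ Finset.univ.erase i, ‖x - w b‖ ≤ ∏ b ∈ Finset.univ.erase i, ‖w i - w b‖ := by
  have h1 : GG (Function.update w i x) ≤ GG w := by
    rw [GG_eq, GG_eq]
    exact pow_le_pow_left₀ (VV_nonneg _) h 2
  rw [GG_split w i, GG_split (Function.update w i x) i] at h1
  have e1 : ∏ b ∈ Finset.univ.erase i, ‖Function.update w i x i - Function.update w i x b‖ =
      ∏ b ∈ Finset.univ.erase i, ‖x - w b‖ := by
    refine Finset.prod_congr rfl fun b hb => ?_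
    rw [Function.update_self, Function.update_of_ne (Finset.ne_of_mem_erase hb)]
  have e2 : ∏ a ∈ Finset.univ.erase i, ∏ b ∈ (Finset.univ.erase a).erase i,
      ‖Function.update w i x a - Function.update w i x b‖ =
      ∏ a ∈ Finset.univ.erase i, ∏ b ∈ (Finset.univ.erase a).erase i, ‖w a - w b‖ := by
    refine Finset.prod_congr rfl fun a ha => Finset.prod_congr rfl fun b hb => ?_
    rw [Function.update_of_ne (Finset.ne_of_mem_erase ha), Function.update_of_ne (Finset.ne_of_mem_erase hb)]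
  rw [e1, e2] at h1
  set W : ℝ := ∏ a ∈ Finset.univ.erase i, ∏ b ∈ (Finset.univ.erase a).erase i, ‖w a - w b‖ with hW
  have hW0 : 0 ≤ W := Finset.prod_nonneg fun _ _ => Finset.prod_nonneg fun _ _ => norm_nonneg _
  have hWpos : 0 < W := by
    rcases hW0.eq_or_lt with h0 | h0
    · exfalso
      apply hw
      have : GG w = 0 := by rw [GG_split w i, ← hW, ← h0, mul_zero]
      rw [GG_eq] at this
      exact pow_eq_zero_iff (two_ne_zero) |>.mp this
    · exact h0
  have h2 := le_of_mul_le_mul_right h1 hWpos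
  exact le_of_sq_le_sq h2 (Finset.prod_nonneg fun _ _ => norm_nonneg _)

/-- **Fekete points.** -/
lemma fekete {E : Set ℂ} (hE : IsCompact E) (m : ℕ) (hpos : 0 < tdm E m) :
    ∃ w : Fin (m+2) → ℂ, (∀ i, w i ∈ E) ∧ ∀ x ∈ E, ∏ i, ‖x - w i‖ ≤ tdm E m ^ (m+2) := by
  have hne : Nonempty (Fin (m+2) → E) := by
    by_contra h
    rw [not_nonempty_iff] at h
    unfold tdm at hpos
    rw [Real.iSup_of_isEmpty] at hpos
    linarith
  have : CompactSpace E := isCompact_iff_compactSpace.mp hE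
  set f : (Fin (m+2) → E) → ℝ := fun w => VV (fun i => (w i : ℂ)) with hf
  have hfc : Continuous f := by
    rw [hf]
    unfold VV
    apply continuous_finsetProd
    intro i _
    apply continuous_finsetProd
    intro j _
    fun_prop
  obtain ⟨w, -, hwmax⟩ := isCompact_univ.exists_isMaxOn (univ_nonempty) hfc.continuousOn
  have hmax : ∀ w', f w' ≤ f w := fun w' => hwmax (mem_univ w')
  set α : ℝ := (2:ℝ) / (((m:ℝ) + 2) * ((m:ℝ) + 1)) with hα
  have hα0 : 0 < α := by positivity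
  have htd : tdm E m ≤ f w ^ α := by
    unfold tdm
    apply ciSup_le
    intro w'
    exact Real.rpow_le_rpow (VV_nonneg _) (hmax w') hα0.le
  have htd2 : f w ^ α ≤ tdm E m := by
    unfold tdm
    refine le_ciSup (f := fun w : Fin (m+2) → E => (∏ i : Fin (m+2), ∏ j ∈ Finset.Ioi i, ‖(w i : ℂ) - (w j : ℂ)‖)
            ^ ((2:ℝ) / (((m:ℝ) + 2) * ((m:ℝ) + 1)))) ?_ w
    refine ⟨f w ^ α, ?_⟩
    rintro _ ⟨w', rfl⟩
    exact Real.rpow_le_rpow (VV_nonneg _) (hmax w') hα0.le
  have hVpos : 0 < f w := by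
    rcases (VV_nonneg (fun i => (w i : ℂ))).eq_or_lt with h | h
    · exfalso
      have h0 : f w = 0 := h.symm
      rw [h0, Real.zero_rpow hα0.ne'] at htd
      linarith
    · exact h
  refine ⟨fun i => (w i : ℂ), fun i => (w i).2, fun x hx => ?_⟩
  have hrep : ∀ i, ∏ b ∈ Finset.univ.erase i, ‖x - (w b : ℂ)‖ ≤ ∏ b ∈ Finset.univ.erase i, ‖(w i : ℂ) - w b‖ := by
    intro i
    refine replace_le (fun i => (w i : ℂ)) hVpos.ne' i x ?_
    have h1 := hmax (Function.update w i ⟨x, hx⟩)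
    have h2 : (fun j => ((Function.update w i ⟨x, hx⟩ j : E) : ℂ)) = Function.update (fun i => (w i : ℂ)) i x := by
      funext j
      by_cases hj : j = i
      · subst hj; simp
      · rw [Function.update_of_ne hj, Function.update_of_ne hj]
    simp only [hf] at h1
    rw [h2] at h1
    exact h1
  have hP0 : 0 ≤ ∏ i, ‖x - (w i : ℂ)‖ := Finset.prod_nonneg fun _ _ => norm_nonneg _
  have h3 : (∏ i, ‖x - (w i : ℂ)‖) ^ (m+1) ≤ f w ^ 2 := by
    have e1 : ∏ i, ∏ b ∈ Finset.univ.erase i, ‖x - (w b : ℂ)‖ ≤ f w ^ 2 := by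
      have e2 : f w ^ 2 = GG (fun i => (w i : ℂ)) := (GG_eq _).symm
      rw [e2]
      exact Finset.prod_le_prod (fun _ _ => Finset.prod_nonneg fun _ _ => norm_nonneg _) fun i _ => hrep i
    have e3 : ∏ i, ∏ b ∈ Finset.univ.erase i, ‖x - (w b : ℂ)‖ = (∏ i, ‖x - (w i : ℂ)‖) ^ (m+1) := by
      rw [Finset.prod_comm' (t' := Finset.univ) (s' := fun j => Finset.univ.erase j)]
      · rw [← Finset.prod_pow]
        refine Finset.prod_congr rfl fun i _ => ?_
        rw [Finset.prod_const, Finset.card_erase_of_mem (Finset.mem_univ i), Finset.card_univ, Fintype.card_fin]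
        rfl
      · intro i j; simp [eq_comm]
    rw [← e3]; exact e1
  have h4 : f w ^ 2 ≤ (tdm E m ^ (m+2)) ^ (m+1) := by
    rw [← pow_mul]
    calc f w ^ 2 = (f w ^ α) ^ ((m+2)*(m+1)) := by
          rw [← Real.rpow_natCast (f w ^ α), ← Real.rpow_mul hVpos.le, ← Real.rpow_natCast (f w)]
          congr 1
          rw [hα]
          push_cast
          field_simp
      _ ≤ _ := pow_le_pow_left₀ (Real.rpow_nonneg hVpos.le _) htd2 _
  exact le_of_pow_le_pow_left₀ (n := m+1) (by omega) (by positivity) (h3.trans h4)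

end Pool.Agent.Helper828.Cap
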