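import Pool.Agent.Helper828.CapE4
import Pool.Agent.Helper828.CapFek

/-! The two-sided bounds for the capacity. -/

namespace Pool.Agent.Helper828.Cap

open Set Filter Topology MeasureTheory Metric Real

/-- the condenser capacity -/
noncomputable def cap {n : ℕ} (E : Fin n → Set ℂ) (δ : Fin n → ℝ) : ENNReal :=
  ⨅ (u : ℂ → ℝ) (_ : LocallyLipschitz u ∧ (∃ c : ℝ, Tendsto u (cocompact ℂ) (𝓝 c)) ∧
              ∀ k, ∀ x ∈ E k, u x = δ k),
            ∫⁻ x, (‖fderiv ℝ u x‖₊ : ENNReal) ^ 2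

lemma lint_fderiv {u : ℂ → ℝ} (hi : Integrable fun x => ‖gradient u x‖ ^ 2) :
    ∫⁻ x, (‖fderiv ℝ u x‖₊ : ENNReal) ^ 2 = ENNReal.ofReal (∫ x, ‖gradient u x‖ ^ 2) := by
  rw [ofReal_integral_eq_lintegral_ofReal hi (Eventually.of_forall fun x => by positivity)]
  congr 1
  funext x
  rw [norm_grad, ENNReal.ofReal_pow (norm_nonneg _), ofReal_norm]
  rfl

lemma integrable_of_lint {u : ℂ → ℝ} (h : ∫⁻ x, (‖fderiv ℝ u x‖₊ : ENNReal) ^ 2 ≠ ⊤) :
    Integrable fun x => ‖gradient u x‖ ^ 2 := by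
  refine ⟨((measurable_grad u).norm.pow_const 2).aestronglyMeasurable, ?_⟩
  rw [hasFiniteIntegral_iff_enorm]
  have : ∀ x, ‖‖gradient u x‖ ^ 2‖ₑ = (‖fderiv ℝ u x‖₊ : ENNReal) ^ 2 := by
    intro x
    rw [norm_grad, enorm_pow, enorm_norm]
    rfl
  simp only [this]
  exact lt_top_iff_ne_top.mpr h

/-- lower bound, for all admissible functions -/
lemma le_cap {n : ℕ} {E : Fin n → Set ℂ} {δ : Fin n → ℝ} {L : ℝ} (hfin : cap E δ ≠ ⊤)
    (h : ∀ (u : ℂ → ℝ) (c : ℝ), LocallyLipschitz u → Tendsto u (cocompact ℂ) (𝓝 c) →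
      (Integrable fun x => ‖gradient u x‖ ^ 2) → (∀ k, ∀ x ∈ E k, u x = δ k) →
      L ≤ ∫ x, ‖gradient u x‖ ^ 2) : L ≤ (cap E δ).toReal := by
  rw [← ENNReal.ofReal_le_iff_le_toReal hfin]
  unfold cap
  refine le_iInf fun u => le_iInf fun hu => ?_
  obtain ⟨h1, ⟨c, h2⟩, h3⟩ := hu
  by_cases htop : ∫⁻ x, (‖fderiv ℝ u x‖₊ : ENNReal) ^ 2 = ⊤
  · rw [htop]; exact le_top
  · have hi := integrable_of_lint htop
    rw [lint_fderiv hi]
    exact ENNReal.ofReal_le_ofReal (h u c h1 h2 hi h3)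

/-- upper bound from a compactly supported perturbation of a constant -/
lemma cap_le {n : ℕ} {E : Fin n → Set ℂ} {δ : Fin n → ℝ} {g : ℂ → ℝ} {D : ℝ} (hg : CS g)
    (h : ∀ k, ∀ x ∈ E k, g x = δ k - D) : cap E δ ≤ ENNReal.ofReal (Bf g g) := by
  have hgrad : ∀ x, gradient (fun y => D + g y) x = gradient g x := by
    intro x; unfold gradient; rw [fderiv_const_add]
  have hi : Integrable fun x => ‖gradient (fun y => D + g y) x‖ ^ 2 := by
    have := inner_integrable hg.1 hg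
    simp only [hgrad]
    simpa only [real_inner_self_eq_norm_sq] using this
  unfold cap
  refine (iInf₂_le (fun y => D + g y) ⟨LL_add (LocallyLipschitz.const _) hg.1, ⟨D, ?_⟩, fun k x hx => by
    simp only; rw [h k x hx]; ring⟩).trans ?_
  · rw [lint_fderiv hi]
    apply le_of_eq
    congr 1
    unfold Bf
    simp only [hgrad, real_inner_self_eq_norm_sq]
  · obtain ⟨R0, hR0⟩ := hg.2
    have hev : ∀ᶠ x in cocompact ℂ, R0 ≤ ‖x‖ := by
      exact (tendsto_norm_cocompact_atTop (E := ℂ)).eventually_ge_atTop R0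
    refine tendsto_const_nhds.congr' ?_
    filter_upwards [hev] with x hx
    rw [hR0 x hx, add_zero]

lemma Bf_self_nonneg (g : ℂ → ℝ) : 0 ≤ Bf g g := by
  unfold Bf
  exact integral_nonneg fun x => by simp only [Pi.zero_apply]; exact real_inner_self_nonneg

/-- the main part -/
noncomputable def Phi {n : ℕ} (z : Fin n → ℂ) (Q e c : Fin n → ℝ) : ℝ :=
  4 * π * ∑ k, Q k * e k + 2 * π * (∑ k, Q k ^ 2 * c k
        + ∑ k, ∑ l ∈ Finset.univ.erase k, Q k * Q l * Real.log ‖z k - z l‖)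

/-- the defect constants -/
noncomputable def AA {n : ℕ} (z : Fin n → ℂ) (Q e c : Fin n → ℝ) (k : Fin n) : ℝ :=
  e k + Q k * c k + ∑ l ∈ Finset.univ.erase k, Q l * Real.log ‖z k - z l‖

lemma exists_R (d ρ : ℝ) (hρ : 0 < ρ) : ∃ R : ℝ, d < R ∧ Real.log R - Real.log (R - d) ≤ ρ := by
  have h1 := (log_sub_tendsto d).eventually_lt_const hρ
  have h2 := eventually_gt_atTop d
  obtain ⟨R, hR1, hR2⟩ := (h1.and h2).exists
  exact ⟨R, hR2, hR1.le⟩

theorem UB {n : ℕ} (E : Fin n → Set ℂ) (z : Fin n → ℂ) (Q δ : Fin n → ℝ) (D : ℝ) (hQ : ∑ k, Q k = 0)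
    (hEc : ∀ k, IsCompact (E k)) (hE0 : ∀ k, 0 < td (E k)) {ρ s : ℝ} (hρ : 0 < ρ) (hs : 0 < s)
    (hEz : ∀ k, E k ⊆ ball (z k) ρ) (hsep : ∀ k l, k ≠ l → 4 * ρ + s ≤ ‖z k - z l‖)
    (htd : ∀ k, Real.log (td (E k)) + ρ < Real.log ρ) :
    cap E δ ≠ ⊤ ∧ (cap E δ).toReal ≤ Phi z Q (fun k => δ k - D) (fun k => Real.log (td (E k)))
      + (∑ k, |Q k|) ^ 2 * (ρ * (36 * π / s + 4 * π))
      + n * ∑ k, (4 * π * (|AA z Q (fun k => δ k - D) (fun k => Real.log (td (E k))) k| + (∑ l, |Q l|) * (ρ + 3 * ρ / s)) ^ 2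
          * (Real.log ρ - Real.log (td (E k)) - ρ)⁻¹ + 8 * π * ((∑ l, |Q l|) * s⁻¹ * ρ) ^ 2) := by
  set S : ℝ := ∑ k, |Q k| with hS
  have hS0 : 0 ≤ S := Finset.sum_nonneg fun _ _ => abs_nonneg _
  -- choice of the tuples
  have hch : ∀ k, ∃ m : ℕ, tdm (E k) m < td (E k) * Real.exp ρ := by
    intro k
    have h1 : td (E k) < td (E k) * Real.exp ρ := by
      have : 1 < Real.exp ρ := Real.one_lt_exp_iff.mpr hρ
      nlinarith [hE0 k]
    exact exists_lt_of_ciInf_lt h1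
  choose m hm using hch
  have htdm : ∀ k, 0 < tdm (E k) (m k) := fun k => lt_of_lt_of_le (hE0 k) (td_le_tdm _ _)
  have hfek : ∀ k, ∃ w : Fin (m k + 2) → ℂ, (∀ i, w i ∈ E k) ∧
      ∀ x ∈ E k, ∏ i, ‖x - w i‖ ≤ tdm (E k) (m k) ^ (m k + 2) := fun k => fekete (hEc k) (m k) (htdm k)
  choose w hwE hwP using hfek
  set τ : Fin n → ℝ := fun k => tdm (E k) (m k) ^ (m k + 2) with hτ
  set d : ℝ := ∑ k, ∑ l, ‖z k - z l‖ + 4 * ρ with hd
  obtain ⟨R, hR1, hR2⟩ := exists_R d ρ hρ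
  have hell : ∀ k, Good.ell (fun k => Fin (m k + 2)) τ k = Real.log (tdm (E k) (m k)) := by
    intro k
    unfold Good.ell
    rw [hτ, Fintype.card_fin]
    simp only
    rw [Real.log_pow]
    have : ((m k + 2 : ℕ) : ℝ) ≠ 0 := by positivity
    field_simp
  have hl1 : ∀ k, Real.log (td (E k)) ≤ Real.log (tdm (E k) (m k)) := fun k =>
    Real.log_le_log (hE0 k) (td_le_tdm _ _)
  have hl2 : ∀ k, Real.log (tdm (E k) (m k)) ≤ Real.log (td (E k)) + ρ := by
    intro k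
    have := Real.log_le_log (htdm k) (hm k).le
    rwa [Real.log_mul (hE0 k).ne' (Real.exp_pos _).ne', Real.log_exp] at this
  have hdist0 : 0 ≤ ∑ k, ∑ l, ‖z k - z l‖ := Finset.sum_nonneg fun _ _ => Finset.sum_nonneg fun _ _ => norm_nonneg _
  have hgood : Good (ι := fun k => Fin (m k + 2)) w z ρ R s d τ := by
    refine ⟨hρ, hs, fun k i => ?_, fun k => by simp only [hτ]; exact pow_pos (htdm k) _, fun k => ?_, hsep, fun k l => ?_, ?_, hR1⟩
    · have := hEz k (hwE k i)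
      rwa [mem_ball, dist_eq_norm] at this
    · simp only [hτ, Fintype.card_fin]
      apply pow_lt_pow_left₀ _ (htdm k).le (by omega)
      rw [← Real.log_lt_log_iff (htdm k) hρ]
      linarith [hl2 k, htd k]
    · rw [hd]
      have h1 : ‖z k - z l‖ ≤ ∑ k, ∑ l, ‖z k - z l‖ := by
        calc ‖z k - z l‖ ≤ ∑ l, ‖z k - z l‖ :=
              Finset.single_le_sum (f := fun l => ‖z k - z l‖) (fun _ _ => norm_nonneg _) (Finset.mem_univ l)
          _ ≤ _ := Finset.single_le_sum (f := fun k => ∑ l, ‖z k - z l‖)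
              (fun _ _ => Finset.sum_nonneg fun _ _ => norm_nonneg _) (Finset.mem_univ k)
      linarith
    · rw [hd]; linarith
  have hplate : ∀ k, ∀ x ∈ E k, Good.hh w ρ R τ Q (fun k => δ k - D) x = δ k - D := by
    intro k x hx
    apply hgood.hh_plate
    have h1 : Pf (w k) R x ≤ ∏ i, ‖x - w k i‖ := by
      unfold Pf
      exact Finset.prod_le_prod (fun i _ => le_min hgood.hR0.le (norm_nonneg _)) fun i _ => min_le_right _ _
    exact h1.trans (hwP k x hx)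
  have hcs := hgood.hh_CS Q (fun k => δ k - D)
  have hcap := cap_le (E := E) (δ := δ) hcs hplate
  have hfin : cap E δ ≠ ⊤ := ne_top_of_le_ne_top ENNReal.ofReal_ne_top hcap
  refine ⟨hfin, ?_⟩
  have h1 : (cap E δ).toReal ≤ Bf (Good.hh w ρ R τ Q (fun k => δ k - D)) (Good.hh w ρ R τ Q (fun k => δ k - D)) := by
    have := ENNReal.toReal_mono ENNReal.ofReal_ne_top hcap
    rwa [ENNReal.toReal_ofReal (Bf_self_nonneg _)] at this
  refine h1.trans ((hgood.UB_fix Q (fun k => δ k - D) hQ).trans ?_)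
  rw [← hS]
  have hsinv : 0 < s⁻¹ := inv_pos.mpr hs
  -- error pieces
  have hQS : ∀ k, |Q k| ≤ S := fun k =>
    Finset.single_le_sum (f := fun k => |Q k|) (fun _ _ => abs_nonneg _) (Finset.mem_univ k)
  have hQ2 : ∑ k, Q k ^ 2 ≤ S ^ 2 := by
    calc ∑ k, Q k ^ 2 ≤ ∑ k, |Q k| * S := by
          refine Finset.sum_le_sum fun k _ => ?_
          rw [← sq_abs, sq]
          exact mul_le_mul_of_nonneg_left (hQS k) (abs_nonneg _)
      _ = S ^ 2 := by rw [← Finset.sum_mul, sq]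
  have p1 : ∑ k, Q k ^ 2 * Good.ell (fun k => Fin (m k + 2)) τ k ≤ ∑ k, Q k ^ 2 * Real.log (td (E k)) + S ^ 2 * ρ := by
    calc ∑ k, Q k ^ 2 * Good.ell (fun k => Fin (m k + 2)) τ k ≤ ∑ k, (Q k ^ 2 * Real.log (td (E k)) + Q k ^ 2 * ρ) := by
          refine Finset.sum_le_sum fun k _ => ?_
          rw [hell, ← mul_add]
          exact mul_le_mul_of_nonneg_left (hl2 k) (sq_nonneg _)
      _ = ∑ k, Q k ^ 2 * Real.log (td (E k)) + (∑ k, Q k ^ 2) * ρ := by
          rw [Finset.sum_add_distrib, Finset.sum_mul]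
      _ ≤ _ := by
          have := mul_le_mul_of_nonneg_right hQ2 hρ.le
          linarith
  have p2 : Good.e1 ρ R s d + 2 * Good.e2 ρ s ≤ ρ * (36 * π / s + 2 * π) := by
    unfold Good.e1 Good.e2
    have : 2 * π * (Real.log R - Real.log (R - d)) ≤ 2 * π * ρ := mul_le_mul_of_nonneg_left hR2 (by positivity)
    have e3 : ρ * (36 * π / s + 2 * π) = 2 * π * (3 * ρ / s) + 2 * π * ρ + 6 * π * ρ * s⁻¹ + 2 * (2 * π * (3 * ρ / s) + 6 * π * ρ * s⁻¹) := by
      field_simp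
      ring
    rw [e3]
    linarith
  have p3 : ∀ k, Good.EV (fun k => Fin (m k + 2)) z ρ s τ Q (fun k => δ k - D) k ≤
      4 * π * (|AA z Q (fun k => δ k - D) (fun k => Real.log (td (E k))) k| + S * (ρ + 3 * ρ / s)) ^ 2
          * (Real.log ρ - Real.log (td (E k)) - ρ)⁻¹ + 8 * π * (S * s⁻¹ * ρ) ^ 2 := by
    intro k
    unfold Good.EV
    rw [← hS]
    have q1 : |Good.aa (fun k => Fin (m k + 2)) z τ Q (fun k => δ k - D) k| ≤
        |AA z Q (fun k => δ k - D) (fun k => Real.log (td (E k))) k| + S * ρ := by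
      have q2 : Good.aa (fun k => Fin (m k + 2)) z τ Q (fun k => δ k - D) k =
        AA z Q (fun k => δ k - D) (fun k => Real.log (td (E k))) k
          + Q k * (Real.log (tdm (E k) (m k)) - Real.log (td (E k))) := by
        unfold Good.aa AA
        rw [hell]; ring
      rw [q2]
      refine (abs_add_le _ _).trans ?_
      apply add_le_add le_rfl
      rw [abs_mul]
      apply mul_le_mul (hQS k) _ (abs_nonneg _) hS0
      rw [abs_of_nonneg (sub_nonneg.mpr (hl1 k))]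
      linarith [hl2 k]
    have q3 : (|Good.aa (fun k => Fin (m k + 2)) z τ Q (fun k => δ k - D) k| + S * (3 * ρ / s)) ^ 2 ≤
        (|AA z Q (fun k => δ k - D) (fun k => Real.log (td (E k))) k| + S * (ρ + 3 * ρ / s)) ^ 2 := by
      have : 0 ≤ 3 * ρ / s := by positivity
      apply pow_le_pow_left₀ (by positivity)
      linarith
    have q4 : (Real.log ρ - Good.ell (fun k => Fin (m k + 2)) τ k)⁻¹ ≤ (Real.log ρ - Real.log (td (E k)) - ρ)⁻¹ := by
      apply inv_anti₀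
      · linarith [htd k]
      · rw [hell]; linarith [hl2 k]
    have q5 : 0 < (Real.log ρ - Good.ell (fun k => Fin (m k + 2)) τ k)⁻¹ := inv_pos.mpr (hgood.hpos k)
    have q6 := mul_le_mul q3 q4 q5.le (sq_nonneg _)
    have q7 := mul_le_mul_of_nonneg_left q6 (show 0 ≤ 4 * π by positivity)
    have q8 : 2 * (S * s⁻¹) ^ 2 * (π * (2 * ρ) ^ 2) = 8 * π * (S * s⁻¹ * ρ) ^ 2 := by ring
    rw [q8]
    linarith
  have p4 : (n:ℝ) * ∑ k, Good.EV (fun k => Fin (m k + 2)) z ρ s τ Q (fun k => δ k - D) k ≤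
      n * ∑ k, (4 * π * (|AA z Q (fun k => δ k - D) (fun k => Real.log (td (E k))) k| + S * (ρ + 3 * ρ / s)) ^ 2
          * (Real.log ρ - Real.log (td (E k)) - ρ)⁻¹ + 8 * π * (S * s⁻¹ * ρ) ^ 2) :=
    mul_le_mul_of_nonneg_left (Finset.sum_le_sum fun k _ => p3 k) (Nat.cast_nonneg n)
  have p5 := mul_le_mul_of_nonneg_left p2 (sq_nonneg S)
  have p6 := mul_le_mul_of_nonneg_left p1 (show 0 ≤ 2 * π by positivity)
  unfold Phi
  linarith

end Pool.Agent.Helper828.Cap
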