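import Pool.Agent.Helper828.CapE5

/-! Asymptotics of the capacity. -/

namespace Pool.Agent.Helper828.Cap

open Set Filter Topology MeasureTheory Metric Real Asymptotics

theorem LB' {n : ℕ} (E : Fin n → Set ℂ) (z : Fin n → ℂ) (Q δ : Fin n → ℝ) (D : ℝ) (hQ : ∑ k, Q k = 0)
    (hE0 : ∀ k, 0 < td (E k)) {ρ s : ℝ} (hρ : 0 < ρ) (hs : 0 < s)
    (hEz : ∀ k, E k ⊆ ball (z k) ρ) (hsep : ∀ k l, k ≠ l → 4 * ρ + s ≤ ‖z k - z l‖)
    (hfin : cap E δ ≠ ⊤) :
    Phi z Q (fun k => δ k - D) (fun k => Real.log (td (E k))) - 4 * π * ρ / s * (∑ k, |Q k|) ^ 2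
      ≤ (cap E δ).toReal := by
  set S : ℝ := ∑ k, |Q k| with hS
  apply le_cap hfin
  intro u c hu hc hi huE
  have hB : ∀ k, ∀ x ∈ E k, ‖x‖ ≤ ∑ k, ‖z k‖ + ρ := by
    intro k x hx
    have h1 := hEz k hx
    rw [mem_ball, dist_eq_norm] at h1
    have h2 : ‖x‖ - ‖z k‖ ≤ ‖x - z k‖ := norm_sub_norm_le _ _
    have h3 : ‖z k‖ ≤ ∑ k, ‖z k‖ := Finset.single_le_sum (fun _ _ => norm_nonneg _) (Finset.mem_univ k)
    linarith
  have hlow : ∀ k l, k ≠ l → ∀ x ∈ E k, ∀ y ∈ E l, s ≤ ‖x - y‖ ∧ |‖x - y‖ - ‖z k - z l‖| ≤ 2 * ρ := by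
    intro k l hkl x hx y hy
    have h1 := hEz k hx
    have h2 := hEz l hy
    rw [mem_ball, dist_eq_norm] at h1 h2
    have h3 : ‖(x - y) - (z k - z l)‖ ≤ ‖x - z k‖ + ‖y - z l‖ := by
      calc ‖(x - y) - (z k - z l)‖ = ‖(x - z k) - (y - z l)‖ := by congr 1; ring
        _ ≤ _ := norm_sub_le _ _
    have h4 := abs_norm_sub_norm_le (x - y) (z k - z l)
    have h5 := hsep k l hkl
    refine ⟨?_, by linarith⟩
    have h6 := (abs_le.mp h4).1
    linarith
  have h1 := LB E Q δ hQ hE0 hB (fun k l => Real.log ‖z k - z l‖) (κ := 2 * ρ / s) hs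
    (fun k l hkl x hx y hy => by
      obtain ⟨h2, h3⟩ := hlow k l hkl x hx y hy
      have h4 := hsep k l hkl
      refine (log_close hs h2 (by linarith)).trans ?_
      gcongr)
    (fun k l hkl x hx y hy => (hlow k l hkl x hx y hy).1) hu hc hi huE
  refine le_trans ?_ h1
  unfold Phi
  have h2 : ∑ k, Q k * (δ k - D) = ∑ k, Q k * δ k := by
    simp only [mul_sub, Finset.sum_sub_distrib, ← Finset.sum_mul, hQ, zero_mul, sub_zero]
  rw [h2]
  have hSS : ∑ k, ∑ l ∈ Finset.univ.erase k, |Q k * Q l| ≤ S ^ 2 := by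
    rw [sq, hS, Finset.sum_mul_sum]
    refine Finset.sum_le_sum fun k _ => ?_
    simp only [abs_mul]
    exact Finset.sum_le_sum_of_subset_of_nonneg (Finset.erase_subset _ _) fun l _ _ =>
      mul_nonneg (abs_nonneg _) (abs_nonneg _)
  have h3 : 2 * π * (2 * ρ / s) * (∑ k, ∑ l ∈ Finset.univ.erase k, |Q k * Q l|) ≤ 2 * π * (2 * ρ / s) * S ^ 2 :=
    mul_le_mul_of_nonneg_left hSS (by positivity)
  have h4 : 4 * π * ρ / s * S ^ 2 = 2 * π * (2 * ρ / s) * S ^ 2 := by ring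
  rw [h4]
  linarith

lemma exists_sep {n : ℕ} {z : Fin n → ℂ} (hz : Function.Injective z) :
    ∃ s : ℝ, 0 < s ∧ ∀ k l, k ≠ l → 2 * s ≤ ‖z k - z l‖ := by
  have h1 : ∀ᶠ s : ℝ in 𝓝[>] 0, ∀ k l, k ≠ l → 2 * s ≤ ‖z k - z l‖ := by
    rw [eventually_all]
    intro k
    rw [eventually_all]
    intro l
    by_cases hkl : k = l
    · exact Eventually.of_forall fun s hs => absurd hkl hs
    · have h2 : 0 < ‖z k - z l‖ := norm_pos_iff.mpr (sub_ne_zero.mpr fun h => hkl (hz h))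
      have h3 : Tendsto (fun s : ℝ => 2 * s) (𝓝[>] 0) (𝓝 0) := by
        have : Tendsto (fun s : ℝ => 2 * s) (𝓝 0) (𝓝 (2 * 0)) := tendsto_id.const_mul 2
        rw [mul_zero] at this
        exact this.mono_left nhdsWithin_le_nhds
      filter_upwards [h3.eventually_lt_const h2] with s hs _
      exact hs.le
  have h2 : ∀ᶠ s : ℝ in 𝓝[>] 0, 0 < s := eventually_mem_nhdsWithin
  obtain ⟨s, hs1, hs2⟩ := (h1.and h2).exists
  exact ⟨s, hs2, hs1⟩

theorem main {n : ℕ} (z : Fin n → ℂ) (δ μ ν : Fin n → ℝ) (E : Fin n → ℝ → Set ℂ) (D R : ℝ)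
    (hz : Function.Injective z) (hδ : ∃ k l, δ k ≠ δ l) (hμ : ∀ k, 0 < μ k) (hν : ∀ k, 0 < ν k)
    (hE : ∀ k r, IsClosed (E k r))
    (hEz : ∀ k, ∀ ε > 0, ∀ᶠ r in 𝓝[>] (0:ℝ), E k r ⊆ Metric.ball (z k) ε)
    (htd : ∀ k, Tendsto (fun r : ℝ => td (E k r) / (μ k * r ^ (ν k))) (𝓝[>] 0) (𝓝 1))
    (hD : D = (∑ k, δ k / ν k) / (∑ k, 1 / ν k))
    (hR : R = 2 * π * (∑ k, (δ k - D) ^ 2 / (ν k) ^ 2 * Real.log (μ k)
        + ∑ k, ∑ l ∈ Finset.univ.erase k,
            (δ k - D) * (δ l - D) / (ν k * ν l) * Real.log ‖z k - z l‖)) :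
    (fun r : ℝ => (cap (fun k => E k r) δ).toReal
        - (-(2 * π) * ∑ k, (δ k - D) ^ 2 / (ν k * Real.log r) + R * (1 / Real.log r) ^ 2))
      =o[𝓝[>] 0] (fun r : ℝ => (1 / Real.log r) ^ 2) := by
  obtain ⟨k0, l0, hkl0⟩ := hδ
  set e : Fin n → ℝ := fun k => δ k - D with he
  set q : Fin n → ℝ := fun k => -(e k / ν k) with hq
  have hqsum : ∑ k, q k = 0 := by
    have h1 : 0 < ∑ k, 1 / ν k :=
      Finset.sum_pos (fun k _ => by have := hν k; positivity) ⟨k0, Finset.mem_univ k0⟩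
    have h2 : D * ∑ k, 1 / ν k = ∑ k, δ k / ν k := by
      rw [hD]; field_simp
    simp only [hq, he, Finset.sum_neg_distrib, neg_eq_zero, sub_div, Finset.sum_sub_distrib]
    rw [← h2, Finset.mul_sum, sub_eq_zero]
    exact Finset.sum_congr rfl fun k _ => by ring
  obtain ⟨s, hs, hsep⟩ := exists_sep hz
  set S0 : ℝ := ∑ k, |q k| with hS0
  have hS00 : 0 ≤ S0 := Finset.sum_nonneg fun _ _ => abs_nonneg _
  -- the error in the logarithmic capacity
  set o : Fin n → ℝ → ℝ := fun k r => Real.log (td (E k r)) - Real.log (μ k) - ν k * Real.log r with ho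
  have hr0 : ∀ᶠ r : ℝ in 𝓝[>] 0, 0 < r := eventually_mem_nhdsWithin
  have htdpos : ∀ᶠ r : ℝ in 𝓝[>] 0, ∀ k, 0 < td (E k r) := by
    rw [eventually_all]
    intro k
    filter_upwards [(htd k).eventually_const_lt (show (0:ℝ) < 1 by norm_num), hr0] with r h1 h2
    have h3 : 0 < μ k * r ^ (ν k) := mul_pos (hμ k) (Real.rpow_pos_of_pos h2 _)
    by_contra h4
    have := div_nonpos_of_nonpos_of_nonneg (not_lt.mp h4) h3.le
    linarith
  have ho0 : ∀ k, Tendsto (o k) (𝓝[>] 0) (𝓝 0) := by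
    intro k
    have h1 := (htd k).log one_ne_zero
    rw [Real.log_one] at h1
    refine h1.congr' ?_
    filter_upwards [htdpos, hr0] with r h2 h3
    have h4 : 0 < r ^ (ν k) := Real.rpow_pos_of_pos h3 _
    simp only [ho]
    rw [Real.log_div (h2 k).ne' (mul_pos (hμ k) h4).ne', Real.log_mul (hμ k).ne' h4.ne',
      Real.log_rpow h3]
    ring
  have hlog : Tendsto Real.log (𝓝[>] 0) atBot := Real.tendsto_log_nhdsGT_zero
  have htdlog : ∀ k, Tendsto (fun r => Real.log (td (E k r))) (𝓝[>] 0) atBot := by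
    intro k
    have h1 : Tendsto (fun r => ν k * Real.log r) (𝓝[>] 0) atBot := hlog.const_mul_atBot (hν k)
    have h2 : Tendsto (fun r => o k r + Real.log (μ k)) (𝓝[>] 0) (𝓝 (0 + Real.log (μ k))) :=
      (ho0 k).add_const _
    have h3 := h2.add_atBot h1
    refine h3.congr fun r => ?_
    simp only [ho]; ring
  rw [isLittleO_iff]
  intro c hc
  -- choice of ρ
  set F : ℝ → ℝ := fun ρ => S0 ^ 2 * (ρ * (36 * π / s + 4 * π)) + n * ∑ _k : Fin n, 8 * π * (S0 * s⁻¹ * ρ) ^ 2 with hF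
  have hFc : Continuous F := by rw [hF]; fun_prop
  have hF0 : F 0 = 0 := by simp [hF]
  have hρex : ∃ ρ : ℝ, 0 < ρ ∧ 4 * ρ + s ≤ 2 * s ∧ F ρ < c / 2 := by
    have h1 : Tendsto F (𝓝[>] 0) (𝓝 0) := by
      have := hFc.tendsto 0
      rw [hF0] at this
      exact this.mono_left nhdsWithin_le_nhds
    have h2 : Tendsto (fun ρ : ℝ => 4 * ρ + s) (𝓝[>] 0) (𝓝 s) := by
      have : Tendsto (fun ρ : ℝ => 4 * ρ + s) (𝓝 0) (𝓝 (4 * 0 + s)) := (tendsto_id.const_mul 4).add_const s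
      rw [mul_zero, zero_add] at this
      exact this.mono_left nhdsWithin_le_nhds
    have h3 := h1.eventually_lt_const (show (0:ℝ) < c / 2 by positivity)
    have h4 := h2.eventually_lt_const (show s < 2 * s by linarith)
    obtain ⟨ρ, ⟨h5, h6⟩, h7⟩ := ((h3.and h4).and hr0).exists
    exact ⟨ρ, h7, h6.le, h5⟩
  obtain ⟨ρ, hρ, hρs, hFρ⟩ := hρex
  have hsep' : ∀ k l, k ≠ l → 4 * ρ + s ≤ ‖z k - z l‖ := fun k l hkl => hρs.trans (hsep k l hkl)
  -- the r-dependent part of the error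
  set a : Fin n → ℝ := fun k => |q k| * (|Real.log (μ k)| + 1) + ∑ l ∈ Finset.univ.erase k, |q l| * |Real.log ‖z k - z l‖| with ha
  set G : ℝ → ℝ := fun r => 2 * π * ∑ k, q k ^ 2 * |o k r|
    + n * ∑ k, 4 * π * (a k + S0 * (ρ + 3 * ρ / s)) ^ 2 * (Real.log ρ - Real.log (td (E k r)) - ρ)⁻¹ with hG
  have hG0 : Tendsto G (𝓝[>] 0) (𝓝 0) := by
    have h1 : Tendsto (fun r => 2 * π * ∑ k, q k ^ 2 * |o k r|) (𝓝[>] 0) (𝓝 (2 * π * ∑ k, q k ^ 2 * |(0:ℝ)|)) := by
      apply Tendsto.const_mul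
      apply tendsto_finsetSum
      intro k _
      exact ((ho0 k).abs).const_mul _
    have h2 : Tendsto (fun r => (n:ℝ) * ∑ k, 4 * π * (a k + S0 * (ρ + 3 * ρ / s)) ^ 2 * (Real.log ρ - Real.log (td (E k r)) - ρ)⁻¹)
        (𝓝[>] 0) (𝓝 (n * ∑ k, 4 * π * (a k + S0 * (ρ + 3 * ρ / s)) ^ 2 * 0)) := by
      apply Tendsto.const_mul
      apply tendsto_finsetSum
      intro k _
      apply Tendsto.const_mul
      apply Tendsto.inv_tendsto_atTop
      have h3 : Tendsto (fun r => (Real.log ρ - ρ) + -Real.log (td (E k r))) (𝓝[>] 0) atTop :=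
        tendsto_atTop_add_const_left _ _ (tendsto_neg_atBot_atTop.comp (htdlog k))
      refine h3.congr fun r => ?_
      ring
    have h3 := h1.add h2
    simpa using h3
  have hev1 : ∀ᶠ r : ℝ in 𝓝[>] 0, ∀ k, E k r ⊆ ball (z k) ρ := by
    rw [eventually_all]; intro k; exact hEz k ρ hρ
  have hev2 : ∀ᶠ r : ℝ in 𝓝[>] 0, ∀ k, Real.log (td (E k r)) + ρ < Real.log ρ := by
    rw [eventually_all]
    intro k
    filter_upwards [(htdlog k).eventually_lt_atBot (Real.log ρ - ρ)] with r hr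
    linarith
  have hev3 : ∀ᶠ r : ℝ in 𝓝[>] 0, ∀ k, |o k r| < 1 := by
    rw [eventually_all]
    intro k
    have := (ho0 k).abs
    rw [abs_zero] at this
    exact this.eventually_lt_const (by norm_num)
  have hev4 : ∀ᶠ r : ℝ in 𝓝[>] 0, Real.log r < 0 := hlog.eventually_lt_atBot 0
  filter_upwards [hr0, htdpos, hev1, hev2, hev3, hev4, hG0.eventually_lt_const (show (0:ℝ) < c / 2 by positivity)]
    with r r1 r2 r3 r4 r5 r6 r7
  set t : ℝ := 1 / Real.log r with ht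
  have ht0 : t ≠ 0 := by rw [ht]; exact one_div_ne_zero r6.ne
  have hlt : Real.log r = 1 / t := by rw [ht]; field_simp
  have hlogtd : ∀ k, Real.log (td (E k r)) = Real.log (μ k) + ν k * (1 / t) + o k r := by
    intro k; simp only [ho]; rw [hlt]; ring
  have hQ : ∑ k, t * q k = 0 := by rw [← Finset.mul_sum, hqsum, mul_zero]
  have hcomp : ∀ k, IsCompact (E k r) := fun k =>
    Metric.isCompact_of_isClosed_isBounded (hE k r) (isBounded_ball.subset (r3 k))
  obtain ⟨hfin, hub⟩ := UB (fun k => E k r) z (fun k => t * q k) δ D hQ hcomp r2 hρ hs r3 hsep' r4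
  have hlb := LB' (fun k => E k r) z (fun k => t * q k) δ D hQ r2 hρ hs r3 hsep' hfin
  -- evaluation of Phi
  have hS : ∑ k, |t * q k| = |t| * S0 := by
    rw [hS0, Finset.mul_sum]
    exact Finset.sum_congr rfl fun k _ => abs_mul _ _
  rw [hS] at hub hlb
  have hqν : ∀ k, q k * ν k = - e k := by
    intro k
    have := (hν k).ne'
    simp only [hq]; field_simp
  have hPhi : Phi z (fun k => t * q k) (fun k => δ k - D) (fun k => Real.log (td (E k r)))
      = (-(2 * π) * ∑ k, (δ k - D) ^ 2 / (ν k * Real.log r) + R * (1 / Real.log r) ^ 2)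
        + t ^ 2 * (2 * π * ∑ k, q k ^ 2 * o k r) := by
    unfold Phi
    rw [hR, ← ht]
    have e1 : ∀ k, (t * q k) ^ 2 * Real.log (td (E k r)) = t ^ 2 * (q k ^ 2 * Real.log (μ k)) + t * (-(q k * e k)) + t ^ 2 * (q k ^ 2 * o k r) := by
      intro k
      rw [hlogtd k]
      have : t ^ 2 * q k ^ 2 * (ν k * (1 / t)) = t * (-(q k * e k)) := by
        have h5 := hqν k
        field_simp
        linear_combination q k * h5
      linear_combination this
    have e2 : ∀ k, (δ k - D) ^ 2 / (ν k * Real.log r) = t * (-(q k * e k)) := by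
      intro k
      have := (hν k).ne'
      rw [hlt]
      simp only [hq, he]
      field_simp
    have e3 : ∀ k, (δ k - D) ^ 2 / (ν k) ^ 2 * Real.log (μ k) = q k ^ 2 * Real.log (μ k) := by
      intro k
      simp only [hq, he]
      rw [neg_sq, div_pow]
    have e4 : ∀ k l, (δ k - D) * (δ l - D) / (ν k * ν l) * Real.log ‖z k - z l‖ = q k * q l * Real.log ‖z k - z l‖ := by
      intro k l
      simp only [hq, he]
      rw [neg_mul_neg, div_mul_div_comm]
    have e5 : ∀ k l, t * q k * (t * q l) * Real.log ‖z k - z l‖ = t ^ 2 * (q k * q l * Real.log ‖z k - z l‖) := by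
      intro k l; ring
    have e6 : ∑ k, t * q k * (δ k - D) = - ∑ k, t * (-(q k * e k)) := by
      rw [← Finset.sum_neg_distrib]
      exact Finset.sum_congr rfl fun k _ => by simp only [he]; ring
    simp only [e1, e2, e3, e4, e5, Finset.sum_add_distrib]
    rw [e6]
    simp only [← Finset.mul_sum]
    ring
  have hAA : ∀ k, |AA z (fun k => t * q k) (fun k => δ k - D) (fun k => Real.log (td (E k r))) k| ≤ |t| * a k := by
    intro k
    have e1 : AA z (fun k => t * q k) (fun k => δ k - D) (fun k => Real.log (td (E k r))) k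
        = t * (q k * (Real.log (μ k) + o k r) + ∑ l ∈ Finset.univ.erase k, q l * Real.log ‖z k - z l‖) := by
      unfold AA
      simp only
      rw [hlogtd k, mul_add t, Finset.mul_sum]
      have h5 := hqν k
      have h6 : t * q k * (ν k * (1 / t)) = - e k := by
        field_simp
        linear_combination h5
      have h7 : ∑ l ∈ Finset.univ.erase k, t * q l * Real.log ‖z k - z l‖ = ∑ l ∈ Finset.univ.erase k, t * (q l * Real.log ‖z k - z l‖) :=
        Finset.sum_congr rfl fun l _ => by ring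
      rw [h7]
      simp only [he] at h6
      linear_combination h6
    rw [e1, abs_mul]
    apply mul_le_mul_of_nonneg_left _ (abs_nonneg _)
    refine (abs_add_le _ _).trans ?_
    simp only [ha]
    apply add_le_add
    · rw [abs_mul]
      apply mul_le_mul_of_nonneg_left _ (abs_nonneg _)
      refine (abs_add_le _ _).trans ?_
      linarith [r5 k]
    · refine (Finset.abs_sum_le_sum_abs _ _).trans ?_
      exact Finset.sum_le_sum fun l _ => (abs_mul _ _).le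
  have ht2 : |t| ^ 2 = t ^ 2 := sq_abs t
  have ha0 : ∀ k, 0 ≤ a k := by
    intro k
    simp only [ha]
    have : 0 ≤ ∑ l ∈ Finset.univ.erase k, |q l| * |Real.log ‖z k - z l‖| :=
      Finset.sum_nonneg fun _ _ => by positivity
    positivity
  -- upper estimate
  have hosum : |∑ k, q k ^ 2 * o k r| ≤ ∑ k, q k ^ 2 * |o k r| := by
    refine (Finset.abs_sum_le_sum_abs _ _).trans ?_
    refine Finset.sum_le_sum fun k _ => ?_
    rw [abs_mul, abs_of_nonneg (sq_nonneg (q k))]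
  have hterm : ∀ k, 4 * π * (|AA z (fun k => t * q k) (fun k => δ k - D) (fun k => Real.log (td (E k r))) k| + |t| * S0 * (ρ + 3 * ρ / s)) ^ 2
          * (Real.log ρ - Real.log (td (E k r)) - ρ)⁻¹ + 8 * π * (|t| * S0 * s⁻¹ * ρ) ^ 2 ≤
      t ^ 2 * (4 * π * (a k + S0 * (ρ + 3 * ρ / s)) ^ 2 * (Real.log ρ - Real.log (td (E k r)) - ρ)⁻¹ + 8 * π * (S0 * s⁻¹ * ρ) ^ 2) := by
    intro k
    have i1 : 0 < (Real.log ρ - Real.log (td (E k r)) - ρ)⁻¹ := inv_pos.mpr (by linarith [r4 k])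
    have i2 : |AA z (fun k => t * q k) (fun k => δ k - D) (fun k => Real.log (td (E k r))) k| + |t| * S0 * (ρ + 3 * ρ / s)
        ≤ |t| * (a k + S0 * (ρ + 3 * ρ / s)) := by
      have := hAA k
      linarith
    have i3 : 0 ≤ 3 * ρ / s := by positivity
    have i4 := pow_le_pow_left₀ (by positivity) i2 2
    rw [mul_pow, ht2] at i4
    have i5 := mul_le_mul_of_nonneg_right (mul_le_mul_of_nonneg_left i4 (show 0 ≤ 4 * π by positivity)) i1.le
    have i6 : 8 * π * (|t| * S0 * s⁻¹ * ρ) ^ 2 = t ^ 2 * (8 * π * (S0 * s⁻¹ * ρ) ^ 2) := by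
      rw [← ht2]; ring
    rw [i6]
    linarith
  have hubsum := mul_le_mul_of_nonneg_left (Finset.sum_le_sum fun k (_ : k ∈ Finset.univ) => hterm k) (Nat.cast_nonneg (α := ℝ) n)
  have hsumsplit : (n:ℝ) * ∑ k, t ^ 2 * (4 * π * (a k + S0 * (ρ + 3 * ρ / s)) ^ 2 * (Real.log ρ - Real.log (td (E k r)) - ρ)⁻¹ + 8 * π * (S0 * s⁻¹ * ρ) ^ 2)
      = t ^ 2 * (n * ∑ k, 4 * π * (a k + S0 * (ρ + 3 * ρ / s)) ^ 2 * (Real.log ρ - Real.log (td (E k r)) - ρ)⁻¹)
        + t ^ 2 * (n * ∑ _k : Fin n, 8 * π * (S0 * s⁻¹ * ρ) ^ 2) := by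
    rw [← Finset.mul_sum, Finset.sum_add_distrib]
    ring
  rw [hsumsplit] at hubsum
  have ht2pos : 0 ≤ t ^ 2 := sq_nonneg t
  have hosum2 := mul_le_mul_of_nonneg_left hosum (show 0 ≤ 2 * π * t ^ 2 by positivity)
  have hoabs := abs_le.mp (show |2 * π * t ^ 2 * ∑ k, q k ^ 2 * o k r| ≤ 2 * π * t ^ 2 * ∑ k, q k ^ 2 * |o k r| by
    rw [abs_mul, abs_of_nonneg (show 0 ≤ 2 * π * t ^ 2 by positivity)]; exact hosum2)
  have hS2 : (|t| * S0) ^ 2 = t ^ 2 * S0 ^ 2 := by rw [mul_pow, ht2]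
  rw [hS2] at hub hlb
  rw [hPhi] at hub hlb
  have hcF := mul_le_mul_of_nonneg_left hFρ.le ht2pos
  have hcG := mul_le_mul_of_nonneg_left r7.le ht2pos
  simp only [hF] at hcF
  simp only [hG] at hcG
  have hinvnn : 0 ≤ t ^ 2 * ((n:ℝ) * ∑ k, 4 * π * (a k + S0 * (ρ + 3 * ρ / s)) ^ 2 * (Real.log ρ - Real.log (td (E k r)) - ρ)⁻¹) := by
    apply mul_nonneg ht2pos
    apply mul_nonneg (Nat.cast_nonneg n)
    apply Finset.sum_nonneg
    intro k _
    have i1 : 0 < (Real.log ρ - Real.log (td (E k r)) - ρ)⁻¹ := inv_pos.mpr (by linarith [r4 k])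
    positivity
  have hnn2 : 0 ≤ t ^ 2 * ((n:ℝ) * ∑ _k : Fin n, 8 * π * (S0 * s⁻¹ * ρ) ^ 2) := by positivity
  have hnn3 : 0 ≤ t ^ 2 * (S0 ^ 2 * (ρ * (32 * π / s + 4 * π))) := by positivity
  have hid : t ^ 2 * (S0 ^ 2 * (ρ * (36 * π / s + 4 * π))) = 4 * π * ρ / s * (t ^ 2 * S0 ^ 2) + t ^ 2 * (S0 ^ 2 * (ρ * (32 * π / s + 4 * π))) := by
    field_simp
    ring
  rw [Real.norm_eq_abs, Real.norm_eq_abs, abs_of_nonneg ht2pos, abs_le]
  constructor
  · linarith [hoabs.1, hoabs.2]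
  · linarith [hoabs.1, hoabs.2]

end Pool.Agent.Helper828.Cap
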